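import Pool.Agent.Helper54.RC.UnitF
import Pool.Agent.Helper95.SH.CoordL

/-!
# Project RC, SHARP: the local part of `EP` with finite rational rows

`coef_le`, `coef_sq`: a certificate `AP b s p f` (helper54's fast format) gives all Fourier coefficients of `f`
(`cf b p.z n / 2 ^ s`, error `er / 2 ^ s` in the quadratic mean).
`LA_low`: the true coefficients of `Z1, Z2` in `LA` replaced by finite rows, with a diagonal loss.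
`fc_v1`, `fc_v2`: coefficients of the alignment directions.
-/

open MeasureTheory Set Filter Topology

namespace Helper30.SH

open Helper49.LT hiding sg
open Helper49.RC (om)
open Helper95.RC
open Helper95.SH
open Helper49.Sharp
open Helper87.RC (Fam BM intg_of_bddC intg_of_bdd fc_eq fc_sub fc_cmul fc_add fc_conj pars pars2 fc_G1 fc_G2)
open Helper56.RC (fc)
open Helper54.RC.Fast (FP PF AP V cc len len_eq V_eq_sum wf cont_V)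

/-! ## Coefficients of a certificate -/

/-- the coefficient of the frequency `n` (an integer number of units) -/
noncomputable def cf (b : ℕ) (z : FP) (n : ℤ) : ℂ :=
  if n ∈ Finset.Icc (-(z.N : ℤ)) z.N then cc b z (n + z.N).toNat else 0

theorem cf_sup (b : ℕ) (z : FP) : Sup z.N (cf b z) := by
  intro n hn
  unfold cf
  rw [if_neg hn]

theorem V_tp (b : ℕ) (z : FP) (t : ℝ) :
    V b z t = Helper95.RC.tp (Finset.Icc (-(z.N : ℤ)) z.N) (cf b z) t := by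
  rw [V_eq_sum]
  unfold Helper95.RC.tp
  refine Finset.sum_nbij' (fun k : ℕ => (k : ℤ) - z.N) (fun n : ℤ => (n + z.N).toNat) ?_ ?_ ?_ ?_ ?_
  · intro k hk
    rw [Finset.mem_range, len_eq] at hk
    rw [Finset.mem_Icc]
    omega
  · intro n hn
    rw [Finset.mem_Icc] at hn
    rw [Finset.mem_range, len_eq]
    omega
  · intro k _
    simp
  · intro n hn
    rw [Finset.mem_Icc] at hn
    show (((n + z.N).toNat : ℕ) : ℤ) - z.N = n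
    omega
  · intro k hk
    rw [Finset.mem_range, len_eq] at hk
    unfold cf
    have h1 : ((k : ℤ) - z.N) ∈ Finset.Icc (-(z.N : ℤ)) z.N := by
      rw [Finset.mem_Icc]
      omega
    rw [if_pos h1]
    have h2 : ((k : ℤ) - z.N + z.N).toNat = k := by simp
    rw [h2]
    push_cast
    rfl

theorem bm_V (b : ℕ) (z : FP) : ∃ C, BM (V b z) C := by
  have e : V b z = Helper95.RC.tp (Finset.Icc (-(z.N : ℤ)) z.N) (cf b z) := funext (V_tp b z)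
  rw [e]
  exact ⟨_, tp_BM _ _⟩

theorem fc_V (b : ℕ) (z : FP) (n : ℤ) : fc (V b z) n = cf b z n := by
  have e : V b z = Helper95.RC.tp (Finset.Icc (-(z.N : ℤ)) z.N) (cf b z) := funext (V_tp b z)
  rw [e, fc_tp]
  by_cases h : n ∈ Finset.Icc (-(z.N : ℤ)) z.N
  · rw [if_pos h]
  · rw [if_neg h]
    unfold cf
    rw [if_neg h]

/-- the quadratic mean is at most the supremum -/
theorem sum_sq_le {g : ℝ → ℂ} {ε : ℝ} (hg : BM g ε) (F : Finset ℤ) : ∑ n ∈ F, ‖fc g n‖ ^ 2 ≤ ε ^ 2 := by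
  have hpi := Real.pi_pos
  have h1 := pars hg
  have h2 : ∑ n ∈ F, ‖fc g n‖ ^ 2 ≤ (1 / (2 * Real.pi)) * ∫ t in (0 : ℝ)..(2 * Real.pi), ‖g t‖ ^ 2 :=
    sum_le_hasSum F (fun n _ => by positivity) h1
  refine h2.trans ?_
  have h3 : ∫ t in (0 : ℝ)..(2 * Real.pi), ‖g t‖ ^ 2 ≤ ∫ t in (0 : ℝ)..(2 * Real.pi), ε ^ 2 := by
    refine intervalIntegral.integral_mono_on (by positivity) ?_ ?_ ?_
    · have h4 := (hg.mul hg).i 0 (2 * Real.pi)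
      have h5 := h4.norm
      refine h5.congr ?_
      intro t _
      show ‖g t * g t‖ = ‖g t‖ ^ 2
      rw [norm_mul, sq]
    · exact intervalIntegrable_const
    · intro t _
      exact pow_le_pow_left₀ (norm_nonneg _) (hg.b t) 2
  rw [intervalIntegral.integral_const, sub_zero, smul_eq_mul] at h3
  calc (1 / (2 * Real.pi)) * ∫ t in (0 : ℝ)..(2 * Real.pi), ‖g t‖ ^ 2
      ≤ (1 / (2 * Real.pi)) * (2 * Real.pi * ε ^ 2) := mul_le_mul_of_nonneg_left h3 (by positivity)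
    _ = ε ^ 2 := by field_simp

/-- general form: a supremum error between `f` and a finite polynomial -/
theorem sq_of_sup {f : ℝ → ℂ} {C ε : ℝ} (hf : BM f C) (S : Finset ℤ) (a : ℤ → ℂ)
    (h : ∀ t, ‖f t - Helper95.RC.tp S a t‖ ≤ ε) (F : Finset ℤ) :
    ∑ n ∈ F, ‖fc f n - (if n ∈ S then a n else 0)‖ ^ 2 ≤ ε ^ 2 := by
  have h1 : BM (fun t => f t - Helper95.RC.tp S a t) ε := ⟨hf.m.sub (tp_BM S a).m, h⟩
  have h2 := sum_sq_le h1 F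
  simp_rw [fc_sub hf (tp_BM S a), fc_tp] at h2
  exact h2

/-- **quadratic error of the coefficients of a certificate** -/
theorem coef_sq {b s : ℕ} {p : PF} {f : ℝ → ℂ} {C : ℝ} (hf : BM f C) (h : AP b s p f) (F : Finset ℤ) :
    ∑ n ∈ F, ‖fc f n - cf b p.z n / 2 ^ s‖ ^ 2 ≤ ((p.er : ℝ) / 2 ^ s) ^ 2 := by
  obtain ⟨D, hD⟩ := bm_V b p.z
  have hs : (0 : ℝ) < 2 ^ s := by positivity
  have h2 : BM (fun t => f t - (1 / 2 ^ s : ℂ) * V b p.z t) ((p.er : ℝ) / 2 ^ s) := by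
    refine ⟨hf.m.sub (hD.m.const_mul _), fun t => ?_⟩
    have h3 := h.2 t
    rw [le_div_iff₀ hs]
    have e : f t - (1 / 2 ^ s : ℂ) * V b p.z t = -(1 / 2 ^ s : ℂ) * (V b p.z t - (2 ^ s : ℂ) * f t) := by
      have : (2 ^ s : ℂ) ≠ 0 := pow_ne_zero _ two_ne_zero
      field_simp
      ring
    rw [e, norm_mul, norm_neg, norm_div, norm_one, norm_pow, Complex.norm_ofNat]
    calc 1 / 2 ^ s * ‖V b p.z t - (2 ^ s : ℂ) * f t‖ * 2 ^ s = ‖V b p.z t - (2 ^ s : ℂ) * f t‖ := by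
          field_simp
      _ ≤ p.er := h3
  have h4 := sum_sq_le h2 F
  have e2 : ∀ n, fc (fun t => f t - (1 / 2 ^ s : ℂ) * V b p.z t) n = fc f n - cf b p.z n / 2 ^ s := by
    intro n
    rw [fc_sub hf (hD.cmul _), fc_cmul, fc_V]
    ring
  simp_rw [e2] at h4
  exact h4

/-- **error of one coefficient** -/
theorem coef_le {b s : ℕ} {p : PF} {f : ℝ → ℂ} {C : ℝ} (hf : BM f C) (h : AP b s p f) (n : ℤ) :
    ‖fc f n - cf b p.z n / 2 ^ s‖ ≤ (p.er : ℝ) / 2 ^ s := by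
  have h1 := coef_sq hf h {n}
  rw [Finset.sum_singleton] at h1
  exact abs_le_of_sq_le_sq' h1 (by positivity) |>.2

/-! ## Finite sums -/

theorem shift_sum {g : ℤ → ℝ} (hg : ∀ n, 0 ≤ g n) {N : ℕ} (h0 : ∀ n, n ∉ Finset.Icc (-(N : ℤ)) N → g n = 0)
    (k : ℤ) (F : Finset ℤ) : ∑ n ∈ F, g (n + k) ≤ ∑ n ∈ Finset.Icc (-(N : ℤ)) N, g n := by
  have h1 : HasSum g (∑ n ∈ Finset.Icc (-(N : ℤ)) N, g n) := hasSum_sum_of_ne_finset_zero h0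
  have h2 : HasSum (fun n => g (n + k)) (∑ n ∈ Finset.Icc (-(N : ℤ)) N, g n) :=
    (Equiv.addRight k).hasSum_iff.2 h1
  exact sum_le_hasSum F (fun n _ => hg _) h2

theorem wm_sq (η : ℂ) (f : ℤ → ℂ) (n : ℤ) : ‖wm η f n‖ ^ 2 ≤
    (1 + 2 * ‖η‖) * (‖f n‖ ^ 2 + ‖η‖ * ‖f (n + -2)‖ ^ 2 + ‖η‖ * ‖f (n + 2)‖ ^ 2) := by
  unfold wm
  have e : f (n - 2) = f (n + -2) := by rw [sub_eq_add_neg]
  rw [e]
  have h1 : ‖f n + η * f (n + -2) + (starRingEnd ℂ) η * f (n + 2)‖ ≤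
      ‖f n‖ + ‖η‖ * ‖f (n + -2)‖ + ‖η‖ * ‖f (n + 2)‖ := by
    refine (norm_add_le _ _).trans (add_le_add ((norm_add_le _ _).trans (add_le_add le_rfl ?_)) ?_)
    · rw [norm_mul]
    · rw [norm_mul, RCLike.norm_conj]
  have h2 := pow_le_pow_left₀ (norm_nonneg _) h1 2
  refine h2.trans ?_
  have hη := norm_nonneg η
  nlinarith [mul_nonneg hη (sq_nonneg (‖f n‖ - ‖f (n + -2)‖)), mul_nonneg hη (sq_nonneg (‖f n‖ - ‖f (n + 2)‖)),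
    mul_nonneg (mul_nonneg hη hη) (sq_nonneg (‖f (n + -2)‖ - ‖f (n + 2)‖))]

theorem wm_sum {η : ℂ} (hη : ‖η‖ ≤ 1 / 4) {f : ℤ → ℂ} {N : ℕ} (hf : Sup N f) (F : Finset ℤ) :
    ∑ n ∈ F, ‖wm η f n‖ ^ 2 ≤ 9 / 4 * ∑ n ∈ Finset.Icc (-(N : ℤ)) N, ‖f n‖ ^ 2 := by
  set S := ∑ n ∈ Finset.Icc (-(N : ℤ)) N, ‖f n‖ ^ 2 with hS
  have hS0 : 0 ≤ S := Finset.sum_nonneg fun n _ => by positivity
  have hg : ∀ n, 0 ≤ ‖f n‖ ^ 2 := fun n => by positivity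
  have h0 : ∀ n, n ∉ Finset.Icc (-(N : ℤ)) N → ‖f n‖ ^ 2 = 0 := fun n hn => by rw [hf n hn]; simp
  have a1 := shift_sum (g := fun n => ‖f n‖ ^ 2) hg h0 0 F
  have a2 := shift_sum (g := fun n => ‖f n‖ ^ 2) hg h0 (-2) F
  have a3 := shift_sum (g := fun n => ‖f n‖ ^ 2) hg h0 2 F
  simp only [add_zero] at a1
  have hη0 := norm_nonneg η
  calc ∑ n ∈ F, ‖wm η f n‖ ^ 2
      ≤ ∑ n ∈ F, (1 + 2 * ‖η‖) * (‖f n‖ ^ 2 + ‖η‖ * ‖f (n + -2)‖ ^ 2 + ‖η‖ * ‖f (n + 2)‖ ^ 2) :=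
        Finset.sum_le_sum fun n _ => wm_sq η f n
    _ = (1 + 2 * ‖η‖) * (∑ n ∈ F, ‖f n‖ ^ 2 + ‖η‖ * ∑ n ∈ F, ‖f (n + -2)‖ ^ 2 + ‖η‖ * ∑ n ∈ F, ‖f (n + 2)‖ ^ 2) := by
        rw [← Finset.mul_sum, Finset.sum_add_distrib, Finset.sum_add_distrib, Finset.mul_sum, Finset.mul_sum]
    _ ≤ (1 + 2 * ‖η‖) * (S + ‖η‖ * S + ‖η‖ * S) := by
        refine mul_le_mul_of_nonneg_left ?_ (by positivity)
        exact add_le_add (add_le_add a1 (mul_le_mul_of_nonneg_left a2 hη0)) (mul_le_mul_of_nonneg_left a3 hη0)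
    _ ≤ 9 / 4 * S := by nlinarith [mul_nonneg hη0 hS0, mul_le_mul_of_nonneg_right hη hS0,
        mul_le_mul_of_nonneg_right (mul_le_mul hη hη hη0 (by norm_num : (0 : ℝ) ≤ 1 / 4)) hS0]

/-- Cauchy-Schwarz for two rows with a small quadratic distance -/
theorem row_cs (F : Finset ℤ) (a y y' : ℤ → ℂ) {e θ : ℝ} (he : 0 ≤ e) (hθ : 0 < θ)
    (h : ∑ n ∈ F, ‖y n - y' n‖ ^ 2 ≤ e ^ 2) :
    (∑ n ∈ F, a n * (starRingEnd ℂ) (y' n)).re - e * (1 / (2 * θ) + θ / 2 * ∑ n ∈ F, ‖a n‖ ^ 2) ≤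
      (∑ n ∈ F, a n * (starRingEnd ℂ) (y n)).re := by
  set S := ∑ n ∈ F, ‖a n‖ ^ 2 with hS
  have hS0 : 0 ≤ S := Finset.sum_nonneg fun n _ => by positivity
  have h1 : (∑ n ∈ F, a n * (starRingEnd ℂ) (y n)).re - (∑ n ∈ F, a n * (starRingEnd ℂ) (y' n)).re =
      (∑ n ∈ F, a n * (starRingEnd ℂ) (y n - y' n)).re := by
    rw [← Complex.sub_re, ← Finset.sum_sub_distrib]
    congr 1
    refine Finset.sum_congr rfl fun n _ => ?_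
    rw [map_sub]
    ring
  have h2 : |(∑ n ∈ F, a n * (starRingEnd ℂ) (y n - y' n)).re| ≤ ∑ n ∈ F, ‖a n‖ * ‖y n - y' n‖ := by
    refine (Complex.abs_re_le_norm _).trans ((norm_sum_le _ _).trans (le_of_eq ?_))
    refine Finset.sum_congr rfl fun n _ => ?_
    rw [norm_mul, RCLike.norm_conj]
  have h3 := Finset.sum_mul_sq_le_sq_mul_sq F (fun n => ‖a n‖) (fun n => ‖y n - y' n‖)
  have h4 : ∑ n ∈ F, ‖a n‖ * ‖y n - y' n‖ ≤ e * (1 / (2 * θ) + θ / 2 * S) := by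
    have k1 : (∑ n ∈ F, ‖a n‖ * ‖y n - y' n‖) ^ 2 ≤ (e * (1 / (2 * θ) + θ / 2 * S)) ^ 2 := by
      refine h3.trans ?_
      calc S * ∑ n ∈ F, ‖y n - y' n‖ ^ 2 ≤ S * e ^ 2 := mul_le_mul_of_nonneg_left h hS0
        _ = e ^ 2 * (4 * (1 / (2 * θ)) * (θ / 2 * S)) := by field_simp; norm_num
        _ ≤ e ^ 2 * (1 / (2 * θ) + θ / 2 * S) ^ 2 := by
            refine mul_le_mul_of_nonneg_left ?_ (by positivity)
            nlinarith [sq_nonneg (1 / (2 * θ) - θ / 2 * S)]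
        _ = _ := by ring
    exact abs_le_of_sq_le_sq' k1 (by positivity) |>.2
  rw [abs_le] at h2
  linarith [h2.1]

section

variable {P : Par} {p r s : ℤ → ℂ} {N : ℕ}

/-- the local part with general rows -/
noncomputable def LZ (P : Par) (N : ℕ) (p r s Y1 Y2 : ℤ → ℂ) : ℝ :=
  (∑ n ∈ Finset.Icc (-((N + 2 : ℕ) : ℤ)) ((N + 2 : ℕ) : ℤ), G1A P p r s n * (starRingEnd ℂ) (Y1 n)).re
  + (∑ n ∈ Finset.Icc (-((N + 2 : ℕ) : ℤ)) ((N + 2 : ℕ) : ℤ), G2A P p r s n * (starRingEnd ℂ) (Y2 n)).re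
  + (9 - P.cs) * (∑ n ∈ Finset.Icc (-((N + 2 : ℕ) : ℤ)) ((N + 2 : ℕ) : ℤ),
      (wm P.eta p n * (starRingEnd ℂ) (p n) + wm P.eta r n * (starRingEnd ℂ) (r n))).re

theorem LA_LZ : LA P N p r s = LZ P N p r s (fc (Z1 P)) (fc (Z2 P)) := rfl

/-- the sum of the squares of an array -/
noncomputable def nq (N : ℕ) (f : ℤ → ℂ) : ℝ := ∑ n ∈ Finset.Icc (-(N : ℤ)) N, ‖f n‖ ^ 2

theorem nq_nonneg (N : ℕ) (f : ℤ → ℂ) : 0 ≤ nq N f := Finset.sum_nonneg fun n _ => by positivity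

theorem W_sq (hr : P.Reg) (F : Finset ℤ) : ∑ n ∈ F, ‖wc P.w n‖ ^ 2 ≤ 9 / 4 := by
  have h1 : BM (fun t => (P.w t : ℂ)) (3 / 2) := by
    obtain ⟨C, h⟩ := bmw hr.wgt
    refine ⟨h.m, fun t => ?_⟩
    rw [Complex.norm_real, Real.norm_eq_abs]
    have h2 := Pool.Agent.Helper20.RC.wR_bd P.eta 0 0 t
    have h3 : P.w t = Pool.Agent.Helper20.RC.wR P.eta 0 0 t := rfl
    rw [norm_zero, add_zero, add_zero, ← h3] at h2
    have h4 := hr.eta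
    rw [abs_le] at h2 ⊢
    constructor <;> linarith [h2.1, h2.2]
  have h2 := sum_sq_le h1 F
  refine h2.trans (le_of_eq (by norm_num))

theorem kq_two : ‖kq 2‖ ^ 2 = 49 / 16 := by
  have h3 : Real.sqrt 3 ^ 2 = 3 := Real.sq_sqrt (by norm_num)
  rw [← Complex.normSq_eq_norm_sq]
  unfold kq
  rw [Complex.normSq_apply]
  simp
  nlinarith

theorem norm_om : ‖om‖ = 1 := by unfold om; exact norm_ee _

theorem sq4 (x y u v : ℂ) : ‖x + y + u + v‖ ^ 2 ≤ 4 * ‖x‖ ^ 2 + 4 * ‖y‖ ^ 2 + 4 * ‖u‖ ^ 2 + 4 * ‖v‖ ^ 2 := by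
  have h1 : ‖x + y + u + v‖ ≤ ‖x‖ + ‖y‖ + ‖u‖ + ‖v‖ :=
    (norm_add_le _ _).trans (add_le_add ((norm_add_le _ _).trans (add_le_add (norm_add_le _ _) le_rfl)) le_rfl)
  have h2 := pow_le_pow_left₀ (norm_nonneg _) h1 2
  nlinarith [sq_nonneg (‖x‖ - ‖y‖), sq_nonneg (‖x‖ - ‖u‖), sq_nonneg (‖x‖ - ‖v‖), sq_nonneg (‖y‖ - ‖u‖),
    sq_nonneg (‖y‖ - ‖v‖), sq_nonneg (‖u‖ - ‖v‖)]

theorem G1A_sq (hr : P.Reg) (hp : Sup N p) (hq : Sup N r) (hs : Sup N s) (F : Finset ℤ) :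
    ∑ n ∈ F, ‖G1A P p r s n‖ ^ 2 ≤ 9 * (1 + nq N p + 49 / 16 * nq N r + nq N s) := by
  have h1 : ∀ n, ‖G1A P p r s n‖ ^ 2 ≤ 4 * ‖wc P.w n‖ ^ 2 + 4 * ‖wm P.eta p n‖ ^ 2 +
      4 * (49 / 16 * ‖wm P.eta r n‖ ^ 2) + 4 * ‖wm P.eta s n‖ ^ 2 := by
    intro n
    have h2 := sq4 (om * wc P.w n) ((starRingEnd ℂ) om * wm P.eta p n) (kq 2 * wm P.eta r n) (wm P.eta s n)
    rw [norm_mul, norm_mul, norm_mul, RCLike.norm_conj, norm_om, one_mul, one_mul, mul_pow, kq_two] at h2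
    exact h2
  have a0 := W_sq hr F
  have a1 := wm_sum hr.eta hp F
  have a2 := wm_sum hr.eta hq F
  have a3 := wm_sum hr.eta hs F
  calc ∑ n ∈ F, ‖G1A P p r s n‖ ^ 2 ≤ ∑ n ∈ F, (4 * ‖wc P.w n‖ ^ 2 + 4 * ‖wm P.eta p n‖ ^ 2 +
      4 * (49 / 16 * ‖wm P.eta r n‖ ^ 2) + 4 * ‖wm P.eta s n‖ ^ 2) := Finset.sum_le_sum fun n _ => h1 n
    _ = 4 * ∑ n ∈ F, ‖wc P.w n‖ ^ 2 + 4 * ∑ n ∈ F, ‖wm P.eta p n‖ ^ 2 +
      4 * (49 / 16 * ∑ n ∈ F, ‖wm P.eta r n‖ ^ 2) + 4 * ∑ n ∈ F, ‖wm P.eta s n‖ ^ 2 := by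
        simp only [Finset.sum_add_distrib, Finset.mul_sum]
    _ ≤ _ := by unfold nq; linarith

theorem G2A_sq (hr : P.Reg) (hp : Sup N p) (hq : Sup N r) (hs : Sup N s) (F : Finset ℤ) :
    ∑ n ∈ F, ‖G2A P p r s n‖ ^ 2 ≤ 9 * (1 + nq N p + 49 / 16 * nq N r + nq N s) := by
  have h1 : ∀ n, ‖G2A P p r s n‖ ^ 2 ≤ 4 * ‖wc P.w n‖ ^ 2 + 4 * ‖wm P.eta p n‖ ^ 2 +
      4 * (49 / 16 * ‖wm P.eta r n‖ ^ 2) + 4 * ‖wm P.eta s n‖ ^ 2 := by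
    intro n
    have h2 := sq4 (om ^ 2 * wc P.w n) ((starRingEnd ℂ) om ^ 2 * wm P.eta p n)
      ((starRingEnd ℂ) (kq 2) * wm P.eta r n) (-wm P.eta s n)
    rw [norm_mul, norm_mul, norm_mul, norm_pow, norm_pow, RCLike.norm_conj, RCLike.norm_conj, norm_om, one_pow,
      one_mul, one_mul, mul_pow, kq_two, norm_neg, ← sub_eq_add_neg] at h2
    exact h2
  have a0 := W_sq hr F
  have a1 := wm_sum hr.eta hp F
  have a2 := wm_sum hr.eta hq F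
  have a3 := wm_sum hr.eta hs F
  calc ∑ n ∈ F, ‖G2A P p r s n‖ ^ 2 ≤ ∑ n ∈ F, (4 * ‖wc P.w n‖ ^ 2 + 4 * ‖wm P.eta p n‖ ^ 2 +
      4 * (49 / 16 * ‖wm P.eta r n‖ ^ 2) + 4 * ‖wm P.eta s n‖ ^ 2) := Finset.sum_le_sum fun n _ => h1 n
    _ = 4 * ∑ n ∈ F, ‖wc P.w n‖ ^ 2 + 4 * ∑ n ∈ F, ‖wm P.eta p n‖ ^ 2 +
      4 * (49 / 16 * ∑ n ∈ F, ‖wm P.eta r n‖ ^ 2) + 4 * ∑ n ∈ F, ‖wm P.eta s n‖ ^ 2 := by
        simp only [Finset.sum_add_distrib, Finset.mul_sum]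
    _ ≤ _ := by unfold nq; linarith

/-- the mass of an array -/
noncomputable def mass (N : ℕ) (p r s : ℤ → ℂ) : ℝ := 1 + nq N p + 49 / 16 * nq N r + nq N s

/-- **general rows in the local part: the loss is diagonal** -/
theorem LZ_low (hr : P.Reg) (hp : Sup N p) (hq : Sup N r) (hs : Sup N s) (Y1 Y2 X1 X2 : ℤ → ℂ) {e θ : ℝ}
    (he : 0 ≤ e) (hθ : 0 < θ)
    (h1 : ∑ n ∈ Finset.Icc (-((N + 2 : ℕ) : ℤ)) ((N + 2 : ℕ) : ℤ), ‖Y1 n - X1 n‖ ^ 2 ≤ e ^ 2)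
    (h2 : ∑ n ∈ Finset.Icc (-((N + 2 : ℕ) : ℤ)) ((N + 2 : ℕ) : ℤ), ‖Y2 n - X2 n‖ ^ 2 ≤ e ^ 2) :
    LZ P N p r s X1 X2 - e * (1 / θ + 9 * θ * mass N p r s) ≤ LZ P N p r s Y1 Y2 := by
  have k1 := row_cs _ (G1A P p r s) Y1 X1 he hθ h1
  have k2 := row_cs _ (G2A P p r s) Y2 X2 he hθ h2
  have q1 := G1A_sq hr hp hq hs (Finset.Icc (-((N + 2 : ℕ) : ℤ)) ((N + 2 : ℕ) : ℤ))
  have q2 := G2A_sq hr hp hq hs (Finset.Icc (-((N + 2 : ℕ) : ℤ)) ((N + 2 : ℕ) : ℤ))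
  set A1 := ∑ n ∈ Finset.Icc (-((N + 2 : ℕ) : ℤ)) ((N + 2 : ℕ) : ℤ), ‖G1A P p r s n‖ ^ 2
  set A2 := ∑ n ∈ Finset.Icc (-((N + 2 : ℕ) : ℤ)) ((N + 2 : ℕ) : ℤ), ‖G2A P p r s n‖ ^ 2
  have k3 : e * (1 / (2 * θ) + θ / 2 * A1) + e * (1 / (2 * θ) + θ / 2 * A2) ≤ e * (1 / θ + 9 * θ * mass N p r s) := by
    rw [← mul_add]
    refine mul_le_mul_of_nonneg_left ?_ he
    have e1 : 1 / (2 * θ) + θ / 2 * A1 + (1 / (2 * θ) + θ / 2 * A2) = 1 / θ + θ / 2 * (A1 + A2) := by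
      field_simp
      ring
    rw [e1]
    have e2 : θ / 2 * (A1 + A2) ≤ θ / 2 * (2 * (9 * mass N p r s)) := by
      refine mul_le_mul_of_nonneg_left ?_ (by positivity)
      unfold mass
      linarith
    linarith
  unfold LZ
  linarith

end

end Helper30.SH
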