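import Pool.Agent.Helper30.SH.ZRow
import Pool.Agent.Helper95.SH.CoordI

/-!
# Project RC, SHARP: the linear rows of the local part

`LA_split`: the local part with `Zp_j = 2 ((H + i H1)(th_j) u_j - lam u_j)` and the aligned length `2 lam e_0`.
`Zp1_form`, `Zp2_form`: `Zp_j / 2 = (1 - lam) u + (1/3) eta e(2t) u³ - conj eta e(-2t) conj u` for `a0 = 0`.
`LZ_rows`: the linear part as rows of `s, p, r`: the coefficients of `w (Z1 - Z2)`, `w (om Z1 + om² Z2)`,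
`w (conj kq Z1 + kq Z2)`.
-/

open MeasureTheory Set Filter Topology

namespace Helper30.SH

open Helper49.LT hiding sg
open Helper49.RC (om)
open Helper95.RC
open Helper95.SH
open Helper49.Sharp
open Helper41.SH (IA inv)
open Helper87.RC (Fam BM intg_of_bddC intg_of_bdd fc_eq fc_sub fc_cmul fc_add fc_conj pars pars2 fc_G1 fc_G2)
open Helper56.RC (fc)
open Pool.Agent.Helper20.RC (hw wR)

section

variable {P : Par} {p r s : ℤ → ℂ} {N : ℕ}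

/-- the true tangent part of the factor of the edges -/
noncomputable def Zp1 (P : Par) (t : ℝ) : ℂ :=
  2 * (((P.H (P.th1 t) : ℂ) + Complex.I * (P.H1 (P.th1 t) : ℂ)) * P.u1 t - (P.lam : ℂ) * P.u1 t)
noncomputable def Zp2 (P : Par) (t : ℝ) : ℂ :=
  2 * (((P.H (P.th2 t) : ℂ) + Complex.I * (P.H1 (P.th2 t) : ℂ)) * P.u2 t - (P.lam : ℂ) * P.u2 t)

theorem Z1_Zp (P : Par) (t : ℝ) : Z1 P t = Zp1 P t + (2 * (P.lam : ℂ)) * P.v1 t := by
  unfold Z1 Zp1; ring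
theorem Z2_Zp (P : Par) (t : ℝ) : Z2 P t = Zp2 P t + (2 * (P.lam : ℂ)) * P.v2 t := by
  unfold Z2 Zp2; ring

theorem Zp1_bm (hr : P.Reg) : ∃ C, BM (Zp1 P) C := by
  obtain ⟨C1, h1⟩ := br_bm (H_br hr (th1_meas hr))
  obtain ⟨C2, h2⟩ := br_bm (H1_br hr (th1_meas hr))
  exact ⟨_, (((h1.add (h2.cmul Complex.I)).mul (u1_bm hr)).sub ((u1_bm hr).cmul (P.lam : ℂ))).cmul 2⟩

theorem Zp2_bm (hr : P.Reg) : ∃ C, BM (Zp2 P) C := by
  obtain ⟨C1, h1⟩ := br_bm (H_br hr (th2_meas hr))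
  obtain ⟨C2, h2⟩ := br_bm (H1_br hr (th2_meas hr))
  exact ⟨_, (((h1.add (h2.cmul Complex.I)).mul (u2_bm hr)).sub ((u2_bm hr).cmul (P.lam : ℂ))).cmul 2⟩

theorem fc_Z1 (hr : P.Reg) (n : ℤ) : fc (Z1 P) n = fc (Zp1 P) n + 2 * (P.lam : ℂ) * fc P.v1 n := by
  obtain ⟨C, h⟩ := Zp1_bm hr
  have e : Z1 P = fun t => Zp1 P t + (2 * (P.lam : ℂ)) * P.v1 t := funext (Z1_Zp P)
  rw [e, fc_add h ((v1_bm hr).cmul _), fc_cmul]

theorem fc_Z2 (hr : P.Reg) (n : ℤ) : fc (Z2 P) n = fc (Zp2 P) n + 2 * (P.lam : ℂ) * fc P.v2 n := by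
  obtain ⟨C, h⟩ := Zp2_bm hr
  have e : Z2 P = fun t => Zp2 P t + (2 * (P.lam : ℂ)) * P.v2 t := funext (Z2_Zp P)
  rw [e, fc_add h ((v2_bm hr).cmul _), fc_cmul]

/-! ## The alignment directions -/

theorem av_shift' {f : ℝ → ℂ} (hf : ∀ t, f (t + 2 * Real.pi) = f t) (c : ℝ) : (av fun t => f (t + c)) = av f := by
  have hp : Function.Periodic f (2 * Real.pi) := hf
  unfold av
  rw [intervalIntegral.integral_comp_add_right f c]
  have := hp.intervalIntegral_add_eq (0 + c) 0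
  rw [zero_add] at this
  rw [zero_add, add_comm (2 * Real.pi) c, this, zero_add]

theorem ee_2pi (x : ℝ) : ee (x + 2 * Real.pi) = ee x := by
  have := ee_int 1 x
  simpa using this

theorem fc_vv {φ : ℝ → ℝ} (hφ : ∀ θ, φ (θ + 2 * Real.pi) = φ θ + 2 * Real.pi) (c : ℝ) (n : ℤ) :
    fc (fun t => ee (φ (t + c) - t)) n = ee (((n : ℝ) + 1) * c) * Tc φ 1 (n + 1) := by
  have h1 : (av fun t => (fun θ => ee (((1 : ℤ) : ℝ) * φ θ) * ee (-((n + 1 : ℤ) : ℝ) * θ)) (t + c)) =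
      av fun θ => ee (((1 : ℤ) : ℝ) * φ θ) * ee (-((n + 1 : ℤ) : ℝ) * θ) := by
    refine av_shift' (f := fun θ => ee (((1 : ℤ) : ℝ) * φ θ) * ee (-((n + 1 : ℤ) : ℝ) * θ)) (fun t => ?_) c
    show ee (((1 : ℤ) : ℝ) * φ (t + 2 * Real.pi)) * ee (-((n + 1 : ℤ) : ℝ) * (t + 2 * Real.pi)) = _
    rw [hφ]
    have a1 : ee (((1 : ℤ) : ℝ) * (φ t + 2 * Real.pi)) = ee (((1 : ℤ) : ℝ) * φ t) := by
      have : ((1 : ℤ) : ℝ) * (φ t + 2 * Real.pi) = ((1 : ℤ) : ℝ) * φ t + 2 * Real.pi := by push_cast; ring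
      rw [this, ee_2pi]
    have a2 : ee (-((n + 1 : ℤ) : ℝ) * (t + 2 * Real.pi)) = ee (-((n + 1 : ℤ) : ℝ) * t) := by
      have := ee_int (-(n + 1)) t
      push_cast at this ⊢
      exact this
    rw [a1, a2]
  unfold Tc
  rw [← h1]
  have e1 : fc (fun t => ee (φ (t + c) - t)) n = av fun t => ee (φ (t + c) - t) * ee (-((n : ℝ) * t)) := by
    unfold av
    rw [fc_eq]
    congr 1
    refine intervalIntegral.integral_congr fun t _ => ?_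
    show _ = _
    congr 2
    ring
  rw [e1, ← av_cfac]
  congr 1
  funext t
  beta_reduce
  rw [← ee_add, ← ee_add, ← ee_add]
  congr 1
  push_cast
  ring

theorem fc_v1 (hr : P.Reg) (n : ℤ) : fc P.v1 n = ee (((n : ℝ) + 1) * (Real.pi / 3)) * Tc P.ph1 1 (n + 1) :=
  fc_vv hr.pph1 (Real.pi / 3) n

theorem fc_v2 (hr : P.Reg) (n : ℤ) : fc P.v2 n = ee (((n : ℝ) + 1) * (2 * Real.pi / 3)) * Tc P.ph2 1 (n + 1) :=
  fc_vv hr.pph2 (2 * Real.pi / 3) n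

theorem Tc_neg (φ : ℝ → ℝ) (n : ℤ) : Tc φ (-1) (-n) = (starRingEnd ℂ) (Tc φ 1 n) := by
  unfold Tc
  rw [← av_conj]
  congr 1
  funext t
  rw [map_mul, ← ee_neg, ← ee_neg]
  congr 2 <;> push_cast <;> ring

theorem eF_zero_re (φ : ℝ → ℝ) (M : ℕ) (a : ℤ → ℂ) : (eF φ M a 0).re = (mF φ M a 1).re := by
  have h1 : mG φ M a (-1) = (starRingEnd ℂ) (mF φ M a 1) := by
    unfold mG mF
    rw [map_sum]
    refine Finset.sum_congr rfl fun n _ => ?_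
    rw [Tc_neg, map_mul]
  unfold eF
  rw [zero_add, zero_sub, h1]
  have e : (1 - ((0 : ℤ) : ℂ)) / 2 * mF φ M a 1 + (1 + ((0 : ℤ) : ℂ)) / 2 * (starRingEnd ℂ) (mF φ M a 1) =
      ((1 / 2 : ℝ) : ℂ) * (mF φ M a 1 + (starRingEnd ℂ) (mF φ M a 1)) := by
    push_cast
    ring
  rw [e, Complex.re_ofReal_mul, Complex.add_re, Complex.conj_re]
  ring

/-- a shifted sum over the window -/
theorem sum_shift (N : ℕ) (f : ℤ → ℂ) (hf : ∀ n, n ∉ Finset.Icc (-((N + 2 : ℕ) : ℤ)) ((N + 2 : ℕ) : ℤ) → f n = 0) :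
    ∑ m ∈ Finset.Icc (-((N + 3 : ℕ) : ℤ)) ((N + 3 : ℕ) : ℤ), f (m - 1) =
      ∑ n ∈ Finset.Icc (-((N + 2 : ℕ) : ℤ)) ((N + 2 : ℕ) : ℤ), f n := by
  have h1 : HasSum f (∑ n ∈ Finset.Icc (-((N + 2 : ℕ) : ℤ)) ((N + 2 : ℕ) : ℤ), f n) := hasSum_sum_of_ne_finset_zero hf
  have h2 : HasSum (fun m => f (m - 1)) (∑ n ∈ Finset.Icc (-((N + 2 : ℕ) : ℤ)) ((N + 2 : ℕ) : ℤ), f n) :=
    (Equiv.subRight (1 : ℤ)).hasSum_iff.2 h1
  have h3 : HasSum (fun m => f (m - 1)) (∑ m ∈ Finset.Icc (-((N + 3 : ℕ) : ℤ)) ((N + 3 : ℕ) : ℤ), f (m - 1)) := by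
    refine hasSum_sum_of_ne_finset_zero fun m hm => hf _ ?_
    intro hc
    apply hm
    rw [Finset.mem_Icc] at hc ⊢
    push_cast at hc ⊢
    omega
  exact h3.unique h2

theorem mF_v1 (hr : P.Reg) (hp : Sup N p) (hq : Sup N r) (hs : Sup N s) :
    mF P.ph1 (N + 3) (C1 P p r s) 1 = ∑ n ∈ Finset.Icc (-((N + 2 : ℕ) : ℤ)) ((N + 2 : ℕ) : ℤ),
      G1A P p r s n * (starRingEnd ℂ) (fc P.v1 n) := by
  rw [← sum_shift N (fun n => G1A P p r s n * (starRingEnd ℂ) (fc P.v1 n))]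
  · unfold mF
    refine Finset.sum_congr rfl fun m _ => ?_
    rw [fc_v1 hr, map_mul, ← ee_neg]
    have e1 : C1 P p r s m = ee (-(m : ℝ) * (Real.pi / 3)) * G1A P p r s (m - 1) := rfl
    have e2 : -(((((m - 1 : ℤ)) : ℝ) + 1) * (Real.pi / 3)) = -(m : ℝ) * (Real.pi / 3) := by push_cast; ring
    have e3 : (m - 1 + 1 : ℤ) = m := by ring
    rw [e1, e2, e3]
    ring
  · intro n hn
    rw [G1A_sup P N hp hq hs n hn, zero_mul]

theorem mF_v2 (hr : P.Reg) (hp : Sup N p) (hq : Sup N r) (hs : Sup N s) :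
    mF P.ph2 (N + 3) (C2 P p r s) 1 = ∑ n ∈ Finset.Icc (-((N + 2 : ℕ) : ℤ)) ((N + 2 : ℕ) : ℤ),
      G2A P p r s n * (starRingEnd ℂ) (fc P.v2 n) := by
  rw [← sum_shift N (fun n => G2A P p r s n * (starRingEnd ℂ) (fc P.v2 n))]
  · unfold mF
    refine Finset.sum_congr rfl fun m _ => ?_
    rw [fc_v2 hr, map_mul, ← ee_neg]
    have e1 : C2 P p r s m = ee (-(m : ℝ) * (2 * Real.pi / 3)) * G2A P p r s (m - 1) := rfl
    have e2 : -(((((m - 1 : ℤ)) : ℝ) + 1) * (2 * Real.pi / 3)) = -(m : ℝ) * (2 * Real.pi / 3) := by push_cast; ring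
    have e3 : (m - 1 + 1 : ℤ) = m := by ring
    rw [e1, e2, e3]
    ring
  · intro n hn
    rw [G2A_sup P N hp hq hs n hn, zero_mul]

/-- **the local part: true tangent rows and the aligned length** -/
theorem LA_split (hr : P.Reg) (hp : Sup N p) (hq : Sup N r) (hs : Sup N s) :
    LA P N p r s = LZ P N p r s (fc (Zp1 P)) (fc (Zp2 P)) + 2 * P.lam * (eAA P N p r s 0).re := by
  have h1 : (eAA P N p r s 0).re = (∑ n ∈ Finset.Icc (-((N + 2 : ℕ) : ℤ)) ((N + 2 : ℕ) : ℤ),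
      G1A P p r s n * (starRingEnd ℂ) (fc P.v1 n)).re + (∑ n ∈ Finset.Icc (-((N + 2 : ℕ) : ℤ)) ((N + 2 : ℕ) : ℤ),
      G2A P p r s n * (starRingEnd ℂ) (fc P.v2 n)).re := by
    unfold eAA
    rw [Complex.add_re, eF_zero_re, eF_zero_re, mF_v1 hr hp hq hs, mF_v2 hr hp hq hs]
  have k : ∀ (F : Finset ℤ) (g a b : ℤ → ℂ) (c : ℝ),
      (∑ n ∈ F, g n * (starRingEnd ℂ) (a n + 2 * (c : ℂ) * b n)).re =
        (∑ n ∈ F, g n * (starRingEnd ℂ) (a n)).re + 2 * c * (∑ n ∈ F, g n * (starRingEnd ℂ) (b n)).re := by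
    intro F g a b c
    have e : ∑ n ∈ F, g n * (starRingEnd ℂ) (a n + 2 * (c : ℂ) * b n) =
        ∑ n ∈ F, g n * (starRingEnd ℂ) (a n) + ((2 * c : ℝ) : ℂ) * ∑ n ∈ F, g n * (starRingEnd ℂ) (b n) := by
      rw [Finset.mul_sum, ← Finset.sum_add_distrib]
      refine Finset.sum_congr rfl fun n _ => ?_
      rw [map_add, map_mul, map_mul, Complex.conj_ofReal, Complex.conj_ofNat]
      push_cast
      ring
    rw [e, Complex.add_re, Complex.re_ofReal_mul]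
  rw [LA_LZ, h1]
  unfold LZ
  simp only [fc_Z1 hr, fc_Z2 hr]
  rw [k, k]
  ring

/-! ## The form of `Zp_j` for `a0 = 0` -/

theorem hA_zero (a : ℝ) : hA (fun _ => 0) a = 0 := by
  unfold hA
  simp

theorem hA1_zero (a : ℝ) : hA1 (fun _ => 0) a = 0 := by
  unfold hA1
  simp

/-- half of the tangent factor -/
noncomputable def zf (η : ℂ) (lam : ℝ) (u : ℂ) (t : ℝ) : ℂ :=
  (1 - (lam : ℂ)) * u + 1 / 3 * η * ee (2 * t) * u ^ 3 - (starRingEnd ℂ) η * ee (-(2 * t)) * (starRingEnd ℂ) u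

theorem HH_form (h0 : P.a0 = fun _ => 0) (x : ℝ) : ((P.H x : ℂ) + Complex.I * (P.H1 x : ℂ)) =
    1 + 1 / 3 * (P.eta * ee (2 * x)) - (starRingEnd ℂ) (P.eta * ee (2 * x)) := by
  unfold Par.H Par.H1
  rw [h0, hA_zero, hA1_zero]
  unfold hw
  generalize P.eta * ee (2 * x) = E
  simp only [zero_mul, Complex.zero_re, zero_div, add_zero]
  apply Complex.ext
  · simp
    ring
  · simp
    ring

theorem zf_of (η : ℂ) (lam a t : ℝ) :
    2 * ((1 + 1 / 3 * (η * ee (2 * (t + a))) - (starRingEnd ℂ) (η * ee (2 * (t + a)))) * ee a - (lam : ℂ) * ee a) =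
      2 * zf η lam (ee a) t := by
  have e1 : ee (2 * (t + a)) = ee (2 * t) * ee a ^ 2 := by
    rw [sq, ← ee_add, ← ee_add]
    congr 1
    ring
  have e2 : (starRingEnd ℂ) (ee a) * ee a = 1 := by
    rw [← ee_neg, ← ee_add]
    simp [ee_zero]
  have e3 : (starRingEnd ℂ) (ee (2 * t)) = ee (-(2 * t)) := (ee_neg _).symm
  unfold zf
  rw [e1, map_mul, map_mul, map_pow, e3]
  linear_combination (-2 * (starRingEnd ℂ) η * ee (-(2 * t)) * (starRingEnd ℂ) (ee a)) * e2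

theorem Zp1_form (h0 : P.a0 = fun _ => 0) (t : ℝ) : Zp1 P t = 2 * zf P.eta P.lam (P.u1 t) t := by
  unfold Zp1
  rw [HH_form h0]
  exact zf_of P.eta P.lam (P.a1 t) t

theorem Zp2_form (h0 : P.a0 = fun _ => 0) (t : ℝ) : Zp2 P t = 2 * zf P.eta P.lam (P.u2 t) t := by
  unfold Zp2
  rw [HH_form h0]
  exact zf_of P.eta P.lam (P.a2 t) t

/-! ## The linear rows -/

theorem win_sum {g : ℤ → ℂ} {N : ℕ} (hg : Sup N g) {k : ℤ} (h1 : -2 ≤ k) (h2 : k ≤ 2) :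
    ∑ n ∈ Finset.Icc (-((N + 2 : ℕ) : ℤ)) ((N + 2 : ℕ) : ℤ), g (n + k) = ∑ m ∈ Finset.Icc (-(N : ℤ)) N, g m := by
  have a1 : HasSum g (∑ m ∈ Finset.Icc (-(N : ℤ)) N, g m) := hasSum_sum_of_ne_finset_zero hg
  have a2 : HasSum (fun n => g (n + k)) (∑ m ∈ Finset.Icc (-(N : ℤ)) N, g m) := (Equiv.addRight k).hasSum_iff.2 a1
  have a3 : HasSum (fun n => g (n + k)) (∑ n ∈ Finset.Icc (-((N + 2 : ℕ) : ℤ)) ((N + 2 : ℕ) : ℤ), g (n + k)) := by
    refine hasSum_sum_of_ne_finset_zero fun n hn => hg _ ?_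
    intro hc
    apply hn
    rw [Finset.mem_Icc] at hc ⊢
    push_cast at hc ⊢
    omega
  exact a3.unique a2

/-- multiplication by the weight is self-adjoint -/
theorem wm_adj {f : ℤ → ℂ} {N : ℕ} (hf : Sup N f) (η : ℂ) (Y : ℤ → ℂ) :
    ∑ n ∈ Finset.Icc (-((N + 2 : ℕ) : ℤ)) ((N + 2 : ℕ) : ℤ), wm η f n * (starRingEnd ℂ) (Y n) =
      ∑ m ∈ Finset.Icc (-(N : ℤ)) N, f m * (starRingEnd ℂ) (wm η Y m) := by
  have s0 : Sup N (fun m => f m * (starRingEnd ℂ) (Y m)) := fun n hn => by beta_reduce; rw [hf n hn, zero_mul]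
  have s1 : Sup N (fun m => η * f m * (starRingEnd ℂ) (Y (m + 2))) := fun n hn => by beta_reduce; rw [hf n hn]; ring
  have s2 : Sup N (fun m => (starRingEnd ℂ) η * f m * (starRingEnd ℂ) (Y (m - 2))) := fun n hn => by
    beta_reduce
    rw [hf n hn]; ring
  have a0 := win_sum s0 (k := 0) (by norm_num) (by norm_num)
  have a1 := win_sum s1 (k := -2) (by norm_num) (by norm_num)
  have a2 := win_sum s2 (k := 2) (by norm_num) (by norm_num)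
  have e1 : ∑ n ∈ Finset.Icc (-((N + 2 : ℕ) : ℤ)) ((N + 2 : ℕ) : ℤ), wm η f n * (starRingEnd ℂ) (Y n) =
      (∑ n ∈ Finset.Icc (-((N + 2 : ℕ) : ℤ)) ((N + 2 : ℕ) : ℤ), f (n + 0) * (starRingEnd ℂ) (Y (n + 0)))
      + (∑ n ∈ Finset.Icc (-((N + 2 : ℕ) : ℤ)) ((N + 2 : ℕ) : ℤ), η * f (n + -2) * (starRingEnd ℂ) (Y (n + -2 + 2)))
      + (∑ n ∈ Finset.Icc (-((N + 2 : ℕ) : ℤ)) ((N + 2 : ℕ) : ℤ),
        (starRingEnd ℂ) η * f (n + 2) * (starRingEnd ℂ) (Y (n + 2 - 2))) := by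
    rw [← Finset.sum_add_distrib, ← Finset.sum_add_distrib]
    refine Finset.sum_congr rfl fun n _ => ?_
    have k1 : n + -2 + 2 = n := by ring
    have k2 : n + 2 - 2 = n := by ring
    have k3 : n - 2 = n + -2 := by ring
    unfold wm
    rw [k1, k2, k3, add_zero]
    ring
  rw [e1, a0, a1, a2, ← Finset.sum_add_distrib, ← Finset.sum_add_distrib]
  refine Finset.sum_congr rfl fun m _ => ?_
  unfold wm
  rw [map_add, map_add, map_mul, map_mul, Complex.conj_conj]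
  ring

theorem W_wm (P : Par) (n : ℤ) : wc P.w n = wm P.eta (fun m => if m = 0 then 1 else 0) n := by
  have h1 : BM (fun _ : ℝ => (1 : ℂ)) 1 := ⟨measurable_const, fun _ => by simp⟩
  have e : wc (wR P.eta 0 0) n = wm P.eta (fc fun _ => 1) n := by
    rw [← fc_w P.eta h1]
    unfold wc
    congr 1
    funext t
    rw [mul_one]
  have e1 : (fc fun _ : ℝ => (1 : ℂ)) = fun m => if m = 0 then 1 else 0 := by
    funext m
    have h := fc_ee 0 m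
    simp only [Int.cast_zero, zero_mul, ee_zero] at h
    rw [h]
    by_cases hm : m = 0
    · subst hm; simp
    · rw [if_neg hm, if_neg (Ne.symm hm)]
  show wc (wR P.eta 0 0) n = _
  rw [e, e1]

/-- a linear row: three arrays -/
noncomputable def lin (N : ℕ) (p r s As Ap Ar : ℤ → ℂ) : ℝ :=
  (∑ m ∈ Finset.Icc (-(N : ℤ)) N, s m * (starRingEnd ℂ) (As m)).re
  + (∑ m ∈ Finset.Icc (-(N : ℤ)) N, p m * (starRingEnd ℂ) (Ap m)).re
  + (∑ m ∈ Finset.Icc (-(N : ℤ)) N, r m * (starRingEnd ℂ) (Ar m)).re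

/-- the arrays of the rows -/
noncomputable def Rs (Y1 Y2 : ℤ → ℂ) (n : ℤ) : ℂ := Y1 n - Y2 n
noncomputable def Rp (Y1 Y2 : ℤ → ℂ) (n : ℤ) : ℂ := om * Y1 n + om ^ 2 * Y2 n
noncomputable def Rr (Y1 Y2 : ℤ → ℂ) (n : ℤ) : ℂ := (starRingEnd ℂ) (kq 2) * Y1 n + kq 2 * Y2 n
noncomputable def Rc (Y1 Y2 : ℤ → ℂ) (n : ℤ) : ℂ := (starRingEnd ℂ) om * Y1 n + (starRingEnd ℂ) om ^ 2 * Y2 n

theorem lin3 (P : Par) (hp : Sup N p) (hq : Sup N r) (hs : Sup N s) (Y1 Y2 : ℤ → ℂ) :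
    (∑ n ∈ Finset.Icc (-((N + 2 : ℕ) : ℤ)) ((N + 2 : ℕ) : ℤ), G1A P p r s n * (starRingEnd ℂ) (Y1 n)).re
    + (∑ n ∈ Finset.Icc (-((N + 2 : ℕ) : ℤ)) ((N + 2 : ℕ) : ℤ), G2A P p r s n * (starRingEnd ℂ) (Y2 n)).re =
    (wm P.eta (Rc Y1 Y2) 0).re + lin N p r s (wm P.eta (Rs Y1 Y2)) (wm P.eta (Rp Y1 Y2)) (wm P.eta (Rr Y1 Y2)) := by
  have sd : Sup N (fun m : ℤ => if m = 0 then (1 : ℂ) else 0) := by
    intro n hn
    beta_reduce
    rw [if_neg]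
    rintro rfl
    apply hn
    rw [Finset.mem_Icc]
    omega
  have hd : ∑ m ∈ Finset.Icc (-(N : ℤ)) N, (if m = 0 then (1 : ℂ) else 0) * (starRingEnd ℂ) (wm P.eta (Rc Y1 Y2) m) =
      (starRingEnd ℂ) (wm P.eta (Rc Y1 Y2) 0) := by
    rw [Finset.sum_eq_single (0 : ℤ)]
    · rw [if_pos rfl, one_mul]
    · intro m _ hm
      rw [if_neg hm, zero_mul]
    · intro h
      exfalso
      apply h
      rw [Finset.mem_Icc]
      omega
  have b0 := wm_adj sd P.eta (Rc Y1 Y2)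
  have b1 := wm_adj hs P.eta (Rs Y1 Y2)
  have b2 := wm_adj hp P.eta (Rp Y1 Y2)
  have b3 := wm_adj hq P.eta (Rr Y1 Y2)
  rw [hd] at b0
  unfold lin
  rw [← b1, ← b2, ← b3, ← Complex.conj_re (wm P.eta (Rc Y1 Y2) 0), ← b0, ← Complex.add_re, ← Complex.add_re,
    ← Complex.add_re, ← Complex.add_re, ← Finset.sum_add_distrib, ← Finset.sum_add_distrib,
    ← Finset.sum_add_distrib, ← Finset.sum_add_distrib]
  congr 1
  refine Finset.sum_congr rfl fun n _ => ?_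
  rw [← W_wm P n]
  unfold G1A G2A Rc Rs Rp Rr
  simp only [map_add, map_sub, map_mul, map_pow, Complex.conj_conj]
  ring

/-- the quadratic part of the local part -/
noncomputable def LB (P : Par) (N : ℕ) (p r : ℤ → ℂ) : ℝ :=
  (9 - P.cs) * (∑ n ∈ Finset.Icc (-((N + 2 : ℕ) : ℤ)) ((N + 2 : ℕ) : ℤ),
      (wm P.eta p n * (starRingEnd ℂ) (p n) + wm P.eta r n * (starRingEnd ℂ) (r n))).re

/-- **the local part in rows** -/
theorem LZ_rows (P : Par) (hp : Sup N p) (hq : Sup N r) (hs : Sup N s) (Y1 Y2 : ℤ → ℂ) :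
    LZ P N p r s Y1 Y2 = (wm P.eta (Rc Y1 Y2) 0).re
      + lin N p r s (wm P.eta (Rs Y1 Y2)) (wm P.eta (Rp Y1 Y2)) (wm P.eta (Rr Y1 Y2)) + LB P N p r := by
  have := lin3 P hp hq hs Y1 Y2
  unfold LZ LB
  rw [this]

end

end Helper30.SH
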