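import Pool.Agent.Helper30.SH.ZFast
import Pool.Agent.Helper30.SH.ZRow2

/-!
# Project RC, SHARP: the linear rows of the local part in helper54's format

`zfP`: certificate of `zf` from a certificate of the unit function. `rows_sound`: certificates of the functions
`w (z1 - z2)`, `w (om z1 + om² z2)`, `w (conj kq z1 + kq z2)` and `w (conj om z1 + (conj om)² z2)`, where
`z_j = zf eta lam (u_j t) t = Zp_j / 2`, from certificates of `u1, u2` (one Boolean check `okZ`).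
`LA_rows`: the local part of `EP` in these rows. `fc_Z1_half`: the coefficients of `Z1 / 2`, with the alignment part.
-/

open MeasureTheory Set Filter Topology

set_option autoImplicit false

namespace Helper30.SH

open Helper49.LT hiding sg
open Helper49.RC (om)
open Helper95.RC (kq wc bmw Sup)
open Helper95.SH (wm fc_w Z1 Z2 LA eAA Rn Tc_inv G1A G2A)
open Helper49.Sharp (Par)
open Helper41.SH (IA inv)
open Helper87.RC (BM fc_eq fc_sub fc_cmul fc_add)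
open Helper56.RC (fc)
open Helper54.RC.Fast
open Pool.Agent.Helper20.RC (wR)

/-! ## The tangent factor -/

section

variable {b s r : ℕ}

/-- the third power of a unit function -/
def pw3 (b s r M2 M3 : ℕ) (U : PF) : PF := stepU b s r M3 (stepU b s r M2 U U) U

def zfQ (b : ℕ) (A B C : PF) : PF := subP b (addP b A B) C
def okQ (b r : ℕ) (A B C : PF) : Bool := bif oka b r A.z B.z then oka b r (addP b A B).z C.z else false

/-- the tangent factor -/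
def zfP (b s r M2 M3 M : ℕ) (cl ca cc U : PF) : PF :=
  zfQ b (stepG b s r M (Nat.pow 2 s) (Nat.pow 2 s) cl U)
    (stepG b s r M (Nat.pow 2 s) (Nat.pow 2 s) ca (pw3 b s r M2 M3 U))
    (stepG b s r M (Nat.pow 2 s) (Nat.pow 2 s) cc (cjP b U))

def okzf (b s r M2 M3 M : ℕ) (cl ca cc U : PF) : Bool :=
  bif okG b r M2 U U then
  bif okG b r M3 (stepU b s r M2 U U) U then
  bif okG b r M cl U then
  bif okG b r M ca (pw3 b s r M2 M3 U) then
  bif okn b r U.z then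
  bif okG b r M cc (cjP b U) then
    okQ b r (stepG b s r M (Nat.pow 2 s) (Nat.pow 2 s) cl U)
      (stepG b s r M (Nat.pow 2 s) (Nat.pow 2 s) ca (pw3 b s r M2 M3 U))
      (stepG b s r M (Nat.pow 2 s) (Nat.pow 2 s) cc (cjP b U))
  else false else false else false else false else false else false

theorem le_of_one {s : ℕ} {f : ℝ → ℂ} (h : ∀ t, ‖f t‖ ≤ 1) (t : ℝ) :
    (2 ^ s : ℝ) * ‖f t‖ ≤ ((Nat.pow 2 s : ℕ) : ℝ) := by
  have e : ((Nat.pow 2 s : ℕ) : ℝ) = 2 ^ s := by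
    show ((2 ^ s : ℕ) : ℝ) = _
    push_cast; rfl
  rw [e]
  have h0 : (0 : ℝ) < 2 ^ s := by positivity
  nlinarith [h t]

theorem le_of_two {s : ℕ} {f : ℝ → ℂ} (h : ∀ t, ‖f t‖ ≤ 2) (t : ℝ) :
    (2 ^ s : ℝ) * ‖f t‖ ≤ ((Nat.mul 2 (Nat.pow 2 s) : ℕ) : ℝ) := by
  have e : ((Nat.mul 2 (Nat.pow 2 s) : ℕ) : ℝ) = 2 * 2 ^ s := by
    show ((2 * 2 ^ s : ℕ) : ℝ) = _
    push_cast; rfl
  rw [e]
  have h0 : (0 : ℝ) < 2 ^ s := by positivity
  nlinarith [h t]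

theorem zfP_sound (hr : r ≤ b + 1) (hs : s ≤ b) {M2 M3 M : ℕ} {cl ca cc U : PF} {η : ℂ} {lam : ℝ} {u : ℝ → ℂ}
    (hu : ∀ t, ‖u t‖ = 1) (hη : ‖η‖ ≤ 1 / 4) (hl : |1 - lam| ≤ 1)
    (h1 : AP b s cl (fun _ => 1 - (lam : ℂ))) (h2 : AP b s ca (fun t => 1 / 3 * η * ee (2 * t)))
    (h3 : AP b s cc (fun t => (starRingEnd ℂ) η * ee (-(2 * t)))) (h4 : AP b s U u)
    (h : okzf b s r M2 M3 M cl ca cc U = true) :
    AP b s (zfP b s r M2 M3 M cl ca cc U) (fun t => zf η lam (u t) t) := by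
  unfold okzf at h
  simp only [bif_true] at h
  obtain ⟨k1, k2, k3, k4, k5, k6, k7⟩ := h
  unfold okQ at k7
  simp only [bif_true] at k7
  obtain ⟨k7, k8⟩ := k7
  have g1 : AP b s U (fun t => u t ^ 1) := AP_congr h4 fun t => pow_one _
  have g2 := stepU_sound b s r M2 hr hs U U u hu 1 1 g1 g1 k1
  have g3 := stepU_sound b s r M3 hr hs _ U u hu 2 1 g2 g1 k2
  have g4 := stepG_sound b s r M _ _ hr hs cl U _ _ (le_of_one fun t => by
    have : (1 - (lam : ℂ)) = ((1 - lam : ℝ) : ℂ) := by push_cast; rfl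
    rw [this, Complex.norm_real, Real.norm_eq_abs]; exact hl) (le_of_one fun t => (hu t).le) h1 h4 k3
  have g5 := stepG_sound b s r M _ _ hr hs ca _ _ _ (le_of_one fun t => by
    rw [norm_mul, norm_mul, norm_ee, mul_one]
    norm_num
    linarith [norm_nonneg η]) (le_of_one fun t => by rw [norm_pow, hu]; norm_num) h2 g3 k4
  have g6 := cjP_sound hr h4 k5
  have g7 := stepG_sound b s r M _ _ hr hs cc _ _ _ (le_of_one fun t => by
    rw [norm_mul, norm_ee, mul_one, RCLike.norm_conj]; linarith) (le_of_one fun t => by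
    rw [RCLike.norm_conj]; exact (hu t).le) h3 g6 k6
  have g8 := addP_sound hr g4 g5 k7
  have g9 := subP_sound hr g8 g7 k8
  exact AP_congr g9 fun t => rfl

theorem zf_norm {η : ℂ} {lam : ℝ} {u : ℂ} (hu : ‖u‖ = 1) (hη : ‖η‖ ≤ 1 / 4) (hl : |1 - lam| ≤ 1) (t : ℝ) :
    ‖zf η lam u t‖ ≤ 4 / 3 := by
  unfold zf
  refine (norm_sub_le _ _).trans ?_
  refine (add_le_add (norm_add_le _ _) le_rfl).trans ?_
  have : (1 - (lam : ℂ)) = ((1 - lam : ℝ) : ℂ) := by push_cast; rfl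
  rw [norm_mul, norm_mul, norm_mul, norm_mul, norm_mul, norm_mul, norm_ee, norm_ee, norm_pow, RCLike.norm_conj,
    RCLike.norm_conj, hu, this, Complex.norm_real, Real.norm_eq_abs]
  norm_num
  linarith

/-! ## The weight -/

/-- the weight -/
def wP (b s : ℕ) (e1 e2 : ℤ) (D : ℕ) : PF :=
  addP b (addP b (cstP b s 2 2 1 0 1) (cstP b s 2 4 e1 e2 D)) (cstP b s 2 0 e1 (-e2) D)

def okwP (b s r : ℕ) (e1 e2 : ℤ) (D : ℕ) : Bool :=
  bif okc b s 1 0 1 then bif okc b s e1 e2 D then bif okc b s e1 (-e2) D then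
    okQ b r (cstP b s 2 2 1 0 1) (cstP b s 2 4 e1 e2 D) (cstP b s 2 0 e1 (-e2) D)
  else false else false else false

theorem mono4 (t : ℝ) : ee ((((4 : ℕ) : ℝ) - ((2 : ℕ) : ℝ)) * t) = ee (2 * t) := by
  congr 1; push_cast; ring
theorem mono0 (t : ℝ) : ee ((((0 : ℕ) : ℝ) - ((2 : ℕ) : ℝ)) * t) = ee (-(2 * t)) := by
  congr 1; push_cast; ring
theorem mono2 (t : ℝ) : ee ((((2 : ℕ) : ℝ) - ((2 : ℕ) : ℝ)) * t) = 1 := by
  rw [sub_self, zero_mul, ee_zero]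

theorem conj_frac (a a' : ℤ) (D : ℕ) : (starRingEnd ℂ) (((a : ℂ) + Complex.I * a') / D) =
    ((a : ℂ) + Complex.I * ((-a' : ℤ) : ℂ)) / D := by
  rw [map_div₀, map_add, map_mul, Complex.conj_I, Complex.conj_natCast, map_intCast, map_intCast]
  push_cast
  ring

theorem wP_sound (hr : r ≤ b + 1) {P : Par} {e1 e2 : ℤ} {D : ℕ} (he : P.eta = ((e1 : ℂ) + Complex.I * e2) / D)
    (h : okwP b s r e1 e2 D = true) : AP b s (wP b s e1 e2 D) (fun t => (P.w t : ℂ)) := by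
  unfold okwP at h
  simp only [bif_true] at h
  obtain ⟨k1, k2, k3, k4⟩ := h
  unfold okQ at k4
  simp only [bif_true] at k4
  obtain ⟨k4, k5⟩ := k4
  have g1 := cstP_sound (b := b) (s := s) (N := 2) (k := 2) (by norm_num) 1 0 1 k1
  have g2 := cstP_sound (b := b) (s := s) (N := 2) (k := 4) (by norm_num) e1 e2 D k2
  have g3 := cstP_sound (b := b) (s := s) (N := 2) (k := 0) (by norm_num) e1 (-e2) D k3
  have g4 := addP_sound hr g1 g2 k4
  -- the last condition is the same for sums and differences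
  have g5 := addP_sound hr g4 g3 k5
  refine AP_congr g5 fun t => ?_
  have e0 : (P.w t : ℂ) = (wR P.eta 0 0 t : ℂ) := rfl
  rw [e0, Helper95.SH.wR_c, mono4, mono0, mono2]
  have e3 : ee (((2 : ℤ) : ℝ) * t) = ee (2 * t) := by congr 1
  have e4 : ee (((-2 : ℤ) : ℝ) * t) = ee (-(2 * t)) := by congr 1; push_cast; ring
  rw [e3, e4]
  have e5 : (starRingEnd ℂ) P.eta = ((e1 : ℂ) + Complex.I * ((-e2 : ℤ) : ℂ)) / D := by rw [he, conj_frac]
  rw [e5, ← he]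
  push_cast
  ring

end

/-! ## The rows -/

/-- the data -/
structure ZD where
  b : ℕ
  s : ℕ
  r : ℕ
  /-- near `2 ^ s √3/2` -/
  h : ℕ
  /-- windows of the square, the cube, the results -/
  M2 : ℕ
  M3 : ℕ
  M : ℕ
  /-- `eta = (e1 + i e2)/D`, `1 - lam = la/D` -/
  e1 : ℤ
  e2 : ℤ
  la : ℕ
  D : ℕ
  U1 : PF
  U2 : PF

namespace ZD

/-- the constants -/
def cl (d : ZD) : PF := cstP d.b d.s 0 0 (Int.ofNat d.la) 0 d.D
def ca (d : ZD) : PF := cstP d.b d.s 2 4 d.e1 d.e2 (Nat.mul 3 d.D)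
def cc (d : ZD) : PF := cstP d.b d.s 2 0 d.e1 (-d.e2) d.D

def z1 (d : ZD) : PF := zfP d.b d.s d.r d.M2 d.M3 d.M d.cl d.ca d.cc d.U1
def z2 (d : ZD) : PF := zfP d.b d.s d.r d.M2 d.M3 d.M d.cl d.ca d.cc d.U2

def gg (b s r M : ℕ) (p q : PF) : PF := stepG b s r M (Nat.mul 2 (Nat.pow 2 s)) (Nat.mul 2 (Nat.pow 2 s)) p q

/-- `w z_j` -/
def y1 (d : ZD) : PF := gg d.b d.s d.r d.M (wP d.b d.s d.e1 d.e2 d.D) d.z1
def y2 (d : ZD) : PF := gg d.b d.s d.r d.M (wP d.b d.s d.e1 d.e2 d.D) d.z2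

def cb (b s r M : ℕ) (p q y y' : PF) : PF := addP b (gg b s r M p y) (gg b s r M q y')
def okcb (b s r M : ℕ) (p q y y' : PF) : Bool :=
  bif okG b r M p y then bif okG b r M q y' then oka b r (gg b s r M p y).z (gg b s r M q y').z else false else false

/-- the rows -/
def rS (d : ZD) : PF := subP d.b d.y1 d.y2
def rP (d : ZD) : PF := cb d.b d.s d.r d.M (omP d.b d.s d.h) (om2P d.b d.s d.h) d.y1 d.y2
def rR (d : ZD) : PF := cb d.b d.s d.r d.M (kcP d.b d.s d.h) (kqP d.b d.s d.h) d.y1 d.y2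
def rC (d : ZD) : PF := cb d.b d.s d.r d.M (ocP d.b d.s d.h) (oc2P d.b d.s d.h) d.y1 d.y2

def ok3 (d : ZD) (y y' : PF) : Bool :=
  bif oka d.b d.r y.z y'.z then
  bif okcb d.b d.s d.r d.M (omP d.b d.s d.h) (om2P d.b d.s d.h) y y' then
  bif okcb d.b d.s d.r d.M (kcP d.b d.s d.h) (kqP d.b d.s d.h) y y' then
    okcb d.b d.s d.r d.M (ocP d.b d.s d.h) (oc2P d.b d.s d.h) y y'
  else false else false else false

def ok2 (d : ZD) : Bool :=
  bif okzf d.b d.s d.r d.M2 d.M3 d.M d.cl d.ca d.cc d.U1 then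
  bif okzf d.b d.s d.r d.M2 d.M3 d.M d.cl d.ca d.cc d.U2 then
  bif okG d.b d.r d.M (wP d.b d.s d.e1 d.e2 d.D) d.z1 then
  bif okG d.b d.r d.M (wP d.b d.s d.e1 d.e2 d.D) d.z2 then ok3 d d.y1 d.y2
  else false else false else false else false

def ok1 (d : ZD) : Bool :=
  bif Nat.ble d.la d.D then
  bif okc d.b d.s (Int.ofNat d.la) 0 d.D then
  bif okc d.b d.s d.e1 d.e2 (Nat.mul 3 d.D) then
  bif okc d.b d.s d.e1 (-d.e2) d.D then
  bif okwP d.b d.s d.r d.e1 d.e2 d.D then ok2 d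
  else false else false else false else false else false

/-- THE CHECK -/
def ok (d : ZD) : Bool :=
  bif Nat.ble d.r (Nat.succ d.b) then bif okh d.b d.s d.h then ok1 d else false else false

end ZD

/-- the functions of the rows -/
noncomputable def zz1 (P : Par) (t : ℝ) : ℂ := zf P.eta P.lam (P.u1 t) t
noncomputable def zz2 (P : Par) (t : ℝ) : ℂ := zf P.eta P.lam (P.u2 t) t
noncomputable def fS (P : Par) (t : ℝ) : ℂ := (P.w t : ℂ) * zz1 P t - (P.w t : ℂ) * zz2 P t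
noncomputable def fP (P : Par) (t : ℝ) : ℂ := om * ((P.w t : ℂ) * zz1 P t) + om ^ 2 * ((P.w t : ℂ) * zz2 P t)
noncomputable def fR (P : Par) (t : ℝ) : ℂ :=
  (starRingEnd ℂ) (kq 2) * ((P.w t : ℂ) * zz1 P t) + kq 2 * ((P.w t : ℂ) * zz2 P t)
noncomputable def fC (P : Par) (t : ℝ) : ℂ :=
  (starRingEnd ℂ) om * ((P.w t : ℂ) * zz1 P t) + (starRingEnd ℂ) om ^ 2 * ((P.w t : ℂ) * zz2 P t)

theorem w_norm {P : Par} (hr : P.Reg) (t : ℝ) : ‖(P.w t : ℂ)‖ ≤ 3 / 2 := by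
  rw [Complex.norm_real, Real.norm_eq_abs]
  have h2 := Pool.Agent.Helper20.RC.wR_bd P.eta 0 0 t
  have h3 : P.w t = wR P.eta 0 0 t := rfl
  rw [norm_zero, add_zero, add_zero, ← h3] at h2
  have h4 := hr.eta
  rw [abs_le] at h2 ⊢
  constructor <;> linarith [h2.1, h2.2]

theorem norm_kq : ‖kq 2‖ ≤ 2 := by
  have h : ‖kq 2‖ ^ 2 ≤ 2 ^ 2 := by rw [kq_two]; norm_num
  exact abs_le_of_sq_le_sq' h (by norm_num) |>.2

/-- **the certificates of the rows** -/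
theorem rows_sound (d : ZD) {P : Par} (hP : P.Reg) (he : P.eta = ((d.e1 : ℂ) + Complex.I * d.e2) / d.D)
    (hl : 1 - P.lam = (d.la : ℝ) / d.D) (h1 : AP d.b d.s d.U1 P.u1) (h2 : AP d.b d.s d.U2 P.u2)
    (h : d.ok = true) :
    AP d.b d.s d.rS (fS P) ∧ AP d.b d.s d.rP (fP P) ∧ AP d.b d.s d.rR (fR P) ∧ AP d.b d.s d.rC (fC P) := by
  unfold ZD.ok at h
  simp only [bif_true] at h
  obtain ⟨hr, hh, h⟩ := h
  have hr : d.r ≤ d.b + 1 := Nat.le_of_ble_eq_true hr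
  obtain ⟨o1, o2, o3, o4, o5, o6⟩ := consts hh
  obtain ⟨q1, q2, q3, q4⟩ := okh_sound hh
  have hs : d.s ≤ d.b := by omega
  unfold ZD.ok1 at h
  simp only [bif_true] at h
  obtain ⟨l1, c1, c2, c3, c4, h⟩ := h
  have l1 : d.la ≤ d.D := Nat.le_of_ble_eq_true l1
  unfold ZD.ok2 at h
  simp only [bif_true] at h
  obtain ⟨k1, k2, k3, k4, h⟩ := h
  unfold ZD.ok3 ZD.okcb at h
  simp only [bif_true] at h
  obtain ⟨m1, ⟨m2, m3, m4⟩, ⟨m5, m6, m7⟩, ⟨m8, m9, m10⟩⟩ := h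
  have hD : 0 < d.D := by
    unfold okc at c1
    simp only [bif_true] at c1
    exact Nat.le_of_ble_eq_true c1.1
  have hDr : (0 : ℝ) < d.D := by exact_mod_cast hD
  have hlam : |1 - P.lam| ≤ 1 := by
    rw [hl, abs_of_nonneg (by positivity), div_le_one hDr]
    exact_mod_cast l1
  have u1n : ∀ t, ‖P.u1 t‖ = 1 := fun t => norm_ee _
  have u2n : ∀ t, ‖P.u2 t‖ = 1 := fun t => norm_ee _
  -- constants
  have b1 : AP d.b d.s d.cl (fun _ => 1 - (P.lam : ℂ)) := by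
    refine AP_congr (cstP_sound (b := d.b) (s := d.s) (N := 0) (k := 0) (by norm_num) (Int.ofNat d.la) 0 d.D c1)
      fun t => ?_
    have e1 : ((((0 : ℕ) : ℝ)) - ((0 : ℕ) : ℝ)) * t = 0 := by simp
    rw [e1, ee_zero, mul_one]
    have e2 : (1 - (P.lam : ℂ)) = ((1 - P.lam : ℝ) : ℂ) := by push_cast; rfl
    rw [e2, hl]
    push_cast
    simp
  have b2 : AP d.b d.s d.ca (fun t => 1 / 3 * P.eta * ee (2 * t)) := by
    refine AP_congr (cstP_sound (b := d.b) (s := d.s) (N := 2) (k := 4) (by norm_num) d.e1 d.e2 (Nat.mul 3 d.D) c2)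
      fun t => ?_
    rw [mono4, he]
    have e2 : ((Nat.mul 3 d.D : ℕ) : ℂ) = 3 * (d.D : ℂ) := by
      show ((3 * d.D : ℕ) : ℂ) = _
      push_cast; rfl
    rw [e2]
    have : (d.D : ℂ) ≠ 0 := by exact_mod_cast hD.ne'
    field_simp
  have b3 : AP d.b d.s d.cc (fun t => (starRingEnd ℂ) P.eta * ee (-(2 * t))) := by
    refine AP_congr (cstP_sound (b := d.b) (s := d.s) (N := 2) (k := 0) (by norm_num) d.e1 (-d.e2) d.D c3)
      fun t => ?_
    rw [mono0, he, conj_frac]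
  have z1 : AP d.b d.s d.z1 (zz1 P) := zfP_sound hr hs u1n hP.eta hlam b1 b2 b3 h1 k1
  have z2 : AP d.b d.s d.z2 (zz2 P) := zfP_sound hr hs u2n hP.eta hlam b1 b2 b3 h2 k2
  have w0 := wP_sound (s := d.s) hr he c4
  have nw : ∀ t, ‖(P.w t : ℂ)‖ ≤ 2 := fun t => (w_norm hP t).trans (by norm_num)
  have n1 : ∀ t, ‖zz1 P t‖ ≤ 2 := fun t => (zf_norm (u1n t) hP.eta hlam t).trans (by norm_num)
  have n2 : ∀ t, ‖zz2 P t‖ ≤ 2 := fun t => (zf_norm (u2n t) hP.eta hlam t).trans (by norm_num)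
  have y1 : AP d.b d.s d.y1 (fun t => (P.w t : ℂ) * zz1 P t) :=
    stepG_sound d.b d.s d.r d.M _ _ hr hs _ _ _ _ (le_of_two nw) (le_of_two n1) w0 z1 k3
  have y2 : AP d.b d.s d.y2 (fun t => (P.w t : ℂ) * zz2 P t) :=
    stepG_sound d.b d.s d.r d.M _ _ hr hs _ _ _ _ (le_of_two nw) (le_of_two n2) w0 z2 k4
  have p1 : ∀ t, ‖(P.w t : ℂ) * zz1 P t‖ ≤ 2 := fun t => by
    rw [norm_mul]
    calc ‖(P.w t : ℂ)‖ * ‖zz1 P t‖ ≤ 3 / 2 * (4 / 3) :=
          mul_le_mul (w_norm hP t) (zf_norm (u1n t) hP.eta hlam t) (norm_nonneg _) (by norm_num)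
      _ = 2 := by norm_num
  have p2 : ∀ t, ‖(P.w t : ℂ) * zz2 P t‖ ≤ 2 := fun t => by
    rw [norm_mul]
    calc ‖(P.w t : ℂ)‖ * ‖zz2 P t‖ ≤ 3 / 2 * (4 / 3) :=
          mul_le_mul (w_norm hP t) (zf_norm (u2n t) hP.eta hlam t) (norm_nonneg _) (by norm_num)
      _ = 2 := by norm_num
  have cbs : ∀ (p q : PF) (x y : ℂ), ‖x‖ ≤ 2 → ‖y‖ ≤ 2 → AP d.b d.s p (fun _ => x) → AP d.b d.s q (fun _ => y) →
      okG d.b d.r d.M p d.y1 = true → okG d.b d.r d.M q d.y2 = true →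
      oka d.b d.r (ZD.gg d.b d.s d.r d.M p d.y1).z (ZD.gg d.b d.s d.r d.M q d.y2).z = true →
      AP d.b d.s (ZD.cb d.b d.s d.r d.M p q d.y1 d.y2)
        (fun t => x * ((P.w t : ℂ) * zz1 P t) + y * ((P.w t : ℂ) * zz2 P t)) := by
    intro p q x y hx hy hp hq i1 i2 i3
    have j1 := stepG_sound d.b d.s d.r d.M _ _ hr hs p d.y1 _ _ (le_of_two (f := fun _ => x) fun _ => hx)
      (le_of_two p1) hp y1 i1
    have j2 := stepG_sound d.b d.s d.r d.M _ _ hr hs q d.y2 _ _ (le_of_two (f := fun _ => y) fun _ => hy)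
      (le_of_two p2) hq y2 i2
    exact addP_sound hr j1 j2 i3
  have no : ‖om‖ ≤ 2 := by rw [norm_om]; norm_num
  have no2 : ‖om ^ 2‖ ≤ 2 := by rw [norm_pow, norm_om]; norm_num
  have nc : ‖(starRingEnd ℂ) om‖ ≤ 2 := by rw [RCLike.norm_conj, norm_om]; norm_num
  have nc2 : ‖(starRingEnd ℂ) om ^ 2‖ ≤ 2 := by rw [norm_pow, RCLike.norm_conj, norm_om]; norm_num
  have nk : ‖(starRingEnd ℂ) (kq 2)‖ ≤ 2 := by rw [RCLike.norm_conj]; exact norm_kq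
  exact ⟨subP_sound hr y1 y2 m1, cbs _ _ _ _ no no2 o1 o2 m2 m3 m4, cbs _ _ _ _ nk norm_kq o6 o5 m5 m6 m7,
    cbs _ _ _ _ nc nc2 o3 o4 m8 m9 m10⟩

/-! ## The coefficients of the rows -/

section

variable {P : Par} {p r s : ℤ → ℂ} {N : ℕ}

theorem zz1_bm (hr : P.Reg) (h0 : P.a0 = fun _ => 0) : ∃ C, BM (zz1 P) C := by
  obtain ⟨C, h⟩ := Zp1_bm hr
  have e : zz1 P = fun t => (1 / 2 : ℂ) * Zp1 P t := by
    funext t
    rw [Zp1_form h0]
    unfold zz1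
    ring
  rw [e]
  exact ⟨_, h.cmul _⟩

theorem zz2_bm (hr : P.Reg) (h0 : P.a0 = fun _ => 0) : ∃ C, BM (zz2 P) C := by
  obtain ⟨C, h⟩ := Zp2_bm hr
  have e : zz2 P = fun t => (1 / 2 : ℂ) * Zp2 P t := by
    funext t
    rw [Zp2_form h0]
    unfold zz2
    ring
  rw [e]
  exact ⟨_, h.cmul _⟩

theorem fc_Zp1 (h0 : P.a0 = fun _ => 0) (n : ℤ) : fc (Zp1 P) n = 2 * fc (zz1 P) n := by
  have e : Zp1 P = fun t => 2 * zz1 P t := funext fun t => Zp1_form h0 t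
  rw [e, fc_cmul]

theorem fc_Zp2 (h0 : P.a0 = fun _ => 0) (n : ℤ) : fc (Zp2 P) n = 2 * fc (zz2 P) n := by
  have e : Zp2 P = fun t => 2 * zz2 P t := funext fun t => Zp2_form h0 t
  rw [e, fc_cmul]

theorem wz_bm {f : ℝ → ℂ} {C : ℝ} (hr : P.Reg) (hf : BM f C) : ∃ D, BM (fun t => (P.w t : ℂ) * f t) D := by
  obtain ⟨E, h⟩ := bmw hr.wgt
  exact ⟨_, h.mul hf⟩

theorem fc_wz {f : ℝ → ℂ} {C : ℝ} (hf : BM f C) (n : ℤ) :
    fc (fun t => (P.w t : ℂ) * f t) n = wm P.eta (fc f) n := fc_w P.eta hf n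

theorem comb_bm (hr : P.Reg) (h0 : P.a0 = fun _ => 0) (x y : ℂ) :
    ∃ C, BM (fun t => x * ((P.w t : ℂ) * zz1 P t) + y * ((P.w t : ℂ) * zz2 P t)) C := by
  obtain ⟨C1, h1⟩ := zz1_bm hr h0
  obtain ⟨C2, h2⟩ := zz2_bm hr h0
  obtain ⟨D1, k1⟩ := wz_bm hr h1
  obtain ⟨D2, k2⟩ := wz_bm hr h2
  exact ⟨_, (k1.cmul x).add (k2.cmul y)⟩

theorem fc_comb (hr : P.Reg) (h0 : P.a0 = fun _ => 0) (x y : ℂ) (n : ℤ) :
    fc (fun t => x * ((P.w t : ℂ) * zz1 P t) + y * ((P.w t : ℂ) * zz2 P t)) n =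
      wm P.eta (fun m => x * fc (zz1 P) m + y * fc (zz2 P) m) n := by
  obtain ⟨C1, h1⟩ := zz1_bm hr h0
  obtain ⟨C2, h2⟩ := zz2_bm hr h0
  obtain ⟨D1, k1⟩ := wz_bm hr h1
  obtain ⟨D2, k2⟩ := wz_bm hr h2
  rw [fc_add (k1.cmul x) (k2.cmul y), fc_cmul, fc_cmul, fc_wz h1, fc_wz h2]
  unfold wm
  ring

theorem fS_bm (hr : P.Reg) (h0 : P.a0 = fun _ => 0) : ∃ C, BM (fS P) C := by
  obtain ⟨C, h⟩ := comb_bm hr h0 1 (-1)
  have e : fS P = fun t => 1 * ((P.w t : ℂ) * zz1 P t) + -1 * ((P.w t : ℂ) * zz2 P t) := by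
    funext t; unfold fS; ring
  rw [e]
  exact ⟨C, h⟩
theorem fP_bm (hr : P.Reg) (h0 : P.a0 = fun _ => 0) : ∃ C, BM (fP P) C := comb_bm hr h0 _ _
theorem fR_bm (hr : P.Reg) (h0 : P.a0 = fun _ => 0) : ∃ C, BM (fR P) C := comb_bm hr h0 _ _
theorem fC_bm (hr : P.Reg) (h0 : P.a0 = fun _ => 0) : ∃ C, BM (fC P) C := comb_bm hr h0 _ _

theorem fc_fS (hr : P.Reg) (h0 : P.a0 = fun _ => 0) (n : ℤ) :
    fc (fS P) n = wm P.eta (Rs (fc (zz1 P)) (fc (zz2 P))) n := by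
  have e : fS P = fun t => 1 * ((P.w t : ℂ) * zz1 P t) + -1 * ((P.w t : ℂ) * zz2 P t) := by
    funext t; unfold fS; ring
  rw [e, fc_comb hr h0]
  unfold wm Rs
  ring
theorem fc_fP (hr : P.Reg) (h0 : P.a0 = fun _ => 0) (n : ℤ) :
    fc (fP P) n = wm P.eta (Rp (fc (zz1 P)) (fc (zz2 P))) n := fc_comb hr h0 _ _ n
theorem fc_fR (hr : P.Reg) (h0 : P.a0 = fun _ => 0) (n : ℤ) :
    fc (fR P) n = wm P.eta (Rr (fc (zz1 P)) (fc (zz2 P))) n := fc_comb hr h0 _ _ n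
theorem fc_fC (hr : P.Reg) (h0 : P.a0 = fun _ => 0) (n : ℤ) :
    fc (fC P) n = wm P.eta (Rc (fc (zz1 P)) (fc (zz2 P))) n := fc_comb hr h0 _ _ n

/-- the linear functional of the local part (tangent part), affine in the arrays -/
noncomputable def ZL (P : Par) (N : ℕ) (p r s : ℤ → ℂ) : ℝ :=
  (fc (fC P) 0).re + lin N p r s (fc (fS P)) (fc (fP P)) (fc (fR P))

/-- **THE LOCAL PART OF `EP`** -/
theorem LA_rows (hr : P.Reg) (h0 : P.a0 = fun _ => 0) (hp : Sup N p) (hq : Sup N r) (hs : Sup N s) :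
    LA P N p r s = 2 * ZL P N p r s + LB P N p r + 2 * P.lam * (eAA P N p r s 0).re := by
  rw [LA_split hr hp hq hs, LZ_rows P hp hq hs]
  have e : (wm P.eta (Rc (fc (Zp1 P)) (fc (Zp2 P))) 0).re + lin N p r s (wm P.eta (Rs (fc (Zp1 P)) (fc (Zp2 P))))
      (wm P.eta (Rp (fc (Zp1 P)) (fc (Zp2 P)))) (wm P.eta (Rr (fc (Zp1 P)) (fc (Zp2 P)))) = 2 * ZL P N p r s := by
    have k1 : ∀ n, wm P.eta (Rs (fc (Zp1 P)) (fc (Zp2 P))) n = 2 * fc (fS P) n := fun n => by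
      rw [fc_fS hr h0]; unfold wm Rs; simp only [fc_Zp1 h0, fc_Zp2 h0]; ring
    have k2 : ∀ n, wm P.eta (Rp (fc (Zp1 P)) (fc (Zp2 P))) n = 2 * fc (fP P) n := fun n => by
      rw [fc_fP hr h0]; unfold wm Rp; simp only [fc_Zp1 h0, fc_Zp2 h0]; ring
    have k3 : ∀ n, wm P.eta (Rr (fc (Zp1 P)) (fc (Zp2 P))) n = 2 * fc (fR P) n := fun n => by
      rw [fc_fR hr h0]; unfold wm Rr; simp only [fc_Zp1 h0, fc_Zp2 h0]; ring
    have k4 : wm P.eta (Rc (fc (Zp1 P)) (fc (Zp2 P))) 0 = 2 * fc (fC P) 0 := by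
      rw [fc_fC hr h0]; unfold wm Rc; simp only [fc_Zp1 h0, fc_Zp2 h0]; ring
    have k5 : ∀ (f A : ℤ → ℂ), (∑ m ∈ Finset.Icc (-(N : ℤ)) N, f m * (starRingEnd ℂ) (2 * A m)).re =
        2 * (∑ m ∈ Finset.Icc (-(N : ℤ)) N, f m * (starRingEnd ℂ) (A m)).re := by
      intro f A
      have e : ∑ m ∈ Finset.Icc (-(N : ℤ)) N, f m * (starRingEnd ℂ) (2 * A m) =
          ((2 : ℝ) : ℂ) * ∑ m ∈ Finset.Icc (-(N : ℤ)) N, f m * (starRingEnd ℂ) (A m) := by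
        rw [Finset.mul_sum]
        refine Finset.sum_congr rfl fun m _ => ?_
        rw [map_mul, Complex.conj_ofNat]
        push_cast
        ring
      rw [e, Complex.re_ofReal_mul]
    unfold lin ZL
    simp only [k1, k2, k3]
    rw [k4, k5, k5, k5]
    unfold lin
    have : (2 * fc (fC P) 0).re = 2 * (fc (fC P) 0).re := by
      rw [show (2 : ℂ) = ((2 : ℝ) : ℂ) by norm_num, Complex.re_ofReal_mul]
    rw [this]
    ring
  rw [e]

/-- the coefficients of `Z1 / 2`: the tangent part and the alignment part -/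
theorem fc_Z1_half (hr : P.Reg) (h0 : P.a0 = fun _ => 0) {T T' : ℝ → ℝ} (h : IA T T') (e : P.ph1 = inv T) (n : ℤ) :
    1 / 2 * fc (Z1 P) n = fc (zz1 P) n + (P.lam : ℂ) *
      (starRingEnd ℂ) (ee (-(((n : ℝ) + 1) * (Real.pi / 3))) * Rn T T' (n + 1) 1) := by
  have h1 := Tc_inv h one_ne_zero (n + 1)
  rw [Int.cast_one, one_mul] at h1
  rw [fc_Z1 hr, fc_Zp1 h0, fc_v1 hr, e, ← h1, ee_neg, ← map_mul, Complex.conj_conj]
  ring

theorem fc_Z2_half (hr : P.Reg) (h0 : P.a0 = fun _ => 0) {T T' : ℝ → ℝ} (h : IA T T') (e : P.ph2 = inv T) (n : ℤ) :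
    1 / 2 * fc (Z2 P) n = fc (zz2 P) n + (P.lam : ℂ) *
      (starRingEnd ℂ) (ee (-(((n : ℝ) + 1) * (2 * Real.pi / 3))) * Rn T T' (n + 1) 1) := by
  have h1 := Tc_inv h one_ne_zero (n + 1)
  rw [Int.cast_one, one_mul] at h1
  rw [fc_Z2 hr, fc_Zp2 h0, fc_v2 hr, e, ← h1, ee_neg, ← map_mul, Complex.conj_conj]
  ring

end

end Helper30.SH
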