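import Pool.Agent.Helper76.SH.Defs

/-!
# MP_506470_co, modules E and H: back and forth
-/

namespace SetHom

/-- General back-and-forth lemma. -/
theorem back_forth {X Y : Type*} [Countable X] [Countable Y] (P : Set (Finset (X × Y)))
    (p0 : Finset (X × Y)) (hp0 : p0 ∈ P)
    (hinj : ∀ p ∈ P, ∀ a ∈ p, ∀ b ∈ p, (a.1 = b.1 ↔ a.2 = b.2))
    (hx : ∀ p ∈ P, ∀ x, ∃ q ∈ P, p ⊆ q ∧ ∃ y, (x, y) ∈ q)
    (hy : ∀ p ∈ P, ∀ y, ∃ q ∈ P, p ⊆ q ∧ ∃ x, (x, y) ∈ q) :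
    ∃ f : X ≃ Y, (∀ a ∈ p0, f a.1 = a.2) ∧
      ∀ x x', ∃ q ∈ P, (x, f x) ∈ q ∧ (x', f x') ∈ q := by
  classical
  let _ : Encodable X := Encodable.ofCountable X
  let _ : Encodable Y := Encodable.ofCountable Y
  let D : X ⊕ Y → Order.Cofinal {p // p ∈ P} := fun i => match i with
    | Sum.inl x => ⟨{p | ∃ y, (x, y) ∈ p.1}, fun p => by
        obtain ⟨q, hq, hpq, y, hy'⟩ := hx p.1 p.2 x
        exact ⟨⟨q, hq⟩, ⟨y, hy'⟩, hpq⟩⟩
    | Sum.inr y => ⟨{p | ∃ x, (x, y) ∈ p.1}, fun p => by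
        obtain ⟨q, hq, hpq, x, hx'⟩ := hy p.1 p.2 y
        exact ⟨⟨q, hq⟩, ⟨x, hx'⟩, hpq⟩⟩
  let I := Order.idealOfCofinals (⟨p0, hp0⟩ : {p // p ∈ P}) D
  have hdir : ∀ a ∈ I, ∀ b ∈ I, ∃ c : {p // p ∈ P}, a ≤ c ∧ b ≤ c := fun a ha b hb => by
    obtain ⟨c, _, h1, h2⟩ := I.directed a ha b hb
    exact ⟨c, h1, h2⟩
  have h1 : ∀ x, ∃ y, ∃ p ∈ I, (x, y) ∈ p.1 := fun x => by
    obtain ⟨p, ⟨y, h⟩, hp⟩ := Order.cofinal_meets_idealOfCofinals (⟨p0, hp0⟩ : {p // p ∈ P}) D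
      (Sum.inl x)
    exact ⟨y, p, hp, h⟩
  have h2 : ∀ y, ∃ x, ∃ p ∈ I, (x, y) ∈ p.1 := fun y => by
    obtain ⟨p, ⟨x, h⟩, hp⟩ := Order.cofinal_meets_idealOfCofinals (⟨p0, hp0⟩ : {p // p ∈ P}) D
      (Sum.inr y)
    exact ⟨x, p, hp, h⟩
  choose f pf hpf hf using h1
  choose g pg hpg hg using h2
  have key : ∀ x y x' y', (∃ p ∈ I, (x, y) ∈ p.1) → (∃ p ∈ I, (x', y') ∈ p.1) →
      ∃ c ∈ P, (x, y) ∈ c ∧ (x', y') ∈ c := by
    rintro x y x' y' ⟨p, hp, h⟩ ⟨q, hq, h'⟩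
    obtain ⟨c, hc1, hc2⟩ := hdir p hp q hq
    exact ⟨c.1, c.2, hc1 h, hc2 h'⟩
  have keyinj : ∀ x y x' y', (∃ p ∈ I, (x, y) ∈ p.1) → (∃ p ∈ I, (x', y') ∈ p.1) →
      (x = x' ↔ y = y') := by
    intro x y x' y' h h'
    obtain ⟨c, hc, h1, h2⟩ := key x y x' y' h h'
    exact hinj c hc _ h1 _ h2
  refine ⟨⟨f, g, fun x => ?_, fun y => ?_⟩, ?_, ?_⟩
  · exact (keyinj _ _ _ _ ⟨_, hpg (f x), hg (f x)⟩ ⟨_, hpf x, hf x⟩).2 rfl
  · exact (keyinj _ _ _ _ ⟨_, hpf (g y), hf (g y)⟩ ⟨_, hpg y, hg y⟩).1 rfl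
  · intro a ha
    exact (keyinj a.1 (f a.1) a.1 a.2 ⟨_, hpf _, hf _⟩
      ⟨⟨p0, hp0⟩, Order.mem_idealOfCofinals _ _, ha⟩).1 rfl
  · intro x x'
    obtain ⟨c, hc, h1, h2⟩ := key x (f x) x' (f x') ⟨_, hpf x, hf x⟩ ⟨_, hpf x', hf x'⟩
    exact ⟨c, hc, h1, h2⟩

/-! Module E -/

/-- In a coloured order with all colours dense and unbounded we can find an element of a given
colour between two finite sets. -/
theorem Dense3.exists_between {Y : Type*} [LinearOrder Y] [Nonempty Y] {d : Y → Fin 3}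
    (hd : Dense3 d) (A B : Finset Y) (h : ∀ a ∈ A, ∀ b ∈ B, a < b) (i : Fin 3) :
    ∃ z, (∀ a ∈ A, a < z) ∧ (∀ b ∈ B, z < b) ∧ d z = i := by
  classical
  rcases A.eq_empty_or_nonempty with rfl | hA
  · rcases B.eq_empty_or_nonempty with rfl | hB
    · obtain ⟨y⟩ := ‹Nonempty Y›
      obtain ⟨z, _, hz⟩ := hd.above y i
      exact ⟨z, by simp, by simp, hz⟩
    · obtain ⟨z, hz1, hz⟩ := hd.below (B.min' hB) i
      exact ⟨z, by simp, fun b hb => lt_of_lt_of_le hz1 (B.min'_le b hb), hz⟩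
  · rcases B.eq_empty_or_nonempty with rfl | hB
    · obtain ⟨z, hz1, hz⟩ := hd.above (A.max' hA) i
      exact ⟨z, fun a ha => lt_of_le_of_lt (A.le_max' a ha) hz1, by simp, hz⟩
    · obtain ⟨z, hz1, hz2, hz⟩ := hd.btw (A.max' hA) (B.min' hB)
        (h _ (A.max'_mem hA) _ (B.min'_mem hB)) i
      exact ⟨z, fun a ha => lt_of_le_of_lt (A.le_max' a ha) hz1,
        fun b hb => lt_of_lt_of_le hz2 (B.min'_le b hb), hz⟩

/-- Finite partial isomorphisms of coloured orders. -/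
def CPart {X Y : Type*} [LinearOrder X] [LinearOrder Y] (c : X → Fin 3) (d : Y → Fin 3)
    (p : Finset (X × Y)) : Prop :=
  (∀ a ∈ p, ∀ b ∈ p, (a.1 < b.1 ↔ a.2 < b.2)) ∧ ∀ a ∈ p, d a.2 = c a.1

theorem CPart.inj {X Y : Type*} [LinearOrder X] [LinearOrder Y] {c : X → Fin 3} {d : Y → Fin 3}
    {p : Finset (X × Y)} (h : CPart c d p) : ∀ a ∈ p, ∀ b ∈ p, (a.1 = b.1 ↔ a.2 = b.2) := by
  intro a ha b hb
  have h1 := h.1 a ha b hb
  have h2 := h.1 b hb a ha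
  constructor
  · intro e
    rcases lt_trichotomy a.2 b.2 with h3 | h3 | h3
    · exact absurd (h1.2 h3) (by rw [e]; exact lt_irrefl _)
    · exact h3
    · exact absurd (h2.2 h3) (by rw [e]; exact lt_irrefl _)
  · intro e
    rcases lt_trichotomy a.1 b.1 with h3 | h3 | h3
    · exact absurd (h1.1 h3) (by rw [e]; exact lt_irrefl _)
    · exact h3
    · exact absurd (h2.1 h3) (by rw [e]; exact lt_irrefl _)

theorem CPart.swap {X Y : Type*} [LinearOrder X] [LinearOrder Y] {c : X → Fin 3} {d : Y → Fin 3}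
    [DecidableEq (Y × X)] {p : Finset (X × Y)} (h : CPart c d p) :
    CPart d c (p.image Prod.swap) := by
  constructor
  · intro a ha b hb
    obtain ⟨a', ha', rfl⟩ := Finset.mem_image.1 ha
    obtain ⟨b', hb', rfl⟩ := Finset.mem_image.1 hb
    exact (h.1 a' ha' b' hb').symm
  · intro a ha
    obtain ⟨a', ha', rfl⟩ := Finset.mem_image.1 ha
    exact (h.2 a' ha').symm

theorem CPart.extend {X Y : Type*} [LinearOrder X] [LinearOrder Y] [Nonempty Y] {c : X → Fin 3}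
    {d : Y → Fin 3} (hd : Dense3 d) {p : Finset (X × Y)} (h : CPart c d p) (x : X) :
    ∃ q, CPart c d q ∧ p ⊆ q ∧ ∃ y, (x, y) ∈ q := by
  classical
  by_cases hx : ∃ y, (x, y) ∈ p
  · exact ⟨p, h, Finset.Subset.refl _, hx⟩
  have hne : ∀ a ∈ p, a.1 ≠ x := fun a ha e => hx ⟨a.2, by rw [← e]; exact ha⟩
  obtain ⟨z, hz1, hz2, hz3⟩ := hd.exists_between ((p.filter (fun a => a.1 < x)).image Prod.snd)
    ((p.filter (fun a => x < a.1)).image Prod.snd) (by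
      intro u hu v hv
      obtain ⟨a, ha, rfl⟩ := Finset.mem_image.1 hu
      obtain ⟨b, hb, rfl⟩ := Finset.mem_image.1 hv
      obtain ⟨ha1, ha2⟩ := Finset.mem_filter.1 ha
      obtain ⟨hb1, hb2⟩ := Finset.mem_filter.1 hb
      exact (h.1 a ha1 b hb1).1 (ha2.trans hb2)) (c x)
  have hlt : ∀ a ∈ p, (a.1 < x ↔ a.2 < z) := by
    intro a ha
    constructor
    · intro h'
      exact hz1 _ (Finset.mem_image.2 ⟨a, Finset.mem_filter.2 ⟨ha, h'⟩, rfl⟩)
    · intro h'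
      rcases lt_trichotomy a.1 x with h3 | h3 | h3
      · exact h3
      · exact absurd h3 (hne a ha)
      · exact absurd (hz2 _ (Finset.mem_image.2 ⟨a, Finset.mem_filter.2 ⟨ha, h3⟩, rfl⟩))
          (not_lt.2 h'.le)
  have hgt : ∀ a ∈ p, (x < a.1 ↔ z < a.2) := by
    intro a ha
    constructor
    · intro h'
      exact hz2 _ (Finset.mem_image.2 ⟨a, Finset.mem_filter.2 ⟨ha, h'⟩, rfl⟩)
    · intro h'
      rcases lt_trichotomy a.1 x with h3 | h3 | h3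
      · exact absurd (hz1 _ (Finset.mem_image.2 ⟨a, Finset.mem_filter.2 ⟨ha, h3⟩, rfl⟩))
          (not_lt.2 h'.le)
      · exact absurd h3 (hne a ha)
      · exact h3
  refine ⟨insert (x, z) p, ⟨?_, ?_⟩, Finset.subset_insert _ _, z, Finset.mem_insert_self _ _⟩
  · intro a ha b hb
    rcases Finset.mem_insert.1 ha with rfl | ha'
    · rcases Finset.mem_insert.1 hb with rfl | hb'
      · simp
      · exact hgt b hb'
    · rcases Finset.mem_insert.1 hb with rfl | hb'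
      · exact hlt a ha'
      · exact h.1 a ha' b hb'
  · intro a ha
    rcases Finset.mem_insert.1 ha with rfl | ha'
    · exact hz3
    · exact h.2 a ha'

theorem coloured_cantor {X Y : Type*} [LinearOrder X] [LinearOrder Y] [Countable X] [Countable Y]
    [Nonempty X] [Nonempty Y] (c : X → Fin 3) (d : Y → Fin 3) (hc : Dense3 c) (hd : Dense3 d) :
    ∃ f : X ≃o Y, ∀ x, d (f x) = c x := by
  classical
  obtain ⟨f, -, hf⟩ := back_forth {p : Finset (X × Y) | CPart c d p} ∅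
    ⟨by simp, by simp⟩ (fun p hp => CPart.inj hp) (fun p hp x => CPart.extend hd hp x)
    (fun p hp y => by
      obtain ⟨q, hq, hpq, x, hx⟩ := CPart.extend hc (CPart.swap hp) y
      refine ⟨q.image Prod.swap, CPart.swap hq, ?_, x, Finset.mem_image.2 ⟨_, hx, rfl⟩⟩
      intro a ha
      exact Finset.mem_image.2 ⟨a.swap, hpq (Finset.mem_image.2 ⟨a, ha, rfl⟩), by simp⟩)
  refine ⟨⟨f, ?_⟩, fun x => ?_⟩
  · intro x x'
    obtain ⟨q, hq, h1, h2⟩ := hf x' x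
    have := hq.1 _ h1 _ h2
    simp only at this
    rw [← not_lt, ← not_lt, this]
  · obtain ⟨q, hq, h1, h2⟩ := hf x x
    exact hq.2 _ h1

/-! Module H -/

/-- Finite partial isomorphisms of graphs, as sets of pairs. -/
def GPart {V : Type*} (G : SimpleGraph V) (p : Finset (V × V)) : Prop :=
  ∀ a ∈ p, ∀ b ∈ p, (a.1 = b.1 ↔ a.2 = b.2) ∧ (G.Adj a.1 b.1 ↔ G.Adj a.2 b.2)

theorem GPart.swap {V : Type*} {G : SimpleGraph V} [DecidableEq (V × V)] {p : Finset (V × V)}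
    (h : GPart G p) : GPart G (p.image Prod.swap) := by
  intro a ha b hb
  obtain ⟨a', ha', rfl⟩ := Finset.mem_image.1 ha
  obtain ⟨b', hb', rfl⟩ := Finset.mem_image.1 hb
  exact ⟨(h a' ha' b' hb').1.symm, (h a' ha' b' hb').2.symm⟩

theorem GPart.extend {V : Type*} {G : SimpleGraph V} (hG : OPE G) {p : Finset (V × V)}
    (h : GPart G p) (x : V) : ∃ q, GPart G q ∧ p ⊆ q ∧ ∃ y, (x, y) ∈ q := by
  classical
  by_cases hx : ∃ y, (x, y) ∈ p
  · exact ⟨p, h, Finset.Subset.refl _, hx⟩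
  let U : Finset V := p.image Prod.fst
  have hU : ∀ u ∈ U, ∃ v, (u, v) ∈ p := fun u hu => by
    obtain ⟨a, ha, rfl⟩ := Finset.mem_image.1 hu
    exact ⟨a.2, ha⟩
  let f : V → V := fun u => if hu : ∃ v, (u, v) ∈ p then hu.choose else u
  have hf : ∀ u v, (u, v) ∈ p → f u = v := fun u v huv => by
    have hu : ∃ v, (u, v) ∈ p := ⟨v, huv⟩
    have h1 : f u = hu.choose := dif_pos hu
    rw [h1]
    exact (h _ hu.choose_spec _ huv).1.1 rfl
  obtain ⟨b, hb1, hb2⟩ := hG U f (by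
      intro u hu v hv e
      obtain ⟨u', hu'⟩ := hU u hu
      obtain ⟨v', hv'⟩ := hU v hv
      rw [hf u u' hu', hf v v' hv'] at e
      exact (h _ hu' _ hv').1.2 e) (by
      intro u hu v hv
      obtain ⟨u', hu'⟩ := hU u hu
      obtain ⟨v', hv'⟩ := hU v hv
      rw [hf u u' hu', hf v v' hv']
      exact (h _ hu' _ hv').2.symm) x (fun hxU => hx (hU x hxU))
  have h1 : ∀ a ∈ p, x ≠ a.1 := fun a ha e => hx ⟨a.2, by rw [e]; exact ha⟩
  have h2 : ∀ a ∈ p, b ≠ a.2 := fun a ha e => by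
    have := hb1 a.1 (Finset.mem_image.2 ⟨a, ha, rfl⟩)
    rw [hf a.1 a.2 ha] at this
    exact this e.symm
  have h3 : ∀ a ∈ p, (G.Adj x a.1 ↔ G.Adj b a.2) := fun a ha => by
    have := hb2 a.1 (Finset.mem_image.2 ⟨a, ha, rfl⟩)
    rw [hf a.1 a.2 ha] at this
    exact this.symm
  refine ⟨insert (x, b) p, ?_, Finset.subset_insert _ _, b, Finset.mem_insert_self _ _⟩
  intro a ha c hc
  rcases Finset.mem_insert.1 ha with rfl | ha'
  · rcases Finset.mem_insert.1 hc with rfl | hc'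
    · simp
    · exact ⟨⟨fun e => absurd e (h1 c hc'), fun e => absurd e (h2 c hc')⟩, h3 c hc'⟩
  · rcases Finset.mem_insert.1 hc with rfl | hc'
    · exact ⟨⟨fun e => absurd e.symm (h1 a ha'), fun e => absurd e.symm (h2 a ha')⟩, by
        rw [G.adj_comm, G.adj_comm (a.2)]
        exact h3 a ha'⟩
    · exact h a ha' c hc'

theorem homogeneous_of_ope {V : Type*} [Countable V] {G : SimpleGraph V} (h : OPE G) :
    Homogeneous G := by
  classical
  intro U W f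
  let p0 : Finset (V × V) := U.attach.image (fun u => (u.1, (f ⟨u.1, u.2⟩).1))
  have hp0 : GPart G p0 := by
    intro a ha b hb
    obtain ⟨u, -, rfl⟩ := Finset.mem_image.1 ha
    obtain ⟨v, -, rfl⟩ := Finset.mem_image.1 hb
    constructor
    · constructor
      · intro e
        have : u = v := Subtype.ext e
        rw [this]
      · intro e
        have := f.injective (Subtype.ext e)
        exact congrArg Subtype.val this
    · exact (f.map_adj_iff (v := ⟨u.1, u.2⟩) (w := ⟨v.1, v.2⟩)).symm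
  obtain ⟨g, hg0, hg⟩ := back_forth {p : Finset (V × V) | GPart G p} p0 hp0
    (fun p hp a ha b hb => (hp a ha b hb).1) (fun p hp x => GPart.extend h hp x)
    (fun p hp y => by
      obtain ⟨q, hq, hpq, x, hx⟩ := GPart.extend h (GPart.swap hp) y
      refine ⟨q.image Prod.swap, GPart.swap hq, ?_, x, Finset.mem_image.2 ⟨_, hx, rfl⟩⟩
      intro a ha
      exact Finset.mem_image.2 ⟨a.swap, hpq (Finset.mem_image.2 ⟨a, ha, rfl⟩), by simp⟩)
  refine ⟨⟨g, ?_⟩, fun u => ?_⟩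
  · intro x x'
    obtain ⟨q, hq, h1, h2⟩ := hg x x'
    exact (hq _ h1 _ h2).2.symm
  · exact hg0 (u.1, (f u).1) (Finset.mem_image.2 ⟨⟨u.1, u.2⟩, Finset.mem_attach _ _, rfl⟩)

end SetHom
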