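import Pool.Agent.Helper25.SH.Defs2

/-!
# MP_506470_co, finite clique number, module F4
-/

namespace SetHom

variable {V : Type}

theorem f4_insert_indep {G : SimpleGraph V} [DecidableEq V] {Y : Finset V} {b : V}
    (hY : Indep G Y) (hb : ∀ y ∈ Y, ¬ G.Adj b y) : Indep G (insert b Y) := by
  intro x hx y hy hxy
  rw [Finset.mem_insert] at hx hy
  rcases hx with rfl | hx <;> rcases hy with rfl | hy
  · exact G.loopless.irrefl _ hxy
  · exact hb y hy hxy
  · exact hb x hx hxy.symm
  · exact hY x hx y hy hxy

theorem f4_T {G : SimpleGraph V} (h : Base G)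
    (ht : ∀ a b c, a ≠ b → b ≠ c → a ≠ c → ¬ G.Adj a b → ¬ G.Adj b c → ¬ G.Adj a c →
      ∃ u, G.Adj u a ∧ G.Adj u b ∧ ¬ G.Adj u c) :
    ∀ n : ℕ, ∀ (A : Finset V) (a : V), Indep G A → a ∈ A → A.card = n →
      {c | G.Adj c a ∧ ∀ x ∈ A, x ≠ a → ¬ G.Adj c x}.Infinite := by
  classical
  intro n
  induction n using Nat.strong_induction_on with
  | _ n ih =>
    intro A a hA ha hn
    by_cases h1 : A.card = 1
    · obtain ⟨a', ha'⟩ := Finset.card_eq_one.1 h1
      subst ha'
      rw [Finset.mem_singleton] at ha
      subst ha
      refine (h.infdeg a).mono ?_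
      intro c hc
      refine ⟨(show G.Adj a c from hc).symm, ?_⟩
      intro x hx hxa
      exact absurd (Finset.mem_singleton.1 hx) hxa
    by_cases h2 : A.card = 2
    · obtain ⟨b, hb, hba⟩ := Finset.exists_mem_ne (show 1 < A.card by omega) a
      have hAe : A = {a, b} := by
        symm
        apply Finset.eq_of_subset_of_card_le
        · intro x hx
          rw [Finset.mem_insert, Finset.mem_singleton] at hx
          rcases hx with rfl | rfl
          · exact ha
          · exact hb
        · rw [Finset.card_pair hba.symm, h2]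
      refine (h.diff a b hba.symm (hA a ha b hb)).mono ?_
      rintro c ⟨h3, h4⟩
      refine ⟨h3.symm, ?_⟩
      intro x hx hxa hcx
      rw [hAe, Finset.mem_insert, Finset.mem_singleton] at hx
      rcases hx with rfl | rfl
      · exact hxa rfl
      · exact h4 hcx.symm
    have h0 : A.card ≠ 0 := fun e => by
      rw [Finset.card_eq_zero] at e
      rw [e] at ha
      exact absurd ha (Finset.notMem_empty a)
    have h3 : 3 ≤ A.card := by omega
    obtain ⟨b₁, hb₁, hb₁a⟩ := Finset.exists_mem_ne (show 1 < A.card by omega) a
    have h4 : 0 < (A \ {a, b₁}).card := by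
      have := Finset.le_card_sdiff {a, b₁} A
      rw [Finset.card_pair hb₁a.symm] at this
      omega
    obtain ⟨b₂, hb₂'⟩ := Finset.card_pos.1 h4
    rw [Finset.mem_sdiff, Finset.mem_insert, Finset.mem_singleton] at hb₂'
    obtain ⟨hb₂, hb₂''⟩ := hb₂'
    push Not at hb₂''
    obtain ⟨hb₂a, hb₂b₁⟩ := hb₂''
    obtain ⟨d, hd1, hd2, hda⟩ := ht b₁ b₂ a hb₂b₁.symm hb₂a hb₁a (hA b₁ hb₁ b₂ hb₂)
      (hA b₂ hb₂ a ha) (hA b₁ hb₁ a ha)
    have hout : ∀ y, (∃ b ∈ A, G.Adj y b) → y ∉ A := fun y ⟨b, hb, hyb⟩ hy => hA y hy b hb hyb
    have claim : ∀ B'' : Finset V, B'' ⊆ A \ {a, b₁, b₂} → ∃ D : Finset V, D.card ≤ 1 + B''.card ∧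
        Indep G (insert a D) ∧ (∀ y ∈ D, y ∉ A) ∧
        (∀ b ∈ insert b₁ (insert b₂ B''), ∃ y ∈ D, G.Adj y b) := by
      intro B''
      induction B'' using Finset.induction_on with
      | empty =>
        intro _
        refine ⟨{d}, by simp, ?_, ?_, ?_⟩
        · refine f4_insert_indep ?_ ?_
          · intro x hx y hy hxy
            rw [Finset.mem_singleton] at hx hy
            subst hx
            subst hy
            exact G.loopless.irrefl _ hxy
          · intro y hy
            rw [Finset.mem_singleton] at hy
            subst hy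
            exact fun e => hda e.symm
        · intro y hy
          rw [Finset.mem_singleton] at hy
          subst hy
          exact hout y ⟨b₁, hb₁, hd1⟩
        · intro b hb
          rw [Finset.mem_insert, Finset.mem_insert] at hb
          refine ⟨d, Finset.mem_singleton_self d, ?_⟩
          rcases hb with rfl | rfl | hb
          · exact hd1
          · exact hd2
          · exact absurd hb (Finset.notMem_empty b)
      | insert b B'' hb ihB =>
        intro hsub
        obtain ⟨D, hD1, hD2, hD3, hD4⟩ := ihB ((Finset.subset_insert b B'').trans hsub)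
        have hbA := hsub (Finset.mem_insert_self b B'')
        rw [Finset.mem_sdiff] at hbA
        have hba : b ≠ a := by
          rintro rfl
          exact hbA.2 (by simp)
        have hadd : ∀ D' : Finset V, D ⊆ D' → (∃ y ∈ D', G.Adj y b) →
            ∀ b' ∈ insert b₁ (insert b₂ (insert b B'')), ∃ y ∈ D', G.Adj y b' := by
          intro D' hDD' hb' b' hb''
          by_cases hbb : b' = b
          · subst hbb
            exact hb'
          · have : b' ∈ insert b₁ (insert b₂ B'') := by
              simp only [Finset.mem_insert] at hb'' ⊢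
              tauto
            obtain ⟨y, hy, hyb⟩ := hD4 b' this
            exact ⟨y, hDD' hy, hyb⟩
        by_cases hnb : ∃ y ∈ D, G.Adj y b
        · refine ⟨D, ?_, hD2, hD3, hadd D subset_rfl hnb⟩
          rw [Finset.card_insert_of_notMem hb]
          omega
        · push Not at hnb
          have hI : Indep G (insert b (insert a D)) := by
            refine f4_insert_indep hD2 ?_
            intro y hy
            rw [Finset.mem_insert] at hy
            rcases hy with rfl | hy
            · exact hA b hbA.1 y ha
            · exact fun e => hnb y hy e.symm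
          have hcard : (insert b (insert a D)).card < n := by
            have e1 : (insert b (insert a D)).card ≤ D.card + 2 := by
              refine (Finset.card_insert_le _ _).trans ?_
              have := Finset.card_insert_le a D
              omega
            have e2 : (insert b B'').card ≤ (A \ {a, b₁, b₂}).card := Finset.card_le_card hsub
            have e3 : ({a, b₁, b₂} : Finset V).card = 3 :=
              Finset.card_eq_three.2 ⟨a, b₁, b₂, hb₁a.symm, hb₂a.symm, hb₂b₁.symm, rfl⟩
            have e4 : (A \ {a, b₁, b₂}).card = A.card - 3 := by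
              rw [Finset.card_sdiff_of_subset, e3]
              intro x hx
              simp only [Finset.mem_insert, Finset.mem_singleton] at hx
              rcases hx with rfl | rfl | rfl <;> assumption
            rw [Finset.card_insert_of_notMem hb] at e2
            omega
          obtain ⟨y, hy1, hy2⟩ :=
            (ih _ hcard (insert b (insert a D)) b hI (Finset.mem_insert_self _ _) rfl).nonempty
          have hya : ¬ G.Adj y a := hy2 a (by simp) hba.symm
          have hyD : ∀ x ∈ D, ¬ G.Adj y x := fun x hx =>
            hy2 x (by simp [hx]) (by rintro rfl; exact hD3 x hx hbA.1)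
          refine ⟨insert y D, ?_, ?_, ?_, ?_⟩
          · rw [Finset.card_insert_of_notMem hb]
            have := Finset.card_insert_le y D
            omega
          · rw [Finset.insert_comm]
            refine f4_insert_indep hD2 ?_
            intro x hx
            rw [Finset.mem_insert] at hx
            rcases hx with rfl | hx
            · exact hya
            · exact hyD x hx
          · intro x hx
            rw [Finset.mem_insert] at hx
            rcases hx with rfl | hx
            · exact hout x ⟨b, hbA.1, hy1⟩
            · exact hD3 x hx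
          · exact hadd _ (Finset.subset_insert _ _) ⟨y, Finset.mem_insert_self _ _, hy1⟩
    obtain ⟨D, -, hD2, -, hD4⟩ := claim _ subset_rfl
    refine (h.common _ hD2).mono ?_
    intro c hc
    refine ⟨hc a (Finset.mem_insert_self _ _), ?_⟩
    intro x hx hxa hcx
    have hx' : x ∈ insert b₁ (insert b₂ (A \ {a, b₁, b₂})) := by
      simp only [Finset.mem_insert, Finset.mem_sdiff, Finset.mem_singleton]
      tauto
    obtain ⟨y, hy, hyx⟩ := hD4 x hx'
    exact h.tf c y x (hc y (Finset.mem_insert_of_mem hy)) hyx hcx

theorem ext_of_traces {G : SimpleGraph V} (h : Base G)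
    (ht : ∀ a b c, a ≠ b → b ≠ c → a ≠ c → ¬ G.Adj a b → ¬ G.Adj b c → ¬ G.Adj a c →
      ∃ u, G.Adj u a ∧ G.Adj u b ∧ ¬ G.Adj u c) : EXT 2 G Set.univ := by
  classical
  intro A B _ _ hAB hA2
  have hA : Indep G A := by
    intro x hx y hy hxy
    refine hA2 (t := {x, y}) ?_ ?_
    · intro z hz
      rw [Finset.mem_coe, Finset.mem_insert, Finset.mem_singleton] at hz
      rcases hz with rfl | rfl
      · exact hx
      · exact hy
    · refine ⟨?_, Finset.card_pair hxy.ne⟩
      rw [Finset.coe_pair, SimpleGraph.isClique_pair]
      exact fun _ => hxy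
  have hex : ∀ b : V, ∃ e, G.Adj b e ∧ e ∉ A := fun b => by
    obtain ⟨e, he, heA⟩ := (h.infdeg b).exists_notMem_finset A
    exact ⟨e, he, heA⟩
  choose e he heA using hex
  set Bp : Finset V := B ∪ B.image e with hBp
  have hABp : ∀ x ∈ A, x ∉ Bp := by
    intro x hx hxB
    rw [hBp, Finset.mem_union, Finset.mem_image] at hxB
    rcases hxB with hxB | ⟨b, -, rfl⟩
    · exact (Finset.disjoint_left.1 hAB) hx hxB
    · exact heA b hx
  have claim : ∀ T : Finset V, T ⊆ Bp → ∃ Y : Finset V, Indep G Y ∧ A ⊆ Y ∧
      (∀ y ∈ Y, y ∉ Bp) ∧ ∀ b ∈ T, ∃ y ∈ Y, G.Adj y b := by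
    intro T
    induction T using Finset.induction_on with
    | empty =>
      intro _
      exact ⟨A, hA, subset_rfl, hABp, fun b hb => absurd hb (Finset.notMem_empty b)⟩
    | insert b T hb ih =>
      intro hsub
      obtain ⟨Y, hY1, hY2, hY3, hY4⟩ := ih ((Finset.subset_insert b T).trans hsub)
      by_cases hnb : ∃ y ∈ Y, G.Adj y b
      · refine ⟨Y, hY1, hY2, hY3, ?_⟩
        intro b' hb'
        rw [Finset.mem_insert] at hb'
        rcases hb' with rfl | hb'
        · exact hnb
        · exact hY4 b' hb'
      · push Not at hnb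
        have hI : Indep G (insert b Y) := f4_insert_indep hY1 fun y hy e => hnb y hy e.symm
        obtain ⟨y, ⟨hy1, hy2⟩, hy3⟩ :=
          (f4_T h ht _ (insert b Y) b hI (Finset.mem_insert_self _ _) rfl).exists_notMem_finset Bp
        refine ⟨insert y Y, ?_, hY2.trans (Finset.subset_insert _ _), ?_, ?_⟩
        · refine f4_insert_indep hY1 ?_
          intro x hx
          refine hy2 x (Finset.mem_insert_of_mem hx) ?_
          rintro rfl
          exact hY3 x hx (hsub (Finset.mem_insert_self _ _))
        · intro x hx
          rw [Finset.mem_insert] at hx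
          rcases hx with rfl | hx
          · exact hy3
          · exact hY3 x hx
        · intro b' hb'
          rw [Finset.mem_insert] at hb'
          rcases hb' with rfl | hb'
          · exact ⟨y, Finset.mem_insert_self _ _, hy1⟩
          · obtain ⟨z, hz, hzb⟩ := hY4 b' hb'
            exact ⟨z, Finset.mem_insert_of_mem hz, hzb⟩
  obtain ⟨Y, hY1, hY2, -, hY4⟩ := claim Bp subset_rfl
  obtain ⟨c, hc⟩ := (h.common Y hY1).nonempty
  have hcB : ∀ b ∈ Bp, ¬ G.Adj c b := by
    intro b hb hcb
    obtain ⟨y, hy, hyb⟩ := hY4 b hb
    exact h.tf c y b (hc y hy) hyb hcb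
  refine ⟨c, Set.mem_univ c, ?_, fun a ha => hc a (hY2 ha), fun b hb => hcB b ?_⟩
  · intro hcB'
    refine hcB (e c) ?_ (he c)
    rw [hBp, Finset.mem_union]
    exact Or.inr (Finset.mem_image_of_mem e hcB')
  · rw [hBp, Finset.mem_union]
    exact Or.inl hb

end SetHom
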