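import Pool.Agent.Helper25.SH.Defs2

/-!
# MP_506470_co, finite clique number, module L2
-/

namespace SetHom

variable {V : Type}

theorem ope_of_ext {G : SimpleGraph V} {n : ℕ} (hK : G.CliqueFree (n + 1))
    (h : EXT n G Set.univ) : OPE G := by
  classical
  intro U f hf hadj a ha
  obtain ⟨c, -, hcB, hcA, hcB'⟩ := h ((U.filter (G.Adj a)).image f)
    ((U.filter (fun x => ¬ G.Adj a x)).image f) (Set.subset_univ _) (Set.subset_univ _)
    (by
      rw [Finset.disjoint_left]
      intro y hy hy'
      rw [Finset.mem_image] at hy hy'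
      obtain ⟨x, hx, rfl⟩ := hy
      obtain ⟨x', hx', hxx⟩ := hy'
      rw [Finset.mem_filter] at hx hx'
      rw [hf hx'.1 hx.1 hxx] at hx'
      exact hx'.2 hx.2)
    (by
      intro t ht htc
      obtain ⟨ht1, ht2⟩ := htc
      set K : Finset V := (U.filter (G.Adj a)).filter (fun x => f x ∈ t) with hKd
      have hKU : ∀ x ∈ K, x ∈ U ∧ G.Adj a x ∧ f x ∈ t := by
        intro x hx
        rw [hKd, Finset.mem_filter, Finset.mem_filter] at hx
        exact ⟨hx.1.1, hx.1.2, hx.2⟩
      have hKt : K.image f = t := by
        ext y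
        rw [Finset.mem_image]
        constructor
        · rintro ⟨x, hx, rfl⟩
          exact (hKU x hx).2.2
        · intro hy
          have hy' := ht hy
          rw [Finset.mem_coe, Finset.mem_image] at hy'
          obtain ⟨x, hx, rfl⟩ := hy'
          refine ⟨x, ?_, rfl⟩
          rw [hKd, Finset.mem_filter]
          exact ⟨hx, hy⟩
      have hKcard : K.card = n := by
        rw [← ht2, ← hKt, Finset.card_image_of_injOn]
        intro x hx y hy hxy
        exact hf (hKU x hx).1 (hKU y hy).1 hxy
      have haK : a ∉ K := fun e => ha (hKU a e).1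
      refine hK (insert a K) ⟨?_, ?_⟩
      · rw [Finset.coe_insert, SimpleGraph.isClique_insert]
        refine ⟨?_, fun x hx _ => (hKU x hx).2.1⟩
        intro x hx y hy hxy
        have hx' := hKU x hx
        have hy' := hKU y hy
        rw [← hadj x hx'.1 y hy'.1]
        exact ht1 hx'.2.2 hy'.2.2 (fun e => hxy (hf hx'.1 hy'.1 e))
      · rw [Finset.card_insert_of_notMem haK, hKcard])
  have hA : ∀ x ∈ U, G.Adj a x → G.Adj c (f x) := fun x hx hax =>
    hcA _ (Finset.mem_image_of_mem f (Finset.mem_filter.2 ⟨hx, hax⟩))
  have hB : ∀ x ∈ U, ¬ G.Adj a x → f x ∈ (U.filter (fun x => ¬ G.Adj a x)).image f :=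
    fun x hx hax => Finset.mem_image_of_mem f (Finset.mem_filter.2 ⟨hx, hax⟩)
  refine ⟨c, ?_, ?_⟩
  · rintro x hx rfl
    by_cases hax : G.Adj a x
    · exact G.loopless.irrefl _ (hA x hx hax)
    · exact hcB (hB x hx hax)
  · intro x hx
    by_cases hax : G.Adj a x
    · exact ⟨fun _ => hax, fun _ => hA x hx hax⟩
    · exact ⟨fun e => absurd e (hcB' _ (hB x hx hax)), fun e => absurd e hax⟩

theorem ope_of_p3f {G : SimpleGraph V} [Infinite V] {n : ℕ} (hK : G.CliqueFree n)
    (ht : ∀ u v, ∃ φ : G ≃g G, φ u = v) (h : P3F G Set.univ) : OPE G := by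
  classical
  have hfin : ∀ v, (G.neighborSet v).Finite := by
    intro v
    by_contra hinf
    obtain ⟨t, ht1, ht2⟩ := Set.Infinite.exists_subset_card_eq hinf n
    refine hK t ⟨?_, ht2⟩
    intro x hx y hy hxy
    exact h x trivial v trivial y trivial (ht1 hx).symm (ht1 hy) hxy
  have hcard : ∀ u v, (G.neighborSet u).ncard = (G.neighborSet v).ncard := by
    intro u v
    obtain ⟨φ, rfl⟩ := ht u v
    have : G.neighborSet (φ u) = φ '' (G.neighborSet u) := by
      ext y
      constructor
      · intro hy
        refine ⟨φ.symm y, ?_, by simp⟩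
        have hy' : G.Adj (φ u) y := hy
        have : G.Adj (φ.symm (φ u)) (φ.symm y) := by rwa [φ.symm.map_adj_iff]
        simpa using this
      · rintro ⟨x, hx, rfl⟩
        exact (φ.map_adj_iff).2 hx
    rw [this, Set.ncard_image_of_injective _ φ.injective]
  intro U f hf hadj a ha
  by_cases hc : ∃ u ∈ U, G.Adj a u
  · obtain ⟨u, hu, hau⟩ := hc
    set X : Finset V := U.filter (G.Adj u) with hX
    have h1 : (X.image f).card < (G.neighborSet (f u)).ncard := by
      rw [hcard (f u) u]
      have e1 : (X.image f).card ≤ X.card := Finset.card_image_le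
      have e2 : X.card < (G.neighborSet u).ncard := by
        rw [← Set.ncard_coe_finset]
        refine Set.ncard_lt_ncard ?_ (hfin u)
        refine ⟨?_, ?_⟩
        · intro x hx
          rw [Finset.mem_coe, hX, Finset.mem_filter] at hx
          exact hx.2
        · intro hsub
          have := hsub (show a ∈ G.neighborSet u from hau.symm)
          rw [Finset.mem_coe, hX, Finset.mem_filter] at this
          exact ha this.1
      omega
    obtain ⟨b, hb, hbX⟩ := Set.exists_mem_notMem_of_ncard_lt_ncard
      (s := ((X.image f : Finset V) : Set V)) (t := G.neighborSet (f u))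
      (by rwa [Set.ncard_coe_finset])
    have hb' : G.Adj (f u) b := hb
    have hne : ∀ x ∈ U, f x ≠ b := by
      rintro x hx rfl
      refine hbX ?_
      rw [Finset.mem_coe]
      refine Finset.mem_image_of_mem f ?_
      rw [hX, Finset.mem_filter]
      exact ⟨hx, (hadj u hu x hx).1 hb'⟩
    refine ⟨b, hne, ?_⟩
    intro x hx
    by_cases hxu : x = u
    · subst hxu
      exact ⟨fun _ => hau, fun _ => hb'.symm⟩
    · have hax : a ≠ x := fun e => ha (e ▸ hx)
      constructor
      · intro hbx
        have e1 : G.Adj (f u) (f x) := h _ trivial b trivial _ trivial hb' hbx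
          (fun e => hxu (hf hx hu e.symm))
        have e2 : G.Adj u x := (hadj u hu x hx).1 e1
        exact h _ trivial u trivial _ trivial hau e2 hax
      · intro hax'
        have e1 : G.Adj u x := h _ trivial a trivial _ trivial hau.symm hax' (Ne.symm hxu)
        have e2 : G.Adj (f u) (f x) := (hadj u hu x hx).2 e1
        exact h _ trivial (f u) trivial _ trivial hb'.symm e2 (hne x hx).symm
  · push Not at hc
    have h1 : ((⋃ x ∈ U, G.neighborSet (f x)) ∪ ((U.image f : Finset V) : Set V)).Finite := by
      refine Set.Finite.union ?_ (Finset.finite_toSet _)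
      exact Set.Finite.biUnion (Finset.finite_toSet U) fun x _ => hfin _
    obtain ⟨b, hb⟩ := h1.exists_notMem
    rw [Set.mem_union, not_or] at hb
    obtain ⟨hb1, hb2⟩ := hb
    have hb3 : ∀ x ∈ U, ¬ G.Adj (f x) b := by
      intro x hx e
      refine hb1 ?_
      simp only [Set.mem_iUnion]
      exact ⟨x, hx, e⟩
    refine ⟨b, ?_, ?_⟩
    · rintro x hx rfl
      exact hb2 (Finset.mem_coe.2 (Finset.mem_image_of_mem f hx))
    · intro x hx
      exact ⟨fun e => absurd e.symm (hb3 x hx), fun e => absurd e (hc x hx)⟩

theorem ope_of_cmp {G : SimpleGraph V} [Infinite V] {n : ℕ} (hK : G.CliqueFree n)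
    (ht : ∀ u v, ∃ φ : G ≃g G, φ u = v) (h : CMP G Set.univ) : OPE G := by
  classical
  have hmap : ∀ (φ : G ≃g G) u, {w | ¬ G.Adj (φ u) w} = φ '' {w | ¬ G.Adj u w} := by
    intro φ u
    ext y
    constructor
    · intro hy
      refine ⟨φ.symm y, ?_, by simp⟩
      intro e
      apply hy
      have : G.Adj (φ u) (φ (φ.symm y)) := φ.map_adj_iff.2 e
      simpa using this
    · rintro ⟨x, hx, rfl⟩
      exact fun e => hx (φ.map_adj_iff.1 e)
  have hinf : ∀ v, {w | ¬ G.Adj v w}.Infinite := by
    intro v hfin
    have hall : ∀ u, {w | ¬ G.Adj u w}.Finite := by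
      intro u
      obtain ⟨φ, rfl⟩ := ht v u
      rw [hmap]
      exact hfin.image _
    have hcl : ∀ k : ℕ, ∃ K : Finset V, G.IsNClique k K := by
      intro k
      induction k with
      | zero => exact ⟨∅, by simp [SimpleGraph.isNClique_iff]⟩
      | succ k ih =>
        obtain ⟨K, hKc⟩ := ih
        have h1 : (⋃ x ∈ K, {w | ¬ G.Adj x w}).Finite :=
          Set.Finite.biUnion (Finset.finite_toSet K) fun x _ => hall _
        obtain ⟨b, hb⟩ := h1.exists_notMem
        have hb' : ∀ x ∈ K, G.Adj x b := by
          intro x hx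
          by_contra e
          apply hb
          simp only [Set.mem_iUnion]
          exact ⟨x, hx, e⟩
        exact ⟨insert b K, hKc.insert fun x hx => (hb' x hx).symm⟩
    obtain ⟨K, hKc⟩ := hcl n
    exact hK K hKc
  intro U f hf hadj a ha
  by_cases hc : ∃ u ∈ U, ¬ G.Adj a u
  · obtain ⟨u, hu, hau⟩ := hc
    obtain ⟨b, hb, hbU⟩ := (hinf (f u)).exists_notMem_finset (U.image f)
    refine ⟨b, ?_, ?_⟩
    · rintro x hx rfl
      exact hbU (Finset.mem_image_of_mem f hx)
    · intro x hx
      have e1 : G.Adj b (f x) ↔ G.Adj (f u) (f x) := by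
        constructor
        · intro e
          by_contra e'
          exact h b trivial (f u) trivial (f x) trivial (fun e2 => hb e2.symm) e' e
        · intro e
          by_contra e'
          exact h (f u) trivial b trivial (f x) trivial hb e' e
      have e2 : G.Adj a x ↔ G.Adj u x := by
        constructor
        · intro e
          by_contra e'
          exact h a trivial u trivial x trivial hau e' e
        · intro e
          by_contra e'
          exact h u trivial a trivial x trivial (fun e2 => hau e2.symm) e' e
      rw [e1, e2, hadj u hu x hx]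
  · push Not at hc
    by_cases hex : ∃ b, ∀ x ∈ U, G.Adj b (f x)
    · obtain ⟨b, hb⟩ := hex
      refine ⟨b, ?_, fun x hx => ⟨fun _ => hc x hx, fun _ => hb x hx⟩⟩
      rintro x hx rfl
      exact G.loopless.irrefl _ (hb x hx)
    · exfalso
      push Not at hex
      -- a maximal clique in `U`
      obtain ⟨R, hR, hRmax⟩ := Finset.exists_max_image
        (U.powerset.filter fun R : Finset V => G.IsClique (R : Set V)) Finset.card
        ⟨∅, by simp⟩
      rw [Finset.mem_filter, Finset.mem_powerset] at hR
      have hdom : ∀ x ∈ U, ∃ r ∈ R, ¬ G.Adj x r := by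
        intro x hx
        by_contra hcon
        push Not at hcon
        have hxR : x ∉ R := fun e => G.loopless.irrefl _ (hcon x e)
        have h1 := hRmax (insert x R) (by
          rw [Finset.mem_filter, Finset.mem_powerset]
          refine ⟨?_, ?_⟩
          · intro y hy
            rw [Finset.mem_insert] at hy
            rcases hy with rfl | hy
            · exact hx
            · exact hR.1 hy
          · rw [Finset.coe_insert, SimpleGraph.isClique_insert]
            exact ⟨hR.2, fun y hy _ => hcon y hy⟩)
        rw [Finset.card_insert_of_notMem hxR] at h1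
        omega
      have hv : ∀ v, ∃ r ∈ R, ¬ G.Adj v (f r) := by
        intro v
        obtain ⟨x, hx, hvx⟩ := hex v
        obtain ⟨r, hr, hxr⟩ := hdom x hx
        refine ⟨r, hr, ?_⟩
        have h1 : ¬ G.Adj (f x) (f r) := by
          rw [hadj x hx r (hR.1 hr)]
          exact hxr
        exact h v trivial (f x) trivial (f r) trivial hvx h1
      choose g hg1 hg2 using hv
      have haR : a ∉ R := fun e => ha (hR.1 e)
      have hclique : G.IsClique ((insert a R : Finset V) : Set V) := by
        rw [Finset.coe_insert, SimpleGraph.isClique_insert]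
        exact ⟨hR.2, fun y hy _ => hc y (hR.1 hy)⟩
      have hinj : Set.InjOn g ((insert a R : Finset V) : Set V) := by
        intro x hx y hy hxy
        by_contra hne
        have h1 := hclique hx hy hne
        have h2 := hg2 y
        rw [← hxy] at h2
        exact h x trivial (f (g x)) trivial y trivial (hg2 x) (fun e => h2 e.symm) h1
      have h3 : (insert a R).card ≤ R.card :=
        Finset.card_le_card_of_injOn g (fun x _ => hg1 x) hinj
      rw [Finset.card_insert_of_notMem haR] at h3
      omega

end SetHom
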