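import Pool.Agent.Helper20.RC.Target
import Pool.Agent.Helper48.SH.Bas

/-!
# SHARP, link 4: the weighted pointwise lemma

`hw` is the support function of the weighted segments (helper20). For an edge `e` and a base edge `D` the term
`‖e‖ hw (t + arg e)` is at least its tangent at `D` plus `m` times the Bregman distance of the norm, if `m ≤ w`
everywhere. The sum over the four edges of the pair `t, t + π` follows with the unweighted lemma `P4c`.
-/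

open MeasureTheory Set Filter Metric

namespace Pool.Agent.Helper30.SH

open Helper49.LT Helper87.RC Helper49.RC Helper44.GQ
open Pool.Agent.Helper20.RC (hw wR)

/-- derivative of `hw` -/
noncomputable def hw1 (η2 η6 η10 : ℂ) (φ : ℝ) : ℝ :=
  4 / 3 * (η2 * ee (2 * φ)).im + 12 / 35 * (η6 * ee (6 * φ)).im + 20 / 99 * (η10 * ee (10 * φ)).im

/-- second derivative of `hw` -/
noncomputable def hw2 (η2 η6 η10 : ℂ) (φ : ℝ) : ℝ :=
  8 / 3 * (η2 * ee (2 * φ)).re + 72 / 35 * (η6 * ee (6 * φ)).re + 200 / 99 * (η10 * ee (10 * φ)).re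

private theorem dre (η : ℂ) (k φ : ℝ) :
    HasDerivAt (fun x : ℝ => (η * ee (k * x)).re) (-(k * (η * ee (k * φ)).im)) φ := by
  have h := (hasDerivAt_ee k φ).const_mul η
  have h2 := (Complex.reCLM.hasFDerivAt (x := η * ee (k * φ))).comp_hasDerivAt φ h
  refine h2.congr_deriv ?_
  simp only [Complex.reCLM_apply, Complex.mul_re, Complex.mul_im, Complex.ofReal_re, Complex.ofReal_im,
    Complex.I_re, Complex.I_im]
  ring

private theorem dim (η : ℂ) (k φ : ℝ) :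
    HasDerivAt (fun x : ℝ => (η * ee (k * x)).im) (k * (η * ee (k * φ)).re) φ := by
  have h := (hasDerivAt_ee k φ).const_mul η
  have h2 := (Complex.imCLM.hasFDerivAt (x := η * ee (k * φ))).comp_hasDerivAt φ h
  refine h2.congr_deriv ?_
  simp only [Complex.imCLM_apply, Complex.mul_re, Complex.mul_im, Complex.ofReal_re, Complex.ofReal_im,
    Complex.I_re, Complex.I_im]
  ring

theorem hw_deriv (η2 η6 η10 : ℂ) (φ : ℝ) : HasDerivAt (hw η2 η6 η10) (hw1 η2 η6 η10 φ) φ := by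
  have h := (((((dre η2 2 φ).div_const 3).add ((dre η6 6 φ).div_const 35)).add
    ((dre η10 10 φ).div_const 99)).const_mul 2).const_sub 1
  refine h.congr_deriv ?_
  unfold hw1
  ring

theorem hw1_deriv (η2 η6 η10 : ℂ) (φ : ℝ) : HasDerivAt (hw1 η2 η6 η10) (hw2 η2 η6 η10 φ) φ := by
  have h := (((dim η2 2 φ).const_mul (4 / 3)).add ((dim η6 6 φ).const_mul (12 / 35))).add
    ((dim η10 10 φ).const_mul (20 / 99))
  refine h.congr_deriv ?_
  unfold hw2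
  ring

theorem hw_add (η2 η6 η10 : ℂ) (φ : ℝ) : hw2 η2 η6 η10 φ + hw η2 η6 η10 φ = wR η2 η6 η10 φ := by
  unfold hw2 hw wR
  simp only [Complex.add_re]
  ring

private theorem ee_even (k : ℤ) (φ : ℝ) (x : ℝ) (hx : x = ((2 * k : ℤ) : ℝ) * (φ + Real.pi)) :
    ee x = ee (((2 * k : ℤ) : ℝ) * φ) := by
  have e : x = ((2 * k : ℤ) : ℝ) * φ + ((k : ℤ) : ℝ) * (2 * Real.pi) := by rw [hx]; push_cast; ring
  rw [e, ee_add, ee_int_mul k (2 * Real.pi), ee_two_pi]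
  simp

theorem hw_per (η2 η6 η10 : ℂ) (φ : ℝ) : hw η2 η6 η10 (φ + Real.pi) = hw η2 η6 η10 φ := by
  have h2 := ee_even 1 φ (2 * (φ + Real.pi)) (by push_cast; ring)
  have h6 := ee_even 3 φ (6 * (φ + Real.pi)) (by push_cast; ring)
  have h10 := ee_even 5 φ (10 * (φ + Real.pi)) (by push_cast; ring)
  norm_num at h2 h6 h10
  unfold hw
  rw [h2, h6, h10]

theorem hw_per_int (η2 η6 η10 : ℂ) (φ : ℝ) (n : ℤ) :
    hw η2 η6 η10 (φ + n * Real.pi) = hw η2 η6 η10 φ := by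
  have h : Function.Periodic (hw η2 η6 η10) Real.pi := hw_per η2 η6 η10
  exact h.int_mul n φ

/-- `hw` depends only on the direction of the line -/
theorem hw_ee (η2 η6 η10 : ℂ) {x y : ℝ} (h : ee x = ee y) : hw η2 η6 η10 x = hw η2 η6 η10 y := by
  unfold ee at h
  obtain ⟨n, hn⟩ := Complex.exp_eq_exp_iff_exists_int.1 h
  have h1 : (x : ℂ) = ((y + (2 * n : ℤ) * Real.pi : ℝ) : ℂ) := by
    have hI := Complex.I_ne_zero
    have h2 : (x : ℂ) * Complex.I = ((y + (2 * n : ℤ) * Real.pi : ℝ) : ℂ) * Complex.I := by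
      rw [hn]; push_cast; ring
    exact mul_right_cancel₀ hI h2
  have h3 : x = y + (2 * n : ℤ) * Real.pi := by exact_mod_cast h1
  rw [h3, hw_per_int]

/-- the linear functional: value and tangent of `e ↦ ‖e‖ hw (t + arg e)` at `D` -/
noncomputable def lw (η2 η6 η10 : ℂ) (t : ℝ) (D e : ℂ) : ℝ :=
  (hw η2 η6 η10 (t + D.arg) * (e * (starRingEnd ℂ) D).re
    + hw1 η2 η6 η10 (t + D.arg) * (e * (starRingEnd ℂ) D).im) / ‖D‖

/-- the Bregman distance of the norm -/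
noncomputable def br (D e : ℂ) : ℝ := ‖e‖ - (e * (starRingEnd ℂ) D).re / ‖D‖

theorem lw_add (η2 η6 η10 : ℂ) (t : ℝ) (D e e' : ℂ) :
    lw η2 η6 η10 t D (e + e') = lw η2 η6 η10 t D e + lw η2 η6 η10 t D e' := by
  unfold lw
  rw [add_mul, Complex.add_re, Complex.add_im]
  ring

theorem lw_smul (η2 η6 η10 : ℂ) (t : ℝ) (D e : ℂ) (r : ℝ) :
    lw η2 η6 η10 t D ((r : ℂ) * e) = r * lw η2 η6 η10 t D e := by
  unfold lw
  rw [mul_assoc, Complex.re_ofReal_mul, Complex.im_ofReal_mul]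
  ring

theorem lw_self (η2 η6 η10 : ℂ) (t : ℝ) (D : ℂ) :
    lw η2 η6 η10 t D D = ‖D‖ * hw η2 η6 η10 (t + D.arg) := by
  unfold lw
  rw [Complex.mul_conj, Complex.ofReal_re, Complex.ofReal_im, Complex.normSq_eq_norm_sq]
  rcases eq_or_ne D 0 with h | h
  · simp [h]
  · have : ‖D‖ ≠ 0 := norm_ne_zero_iff.2 h
    field_simp
    ring

theorem br_smul (D e : ℂ) {r : ℝ} (hr : 0 ≤ r) : br D ((r : ℂ) * e) = r * br D e := by
  unfold br
  rw [norm_mul, Complex.norm_real, Real.norm_of_nonneg hr, mul_assoc, Complex.re_ofReal_mul]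
  ring

/-- one edge -/
theorem wloc (η2 η6 η10 : ℂ) {m : ℝ} (hm : ∀ φ, m ≤ wR η2 η6 η10 φ) (t : ℝ) {D : ℂ} (hD : D ≠ 0) (e : ℂ) :
    lw η2 η6 η10 t D e + m * br D e ≤ ‖e‖ * hw η2 η6 η10 (t + e.arg) := by
  rcases eq_or_ne e 0 with he | he
  · subst he
    unfold lw br
    simp
  set c : ℂ := e * (starRingEnd ℂ) D with hc
  have hDn : 0 < ‖D‖ := norm_pos_iff.2 hD
  have hen : 0 < ‖e‖ := norm_pos_iff.2 he
  have hcn : ‖c‖ = ‖e‖ * ‖D‖ := by rw [hc, norm_mul, Complex.norm_conj]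
  have hcne : c ≠ 0 := by
    rw [← norm_pos_iff, hcn]; positivity
  have h1 := Helper48.SH.sup_ge (hw η2 η6 η10) (hw1 η2 η6 η10) (hw2 η2 η6 η10) m (t + D.arg) c.arg
    (hw_deriv _ _ _) (hw1_deriv _ _ _) (fun x => by rw [hw_add]; exact hm x) (Complex.abs_arg_le_pi _)
  have h2 : Real.cos c.arg = c.re / (‖e‖ * ‖D‖) := by
    rw [Complex.cos_arg hcne, hcn]
  have h3 : Real.sin c.arg = c.im / (‖e‖ * ‖D‖) := by
    rw [Complex.sin_arg, hcn]
  have h4 : hw η2 η6 η10 (t + D.arg + c.arg) = hw η2 η6 η10 (t + e.arg) := by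
    apply hw_ee
    rw [ee_add, ee_add, ee_add, mul_assoc]
    congr 1
    have k1 : ∀ x : ℂ, x ≠ 0 → ee x.arg = x / (‖x‖ : ℂ) := by
      intro x hx
      have := Complex.norm_mul_exp_arg_mul_I x
      have hx' : (‖x‖ : ℂ) ≠ 0 := by
        rw [Ne, Complex.ofReal_eq_zero]; exact norm_ne_zero_iff.2 hx
      unfold ee
      rw [eq_div_iff hx', mul_comm]
      exact this
    rw [k1 D hD, k1 c hcne, k1 e he, hcn, hc]
    have a1 : (‖D‖ : ℂ) ≠ 0 := by rw [Ne, Complex.ofReal_eq_zero]; exact hDn.ne'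
    have a2 : (‖e‖ : ℂ) ≠ 0 := by rw [Ne, Complex.ofReal_eq_zero]; exact hen.ne'
    have a3 : D * (starRingEnd ℂ) D = (‖D‖ : ℂ) ^ 2 := by
      rw [Complex.mul_conj, Complex.normSq_eq_norm_sq]; push_cast; ring
    push_cast
    field_simp
    linear_combination a3
  rw [h4, h2, h3] at h1
  have h5 : lw η2 η6 η10 t D e + m * br D e =
      ‖e‖ * (m + (hw η2 η6 η10 (t + D.arg) - m) * (c.re / (‖e‖ * ‖D‖))
        + hw1 η2 η6 η10 (t + D.arg) * (c.im / (‖e‖ * ‖D‖))) := by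
    unfold lw br
    rw [← hc]
    field_simp
    ring
  rw [h5]
  exact mul_le_mul_of_nonneg_left h1 hen.le

/-- the four edges of the directions `t, t + π` in the frame rotated by `ee t`, gauge `q` -/
noncomputable def ed (q : ℝ) (b z : ℂ) : Fin 4 → ℂ :=
  ![cQ q b + 1 / 2 * aQ q b + z, cQ q b - 1 / 2 * aQ q b - z,
    cQ q b + 1 / 2 * aQ q b - z, cQ q b - 1 / 2 * aQ q b + z]

/-- four edges, with any lower bound `B` of the sum of the Bregman distances of the norm (`P4`) -/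
theorem wloc4 (η2 η6 η10 : ℂ) {m : ℝ} (hm0 : 0 ≤ m) (hm : ∀ φ, m ≤ wR η2 η6 η10 φ) (t : ℝ)
    {D e : Fin 4 → ℂ} (hD : ∀ k, D k ≠ 0) {B : ℝ} (hB : B ≤ ∑ k, br (D k) (e k)) :
    ∑ k, lw η2 η6 η10 t (D k) (e k) + m * B ≤ ∑ k, ‖e k‖ * hw η2 η6 η10 (t + (e k).arg) := by
  have h1 : ∑ k, (lw η2 η6 η10 t (D k) (e k) + m * br (D k) (e k)) ≤
      ∑ k, ‖e k‖ * hw η2 η6 η10 (t + (e k).arg) :=
    Finset.sum_le_sum fun k _ => wloc η2 η6 η10 hm t (hD k) (e k)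
  rw [Finset.sum_add_distrib, ← Finset.mul_sum] at h1
  have h2 := mul_le_mul_of_nonneg_left hB hm0
  linarith

theorem lw_sub (η2 η6 η10 : ℂ) (t : ℝ) (D e e' : ℂ) :
    lw η2 η6 η10 t D (e - e') = lw η2 η6 η10 t D e - lw η2 η6 η10 t D e' := by
  unfold lw
  rw [sub_mul, Complex.sub_re, Complex.sub_im]
  ring

/-- the linear part is value plus tangent at the base -/
theorem lw_split (η2 η6 η10 : ℂ) (t : ℝ) (D e : ℂ) :
    lw η2 η6 η10 t D e = ‖D‖ * hw η2 η6 η10 (t + D.arg) + lw η2 η6 η10 t D (e - D) := by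
  rw [lw_sub, lw_self]
  ring

theorem norm_hw_le (η2 η6 η10 : ℂ) (φ : ℝ) :
    |hw η2 η6 η10 φ - 1| ≤ 2 * (‖η2‖ / 3 + ‖η6‖ / 35 + ‖η10‖ / 99) := by
  have h : ∀ (η : ℂ) (x : ℝ), |(η * ee x).re| ≤ ‖η‖ := by
    intro η x
    refine (Complex.abs_re_le_norm _).trans ?_
    rw [norm_mul, norm_ee, mul_one]
  have h2 := abs_le.1 (h η2 (2 * φ))
  have h6 := abs_le.1 (h η6 (6 * φ))
  have h10 := abs_le.1 (h η10 (10 * φ))
  unfold hw
  rw [abs_le]
  constructor <;> linarith [h2.1, h2.2, h6.1, h6.2, h10.1, h10.2]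

/-- the gradient of the linear part -/
theorem abs_lw_le (η2 η6 η10 : ℂ) (t : ℝ) (D e : ℂ) :
    |lw η2 η6 η10 t D e| ≤
      ‖e‖ * (1 + 2 * (‖η2‖ / 3 + ‖η6‖ / 35 + ‖η10‖ / 99)
        + (4 / 3 * ‖η2‖ + 12 / 35 * ‖η6‖ + 20 / 99 * ‖η10‖)) := by
  have h : ∀ (η : ℂ) (x : ℝ), |(η * ee x).im| ≤ ‖η‖ := by
    intro η x
    refine (Complex.abs_im_le_norm _).trans ?_
    rw [norm_mul, norm_ee, mul_one]
  obtain ⟨X, hXd⟩ : ∃ X, X = 2 * (‖η2‖ / 3 + ‖η6‖ / 35 + ‖η10‖ / 99) := ⟨_, rfl⟩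
  obtain ⟨Y, hYd⟩ : ∃ Y, Y = 4 / 3 * ‖η2‖ + 12 / 35 * ‖η6‖ + 20 / 99 * ‖η10‖ := ⟨_, rfl⟩
  rw [← hXd, ← hYd]
  have hX : 0 ≤ X := by rw [hXd]; positivity
  have hY : 0 ≤ Y := by rw [hYd]; positivity
  have h1 : |hw η2 η6 η10 (t + D.arg)| ≤ 1 + X := by
    have := abs_le.1 (norm_hw_le η2 η6 η10 (t + D.arg))
    rw [← hXd] at this
    rw [abs_le]; constructor <;> linarith [this.1, this.2]
  have h2 : |hw1 η2 η6 η10 (t + D.arg)| ≤ Y := by
    have a2 := abs_le.1 (h η2 (2 * (t + D.arg)))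
    have a6 := abs_le.1 (h η6 (6 * (t + D.arg)))
    have a10 := abs_le.1 (h η10 (10 * (t + D.arg)))
    unfold hw1
    rw [abs_le, hYd]
    constructor <;> linarith [a2.1, a2.2, a6.1, a6.2, a10.1, a10.2]
  rcases eq_or_ne D 0 with hD | hD
  · subst hD
    unfold lw
    simp
    positivity
  have hDn : 0 < ‖D‖ := norm_pos_iff.2 hD
  have hn : ‖e * (starRingEnd ℂ) D‖ = ‖e‖ * ‖D‖ := by rw [norm_mul, Complex.norm_conj]
  have h3 : |(e * (starRingEnd ℂ) D).re| ≤ ‖e‖ * ‖D‖ := (Complex.abs_re_le_norm _).trans hn.le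
  have h4 : |(e * (starRingEnd ℂ) D).im| ≤ ‖e‖ * ‖D‖ := (Complex.abs_im_le_norm _).trans hn.le
  unfold lw
  rw [abs_div, abs_of_pos hDn, div_le_iff₀ hDn]
  calc _ ≤ |hw η2 η6 η10 (t + D.arg) * (e * (starRingEnd ℂ) D).re|
        + |hw1 η2 η6 η10 (t + D.arg) * (e * (starRingEnd ℂ) D).im| := abs_add_le _ _
    _ ≤ (1 + X) * (‖e‖ * ‖D‖) + Y * (‖e‖ * ‖D‖) := by
        rw [abs_mul, abs_mul]
        exact add_le_add (mul_le_mul h1 h3 (abs_nonneg _) (by positivity))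
          (mul_le_mul h2 h4 (abs_nonneg _) hY)
    _ = _ := by ring

end Pool.Agent.Helper30.SH
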