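import Pool.Agent.Helper49.RC.StSharp
import Pool.Agent.Helper30.SH.WLoc

/-!
# SHARP: the curvature condition `StCur`

`hA α` is the support function of the segments `ee t * α t`; `hA'' + hA = Re α - (Im α)'`.
-/

open MeasureTheory Set Filter Metric

namespace Pool.Agent.Helper30.SH

open Helper49.LT hiding sg
open Helper49.RC Helper44.GQ Helper49.Sharp
open Helper56.RC (fc)
open Pool.Agent.Helper20.RC (wR hw)

private theorem ee_dd (a : ℝ) : HasDerivAt ee (Complex.I * ee a) a := by
  have h := hasDerivAt_ee 1 a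
  simp only [one_mul, Complex.ofReal_one] at h
  exact h

private theorem I_der {α : ℝ → ℂ} (hc : Continuous α) (hp : ∀ t, α (t + Real.pi) = α t) (a : ℝ) :
    HasDerivAt (fun x : ℝ => ∫ t in (x - Real.pi)..x, ee t * α t) (2 * (ee a * α a)) a := by
  have hf : Continuous fun t => ee t * α t := continuous_ee.mul hc
  have h1 : ∀ x, HasDerivAt (fun x : ℝ => ∫ t in (0 : ℝ)..x, ee t * α t) (ee x * α x) x :=
    fun x => (hf.integral_hasStrictDerivAt 0 x).hasDerivAt
  have h2 := (h1 (a - Real.pi)).comp_sub_const a Real.pi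
  have h3 := (h1 a).sub h2
  have e : (fun x : ℝ => ∫ t in (x - Real.pi)..x, ee t * α t) =
      fun x => (∫ t in (0 : ℝ)..x, ee t * α t) - ∫ t in (0 : ℝ)..(x - Real.pi), ee t * α t := by
    funext x
    rw [intervalIntegral.integral_interval_sub_left (hf.intervalIntegrable _ _) (hf.intervalIntegrable _ _)]
  rw [e]
  refine h3.congr_deriv ?_
  have e1 : ee a = -ee (a - Real.pi) := by
    have := ee_add (a - Real.pi) Real.pi
    rw [ee_pi, sub_add_cancel] at this
    rw [this]; ring
  have e2 : α a = α (a - Real.pi) := by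
    rw [← hp (a - Real.pi), sub_add_cancel]
  rw [← e2, e1]
  ring

private theorem k_der {α : ℝ → ℂ} (hc : Continuous α) (hp : ∀ t, α (t + Real.pi) = α t) (a : ℝ) :
    HasDerivAt (fun x : ℝ => ee x * (starRingEnd ℂ) (∫ t in (x - Real.pi)..x, ee t * α t))
      (Complex.I * (ee a * (starRingEnd ℂ) (∫ t in (a - Real.pi)..a, ee t * α t))
        + 2 * (starRingEnd ℂ) (α a)) a := by
  have h1 := I_der hc hp a
  have h2 : HasDerivAt (fun x : ℝ => (starRingEnd ℂ) (∫ t in (x - Real.pi)..x, ee t * α t))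
      ((starRingEnd ℂ) (2 * (ee a * α a))) a := by
    have := (Complex.conjCLE.hasFDerivAt (x := ∫ t in (a - Real.pi)..a, ee t * α t)).comp_hasDerivAt a h1
    exact this
  refine ((ee_dd a).mul h2).congr_deriv ?_
  rw [map_mul, map_mul, map_ofNat]
  have h3 := ee_mul_conj a
  linear_combination (2 * (starRingEnd ℂ) (α a)) * h3

theorem hA_deriv {α : ℝ → ℂ} (hc : Continuous α) (hp : ∀ t, α (t + Real.pi) = α t) (a : ℝ) :
    HasDerivAt (hA α) (hA1 α a) a := by
  have h := ((Complex.imCLM.hasFDerivAt (x := ee a * (starRingEnd ℂ)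
    (∫ t in (a - Real.pi)..a, ee t * α t))).comp_hasDerivAt a (k_der hc hp a)).const_mul (1 / 2 : ℝ)
  refine h.congr_deriv ?_
  unfold hA1
  simp only [Complex.imCLM_apply, Complex.add_im, Complex.mul_im, Complex.I_re, Complex.I_im, Complex.conj_im,
    Complex.re_ofNat, Complex.im_ofNat]
  ring

theorem hA1_deriv {α : ℝ → ℂ} (hc : Continuous α) (hp : ∀ t, α (t + Real.pi) = α t) {d a : ℝ}
    (hd : HasDerivAt (fun x => (α x).im) d a) :
    HasDerivAt (hA1 α) ((α a).re - hA α a - d) a := by
  have h := (((Complex.reCLM.hasFDerivAt (x := ee a * (starRingEnd ℂ)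
    (∫ t in (a - Real.pi)..a, ee t * α t))).comp_hasDerivAt a (k_der hc hp a)).const_mul (1 / 2 : ℝ)).sub hd
  refine h.congr_deriv ?_
  unfold hA
  simp only [Complex.reCLM_apply, Complex.add_re, Complex.mul_re, Complex.I_re, Complex.I_im, Complex.conj_re,
    Complex.re_ofNat, Complex.im_ofNat]
  ring

theorem hA_per {α : ℝ → ℂ} (hp : ∀ t, α (t + Real.pi) = α t) (a : ℝ) :
    hA α (a + 2 * Real.pi) = hA α a := by
  have hp2 : ∀ t, α (t + 2 * Real.pi) = α t := by
    intro t
    have e : t + 2 * Real.pi = t + Real.pi + Real.pi := by ring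
    rw [e, hp, hp]
  have he : ∀ t, ee (t + 2 * Real.pi) = ee t := by
    intro t
    rw [ee_add, ee_two_pi, mul_one]
  have h := intervalIntegral.integral_comp_add_right (a := a - Real.pi) (b := a)
    (fun t => ee t * α t) (2 * Real.pi)
  have e1 : a - Real.pi + 2 * Real.pi = a + 2 * Real.pi - Real.pi := by ring
  simp_rw [he, hp2] at h
  rw [e1] at h
  unfold hA
  rw [he, ← h]

theorem hCur : StCur := by
  intro P D hR hD _ hm a x
  have hc := hR.ca0
  have hp := hR.pa0
  have hH : ∀ x, HasDerivAt P.H (P.H1 x) x := by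
    intro x
    refine ((hw_deriv P.eta 0 0 x).add (hA_deriv hc hp x)).congr_deriv ?_
    unfold Par.H1 hw1
    simp
  have hH1 : ∀ x, HasDerivAt P.H1 (hw2 P.eta 0 0 x + ((P.a0 x).re - hA P.a0 x - D x)) x := by
    intro x
    refine HasDerivAt.congr_deriv (f' := hw2 P.eta 0 0 x + ((P.a0 x).re - hA P.a0 x - D x)) ?_ rfl
    have h1 := (hw1_deriv P.eta 0 0 x).add (hA1_deriv hc hp (hD x))
    have e : P.H1 = fun x => hw1 P.eta 0 0 x + hA1 P.a0 x := by
      funext y
      unfold Par.H1 hw1
      simp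
    rw [e]
    exact h1
  have hmm : ∀ x, P.m ≤ (hw2 P.eta 0 0 x + ((P.a0 x).re - hA P.a0 x - D x)) + P.H x := by
    intro x
    have h1 := hm x
    have h2 := hw_add P.eta 0 0 x
    unfold Par.H
    have h3 : P.w x = wR P.eta 0 0 x := rfl
    rw [h3] at h1
    linarith
  have hper : Function.Periodic P.H (2 * Real.pi) := by
    intro y
    unfold Par.H
    have h1 := hw_per_int P.eta 0 0 y 2
    push_cast at h1
    rw [hA_per hp, h1]
  -- reduce the angle
  have hp0 : (0 : ℝ) < 2 * Real.pi := by positivity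
  set k := toIocDiv hp0 (-Real.pi) x with hk
  have hmem := sub_toIocDiv_zsmul_mem_Ioc hp0 (-Real.pi) x
  rw [← hk] at hmem
  have habs : |x - k • (2 * Real.pi)| ≤ Real.pi := by
    rw [abs_le]
    constructor
    · exact hmem.1.le
    · have := hmem.2; linarith
  have hs := Helper48.SH.sup_ge P.H P.H1 (fun y => hw2 P.eta 0 0 y + ((P.a0 y).re - hA P.a0 y - D y)) P.m a
    (x - k • (2 * Real.pi)) hH hH1 hmm habs
  have c1 : Real.cos (x - k • (2 * Real.pi)) = Real.cos x := Real.cos_periodic.sub_zsmul_eq k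
  have c2 : Real.sin (x - k • (2 * Real.pi)) = Real.sin x := Real.sin_periodic.sub_zsmul_eq k
  have c3 : P.H (a + (x - k • (2 * Real.pi))) = P.H (a + x) := by
    rw [← add_sub_assoc]
    exact hper.sub_zsmul_eq k
  rw [c1, c2, c3] at hs
  linarith

/-- the curvature condition if no part of `α` is kept at the true angles -/
theorem cur_zero (P : Par) (hR : P.Reg) (h0 : P.a0 = fun _ => 0) (hm : P.m ≤ 1 - 2 * ‖P.eta‖) : P.Cur := by
  refine hCur P (fun _ => 0) hR (fun a => ?_) continuous_const (fun a => ?_)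
  · rw [h0]
    simpa using hasDerivAt_const a (0 : ℝ)
  · rw [h0]
    have h1 := abs_le.1 (Pool.Agent.Helper20.RC.wR_bd P.eta 0 0 a)
    have h2 : P.w a = wR P.eta 0 0 a := rfl
    rw [h2]
    simp only [norm_zero, add_zero] at h1
    simp only [Complex.zero_re, add_zero, sub_zero]
    linarith [h1.1]

end Pool.Agent.Helper30.SH
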