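import Pool.Agent.Helper30.SH.WLoc
import Pool.Agent.Helper20.RC.Frame

/-!
# SHARP, link 4: the passage from the pointwise lemma to the mean

`L2w` (helper20) is the mean over the direction `t` of the weighted support values of the two edges
`f1, f2` of the quadrilateral; the pair `t, t + π` gives the four edges. With a base `D1 t, D2 t` and any lower bound
`ρ t` of the four Bregman distances of the norm we get `L2w_ge`. The linear part is `Re (e conj gd)`, `gd` the gradient.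
-/

open MeasureTheory Set Filter Metric

namespace Pool.Agent.Helper30.SH

open Helper49.LT Helper87.RC Helper49.RC Helper44.GQ
open Helper44.RCG (G1 G2)
open Pool.Agent.Helper20.RC

/-- the two edges in the frame rotated by `ee t` -/
noncomputable def f1 (q : ℝ) (b z : ℂ) : ℂ := cQ q b + 1 / 2 * aQ q b + z
noncomputable def f2 (q : ℝ) (b z : ℂ) : ℂ := cQ q b - 1 / 2 * aQ q b - z

theorem F1Q_at (w : ℝ → ℝ) (q : ℝ) (b z : ℝ → ℂ) (t : ℝ) :
    F1Q w q b z (t + Real.pi / 3) = (w t : ℂ) * (ee t * f1 q (b t) (z t)) := by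
  unfold F1Q G1 AAQ vvS f1
  rw [add_sub_cancel_right]
  ring

theorem F2Q_at (w : ℝ → ℝ) (q : ℝ) (b z : ℝ → ℂ) (t : ℝ) :
    F2Q w q b z (t + 2 * Real.pi / 3) = (w t : ℂ) * (ee t * f2 q (b t) (z t)) := by
  unfold F2Q G2 BBQ vvS f2
  rw [add_sub_cancel_right]
  ring

/-- one edge, at one direction -/
theorem edge_at (η2 η6 η10 : ℂ) {G : ℝ → ℂ} {θ t r : ℝ} (hr : 0 ≤ r) {e : ℂ} (hG : G θ = (r : ℂ) * (ee t * e)) :
    ‖G θ‖ * hw η2 η6 η10 (al G θ) = r * (‖e‖ * hw η2 η6 η10 (t + e.arg)) := by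
  have hn : ‖G θ‖ = r * ‖e‖ := by
    rw [hG, norm_mul, norm_mul, norm_ee, one_mul, Complex.norm_real, Real.norm_of_nonneg hr]
  rcases eq_or_lt_of_le hr with h0 | h0
  · rw [hn, ← h0]; simp
  rcases eq_or_ne e 0 with he | he
  · rw [hn, he]; simp
  have hen : 0 < ‖e‖ := norm_pos_iff.2 he
  have h1 := al_ee G θ
  have h2 : e = (‖e‖ : ℂ) * ee e.arg := by
    have := Complex.norm_mul_exp_arg_mul_I e
    unfold ee
    exact this.symm
  have h3 : ee (al G θ) = ee (t + e.arg) := by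
    have h4 : (‖G θ‖ : ℂ) * ee (al G θ) = (‖G θ‖ : ℂ) * ee (t + e.arg) := by
      rw [← h1, hn, ee_add, hG]
      calc (r : ℂ) * (ee t * e) = (r : ℂ) * (ee t * ((‖e‖ : ℂ) * ee e.arg)) := by rw [← h2]
        _ = _ := by push_cast; ring
    have h5 : (‖G θ‖ : ℂ) ≠ 0 := by
      rw [Ne, Complex.ofReal_eq_zero, hn]
      positivity
    exact mul_left_cancel₀ h5 h4
  rw [hw_ee η2 η6 η10 h3, hn]
  ring

/-- the weighted support value of an edge -/
noncomputable def sv (η2 η6 η10 : ℂ) (t : ℝ) (e : ℂ) : ℝ := ‖e‖ * hw η2 η6 η10 (t + e.arg)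

theorem hw_two_pi (η2 η6 η10 : ℂ) (φ : ℝ) : hw η2 η6 η10 (φ + 2 * Real.pi) = hw η2 η6 η10 φ := by
  have := hw_per_int η2 η6 η10 φ 2
  push_cast at this
  exact this

theorem sv_two_pi (η2 η6 η10 : ℂ) (t : ℝ) (e : ℂ) : sv η2 η6 η10 (t + 2 * Real.pi) e = sv η2 η6 η10 t e := by
  unfold sv
  rw [add_right_comm, hw_two_pi]

theorem sv_pi (η2 η6 η10 : ℂ) (t : ℝ) (e : ℂ) : sv η2 η6 η10 (t + Real.pi) e = sv η2 η6 η10 t e := by
  unfold sv
  rw [add_right_comm, hw_per]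

section data

variable {q : ℝ} {b z : ℝ → ℂ}

theorem z_two_pi (h : AdmQ q b z) (t : ℝ) : z (t + 2 * Real.pi) = z t := by
  have e : t + 2 * Real.pi = t + Real.pi + Real.pi := by ring
  rw [e, h.perz, h.perz, neg_neg]

theorem b_two_pi (h : AdmQ q b z) (t : ℝ) : b (t + 2 * Real.pi) = b t := by
  have e : t + 2 * Real.pi = t + Real.pi + Real.pi := by ring
  rw [e, h.perb, h.perb]

theorem w_two_pi {w : ℝ → ℝ} (h : Wgt w) (t : ℝ) : w (t + 2 * Real.pi) = w t := by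
  have e : t + 2 * Real.pi = t + Real.pi + Real.pi := by ring
  rw [e, h.per, h.per]

theorem f_bm (hq : 0 < q) (h : AdmQ q b z) :
    ∃ C, BM (fun t => f1 q (b t) (z t)) C ∧ BM (fun t => f2 q (b t) (z t)) C := by
  obtain ⟨D, hD0, hDa, hDc, hDz⟩ := REDQ.data_bdd q hq b z h
  have ham := REDQ.aQ_meas q b h.mb
  have hcm := REDQ.cQ_meas q b h.mb
  have hh : ∀ t, ‖(1 / 2 : ℂ) * aQ q (b t)‖ ≤ D := by
    intro t
    rw [norm_mul]
    have : ‖(1 / 2 : ℂ)‖ = 1 / 2 := by norm_num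
    rw [this]
    linarith [hDa t]
  refine ⟨4 * D, ⟨?_, fun t => ?_⟩, ⟨?_, fun t => ?_⟩⟩
  · exact (hcm.add (measurable_const.mul ham)).add h.mz
  · unfold f1
    refine (norm_add_le _ _).trans ?_
    have := norm_add_le (cQ q (b t)) (1 / 2 * aQ q (b t))
    linarith [hDc t, hh t, hDz t]
  · exact (hcm.sub (measurable_const.mul ham)).sub h.mz
  · unfold f2
    refine (norm_sub_le _ _).trans ?_
    have := norm_sub_le (cQ q (b t)) (1 / 2 * aQ q (b t))
    linarith [hDc t, hh t, hDz t]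

end data

theorem arg_meas {e : ℝ → ℂ} (h : Measurable e) : Measurable fun t => t + (e t).arg :=
  measurable_id.add (Complex.measurable_arg.comp h)

theorem sv_intg (η2 η6 η10 : ℂ) {w : ℝ → ℝ} (hw : Wgt w) {e : ℝ → ℂ} {C : ℝ} (h : BM e C) (x y : ℝ) :
    IntervalIntegrable (fun t => w t * sv η2 η6 η10 t (e t)) volume x y := by
  obtain ⟨Cw, hCw⟩ := hw.bd
  refine intg_real (C := Cw * (C * (1 + 2 * (‖η2‖ + ‖η6‖ + ‖η10‖))))
    (hw.m.mul (h.m.norm.mul ((hw_meas η2 η6 η10).comp (arg_meas h.m)))) (fun t => ?_) _ _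
  show |w t * (‖e t‖ * Pool.Agent.Helper20.RC.hw η2 η6 η10 (t + (e t).arg))| ≤ _
  rw [abs_mul, abs_mul, abs_of_nonneg (hw.nonneg t), abs_of_nonneg (norm_nonneg _)]
  exact mul_le_mul (hCw t) (mul_le_mul (h.b t) (hw_abs _ _ _ _) (abs_nonneg _) h.C0)
    (by positivity) ((hw.nonneg t).trans (hCw t))

/-- change of variables for one family -/
theorem shift_int {g k : ℝ → ℝ} {c : ℝ} (e : ∀ t, g (t + c) = k t) (hk : ∀ t, k (t + 2 * Real.pi) = k t) :
    ∫ θ in (0 : ℝ)..(2 * Real.pi), g θ = ∫ t in (0 : ℝ)..(2 * Real.pi), k t := by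
  have h1 := intervalIntegral.integral_comp_add_right (a := 0 - c) (b := 2 * Real.pi - c) g c
  rw [sub_add_cancel, sub_add_cancel] at h1
  rw [← h1]
  simp_rw [e]
  have h2 : Function.Periodic k (2 * Real.pi) := hk
  have h3 := h2.intervalIntegral_add_eq (0 - c) 0
  rw [zero_add] at h3
  rw [← h3]
  congr 1
  ring

theorem pi_int {k : ℝ → ℝ} (hk : ∀ t, k (t + 2 * Real.pi) = k t) :
    ∫ t in (0 : ℝ)..(2 * Real.pi), k (t + Real.pi) = ∫ t in (0 : ℝ)..(2 * Real.pi), k t := by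
  refine (shift_int (g := k) (k := fun t => k (t + Real.pi)) (c := Real.pi) (fun t => rfl) (fun t => ?_)).symm
  show k (t + 2 * Real.pi + Real.pi) = k (t + Real.pi)
  rw [add_right_comm, hk]

/-- `L2w` is the mean of the weighted support values of the two edges -/
theorem L2w_eq {q : ℝ} (hq : 0 < q) {b z : ℝ → ℂ} (h : AdmQ q b z) {w : ℝ → ℝ} (hw : Wgt w) (η2 η6 η10 : ℂ) :
    L2w η2 η6 η10 (F1Q w q b z) (F2Q w q b z) =
      1 / (2 * Real.pi) * ∫ t in (0 : ℝ)..(2 * Real.pi),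
        w t * (sv η2 η6 η10 t (f1 q (b t) (z t)) + sv η2 η6 η10 t (f2 q (b t) (z t))) := by
  obtain ⟨C, hC⟩ := hexQ hq h hw
  have b1 : BM (F1Q w q b z) (2 * C) := ⟨Helper44.RCG.G1_meas hC.q, Helper44.RCG.G1_le hC.q⟩
  have b2 : BM (F2Q w q b z) (2 * C) := ⟨Helper44.RCG.G2_meas hC.q, Helper44.RCG.G2_le hC.q⟩
  obtain ⟨D, c1, c2⟩ := f_bm hq h
  have e1 : ∫ θ in (0 : ℝ)..(2 * Real.pi), ‖F1Q w q b z θ‖ * Pool.Agent.Helper20.RC.hw η2 η6 η10 (al (F1Q w q b z) θ) =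
      ∫ t in (0 : ℝ)..(2 * Real.pi), w t * sv η2 η6 η10 t (f1 q (b t) (z t)) := by
    refine shift_int (c := Real.pi / 3) (fun t => ?_) (fun t => ?_)
    · exact edge_at η2 η6 η10 (hw.nonneg t) (F1Q_at w q b z t)
    · rw [sv_two_pi, w_two_pi hw, b_two_pi h, z_two_pi h]
  have e2 : ∫ θ in (0 : ℝ)..(2 * Real.pi), ‖F2Q w q b z θ‖ * Pool.Agent.Helper20.RC.hw η2 η6 η10 (al (F2Q w q b z) θ) =
      ∫ t in (0 : ℝ)..(2 * Real.pi), w t * sv η2 η6 η10 t (f2 q (b t) (z t)) := by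
    refine shift_int (c := 2 * Real.pi / 3) (fun t => ?_) (fun t => ?_)
    · exact edge_at η2 η6 η10 (hw.nonneg t) (F2Q_at w q b z t)
    · rw [sv_two_pi, w_two_pi hw, b_two_pi h, z_two_pi h]
  unfold L2w
  congr 1
  rw [intervalIntegral.integral_add (hwG_intg b1 (al_meas b1.m) _ _ _ _ _) (hwG_intg b2 (al_meas b2.m) _ _ _ _ _),
    e1, e2, ← intervalIntegral.integral_add (sv_intg _ _ _ hw c1 _ _) (sv_intg _ _ _ hw c2 _ _)]
  refine intervalIntegral.integral_congr fun t _ => ?_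
  show w t * sv η2 η6 η10 t (f1 q (b t) (z t)) + w t * sv η2 η6 η10 t (f2 q (b t) (z t)) = _
  ring

/-- the gradient of the weighted support value at `D` -/
noncomputable def gd (η2 η6 η10 : ℂ) (t : ℝ) (D : ℂ) : ℂ :=
  ((hw η2 η6 η10 (t + D.arg) : ℂ) + Complex.I * (hw1 η2 η6 η10 (t + D.arg) : ℂ)) * D / (‖D‖ : ℂ)

theorem lw_gd (η2 η6 η10 : ℂ) (t : ℝ) (D e : ℂ) :
    lw η2 η6 η10 t D e = (e * (starRingEnd ℂ) (gd η2 η6 η10 t D)).re := by
  unfold lw gd
  simp only [map_mul, map_div₀, map_add, Complex.conj_ofReal, Complex.conj_I]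
  have e1 : e * (((hw η2 η6 η10 (t + D.arg) : ℂ) + -Complex.I * (hw1 η2 η6 η10 (t + D.arg) : ℂ))
      * (starRingEnd ℂ) D / (‖D‖ : ℂ)) =
      ((1 / ‖D‖ : ℝ) : ℂ) * (((hw η2 η6 η10 (t + D.arg) : ℝ) : ℂ) * (e * (starRingEnd ℂ) D)
        + ((hw1 η2 η6 η10 (t + D.arg) : ℝ) : ℂ) * (-Complex.I * (e * (starRingEnd ℂ) D))) := by
    push_cast
    ring
  rw [e1, Complex.re_ofReal_mul, Complex.add_re, Complex.re_ofReal_mul, Complex.re_ofReal_mul]
  have e2 : (-Complex.I * (e * (starRingEnd ℂ) D)).re = (e * (starRingEnd ℂ) D).im := by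
    simp
  rw [e2]
  ring

theorem hw1_meas (η2 η6 η10 : ℂ) : Measurable (hw1 η2 η6 η10) := by
  have h : ∀ (η : ℂ) (c : ℝ), Measurable fun x => (η * ee (c * x)).im := by
    intro η c
    exact Complex.measurable_im.comp (((continuous_ee.measurable).comp (measurable_const.mul measurable_id)).const_mul η)
  unfold hw1
  exact (((h η2 2).const_mul _).add ((h η6 6).const_mul _)).add ((h η10 10).const_mul _)

theorem lw_meas (η2 η6 η10 : ℂ) {D e : ℝ → ℂ} (hD : Measurable D) (he : Measurable e) :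
    Measurable fun t => lw η2 η6 η10 t (D t) (e t) := by
  unfold lw
  have hc : Measurable fun t => e t * (starRingEnd ℂ) (D t) :=
    he.mul (Complex.continuous_conj.measurable.comp hD)
  refine ((((hw_meas η2 η6 η10).comp (arg_meas hD)).mul (Complex.measurable_re.comp hc)).add
    (((hw1_meas η2 η6 η10).comp (arg_meas hD)).mul (Complex.measurable_im.comp hc))).div hD.norm

theorem lw_intg (η2 η6 η10 : ℂ) {w : ℝ → ℝ} (hw : Wgt w) {D e : ℝ → ℂ} (hD : Measurable D) {C : ℝ}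
    (he : BM e C) (x y : ℝ) :
    IntervalIntegrable (fun t => w t * lw η2 η6 η10 t (D t) (e t)) volume x y := by
  obtain ⟨Cw, hCw⟩ := hw.bd
  refine intg_real (C := Cw * (C * (1 + 2 * (‖η2‖ / 3 + ‖η6‖ / 35 + ‖η10‖ / 99)
        + (4 / 3 * ‖η2‖ + 12 / 35 * ‖η6‖ + 20 / 99 * ‖η10‖))))
    (hw.m.mul (lw_meas η2 η6 η10 hD he.m)) (fun t => ?_) _ _
  show |w t * lw η2 η6 η10 t (D t) (e t)| ≤ _
  rw [abs_mul, abs_of_nonneg (hw.nonneg t)]
  refine mul_le_mul (hCw t) ((abs_lw_le _ _ _ _ _ _).trans ?_) (abs_nonneg _) ((hw.nonneg t).trans (hCw t))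
  exact mul_le_mul_of_nonneg_right (he.b t) (by positivity)

theorem lw_pi (η2 η6 η10 : ℂ) (t : ℝ) (D e : ℂ) : lw η2 η6 η10 (t + Real.pi) D e = lw η2 η6 η10 t D e := by
  have h1 : hw1 η2 η6 η10 (t + D.arg + Real.pi) = hw1 η2 η6 η10 (t + D.arg) := by
    have a := hw1_deriv
    have d1 := hw_deriv η2 η6 η10 (t + D.arg + Real.pi)
    have d2 := hw_deriv η2 η6 η10 (t + D.arg)
    have d3 := d1.comp_add_const (t + D.arg) Real.pi
    have e3 : (fun x => hw η2 η6 η10 (x + Real.pi)) = hw η2 η6 η10 := by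
      funext x; exact hw_per _ _ _ x
    rw [e3] at d3
    exact d3.unique d2
  unfold lw
  rw [add_right_comm, hw_per, h1]

/-- **the mean**: any base, any lower bound `ρ` of the Bregman distances of the four edges -/
theorem L2w_ge {q : ℝ} (hq : 0 < q) {b z : ℝ → ℂ} (h : AdmQ q b z) {w : ℝ → ℝ} (hw : Wgt w) {η2 η6 η10 : ℂ}
    {m : ℝ} (hm0 : 0 ≤ m) (hm : ∀ φ, m ≤ wR η2 η6 η10 φ) {D1 D2 : ℝ → ℂ} (m1 : Measurable D1)
    (m2 : Measurable D2) (p1 : ∀ t, D1 (t + 2 * Real.pi) = D1 t) (p2 : ∀ t, D2 (t + 2 * Real.pi) = D2 t)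
    (n1 : ∀ t, D1 t ≠ 0) (n2 : ∀ t, D2 t ≠ 0) {ρ : ℝ → ℝ} (mρ : Measurable ρ) {R : ℝ} (bρ : ∀ t, |ρ t| ≤ R)
    (hB : ∀ t, ρ t ≤ br (D1 t) (f1 q (b t) (z t)) + br (D2 t) (f2 q (b t) (z t))
      + br (D1 (t + Real.pi)) (f1 q (b t) (-z t)) + br (D2 (t + Real.pi)) (f2 q (b t) (-z t))) :
    1 / (2 * Real.pi) * (∫ t in (0 : ℝ)..(2 * Real.pi),
        w t * (lw η2 η6 η10 t (D1 t) (f1 q (b t) (z t)) + lw η2 η6 η10 t (D2 t) (f2 q (b t) (z t))))
      + m / 2 * (1 / (2 * Real.pi) * ∫ t in (0 : ℝ)..(2 * Real.pi), w t * ρ t)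
      ≤ L2w η2 η6 η10 (F1Q w q b z) (F2Q w q b z) := by
  have hp := Real.pi_pos
  obtain ⟨D, c1, c2⟩ := f_bm hq h
  obtain ⟨Cw, hCw⟩ := hw.bd
  -- the function of one direction
  set K : ℝ → ℝ := fun t => w t * (sv η2 η6 η10 t (f1 q (b t) (z t)) + sv η2 η6 η10 t (f2 q (b t) (z t))) with hK
  set M : ℝ → ℝ := fun t => w t * (lw η2 η6 η10 t (D1 t) (f1 q (b t) (z t))
    + lw η2 η6 η10 t (D2 t) (f2 q (b t) (z t))) with hM
  have iK : ∀ x y, IntervalIntegrable K volume x y := by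
    intro x y
    have := (sv_intg η2 η6 η10 hw c1 x y).add (sv_intg η2 η6 η10 hw c2 x y)
    refine this.congr_ae (Filter.Eventually.of_forall fun t => ?_)
    show w t * _ + w t * _ = w t * (_ + _)
    ring
  have iM : ∀ x y, IntervalIntegrable M volume x y := by
    intro x y
    have := (lw_intg η2 η6 η10 hw m1 c1 x y).add (lw_intg η2 η6 η10 hw m2 c2 x y)
    refine this.congr_ae (Filter.Eventually.of_forall fun t => ?_)
    show w t * _ + w t * _ = w t * (_ + _)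
    ring
  have iρ : IntervalIntegrable (fun t => w t * ρ t) volume 0 (2 * Real.pi) := by
    refine intg_real (C := Cw * R) (hw.m.mul mρ) (fun t => ?_) _ _
    show |w t * ρ t| ≤ _
    rw [abs_mul, abs_of_nonneg (hw.nonneg t)]
    exact mul_le_mul (hCw t) (bρ t) (abs_nonneg _) ((hw.nonneg t).trans (hCw t))
  have pK : ∀ t, K (t + 2 * Real.pi) = K t := by
    intro t
    show w (t + 2 * Real.pi) * _ = w t * _
    rw [sv_two_pi, sv_two_pi, w_two_pi hw, b_two_pi h, z_two_pi h]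
  have lw2 : ∀ (t : ℝ) (D e : ℂ), lw η2 η6 η10 (t + 2 * Real.pi) D e = lw η2 η6 η10 t D e := by
    intro t D e
    have e1 : t + 2 * Real.pi = t + Real.pi + Real.pi := by ring
    rw [e1, lw_pi, lw_pi]
  have pM : ∀ t, M (t + 2 * Real.pi) = M t := by
    intro t
    show w (t + 2 * Real.pi) * _ = w t * _
    rw [lw2, lw2, w_two_pi hw, b_two_pi h, z_two_pi h, p1, p2]
  have sK := pi_int pK
  have sM := pi_int pM
  have iK2 : IntervalIntegrable (fun t => K (t + Real.pi)) volume 0 (2 * Real.pi) := by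
    have := (iK (0 + Real.pi) (2 * Real.pi + Real.pi)).comp_add_right Real.pi
    simpa using this
  have iM2 : IntervalIntegrable (fun t => M (t + Real.pi)) volume 0 (2 * Real.pi) := by
    have := (iM (0 + Real.pi) (2 * Real.pi + Real.pi)).comp_add_right Real.pi
    simpa using this
  have hpt : ∀ t, M t + M (t + Real.pi) + m * (w t * ρ t) ≤ K t + K (t + Real.pi) := by
    intro t
    have hKp : K (t + Real.pi) = w t * (sv η2 η6 η10 t (f1 q (b t) (-z t)) + sv η2 η6 η10 t (f2 q (b t) (-z t))) := by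
      show w (t + Real.pi) * _ = w t * _
      rw [sv_pi, sv_pi, hw.per, h.perb, h.perz]
    have hMp : M (t + Real.pi) = w t * (lw η2 η6 η10 t (D1 (t + Real.pi)) (f1 q (b t) (-z t))
        + lw η2 η6 η10 t (D2 (t + Real.pi)) (f2 q (b t) (-z t))) := by
      show w (t + Real.pi) * _ = w t * _
      rw [lw_pi, lw_pi, hw.per, h.perb, h.perz]
    rw [hKp, hMp]
    show w t * _ + _ + _ ≤ w t * _ + _
    have a1 := wloc η2 η6 η10 hm t (n1 t) (f1 q (b t) (z t))
    have a2 := wloc η2 η6 η10 hm t (n2 t) (f2 q (b t) (z t))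
    have a3 := wloc η2 η6 η10 hm t (n1 (t + Real.pi)) (f1 q (b t) (-z t))
    have a4 := wloc η2 η6 η10 hm t (n2 (t + Real.pi)) (f2 q (b t) (-z t))
    have a5 := mul_le_mul_of_nonneg_left (hB t) hm0
    unfold sv
    have a6 := mul_le_mul_of_nonneg_left (add_le_add (add_le_add (add_le_add (add_le_add a1 a2) a3) a4) a5)
      (hw.nonneg t)
    linarith
  have hI : (∫ t in (0 : ℝ)..(2 * Real.pi), (M t + M (t + Real.pi) + m * (w t * ρ t))) ≤
      ∫ t in (0 : ℝ)..(2 * Real.pi), (K t + K (t + Real.pi)) :=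
    intervalIntegral.integral_mono_on (by positivity) (((iM _ _).add iM2).add (iρ.const_mul m))
      ((iK _ _).add iK2) fun t _ => hpt t
  rw [intervalIntegral.integral_add ((iM _ _).add iM2) (iρ.const_mul m), intervalIntegral.integral_add (iM _ _) iM2,
    intervalIntegral.integral_add (iK _ _) iK2, intervalIntegral.integral_const_mul, sK, sM] at hI
  rw [L2w_eq hq h hw]
  have h2 : (∫ t in (0 : ℝ)..(2 * Real.pi), M t) + m / 2 * (∫ t in (0 : ℝ)..(2 * Real.pi), w t * ρ t)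
      ≤ ∫ t in (0 : ℝ)..(2 * Real.pi), K t := by linarith
  have h3 := mul_le_mul_of_nonneg_left h2 (by positivity : (0 : ℝ) ≤ 1 / (2 * Real.pi))
  refine le_trans (le_of_eq ?_) h3
  ring

end Pool.Agent.Helper30.SH
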