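import Pool.Agent.Helper61.RC.NFB
import Pool.Agent.Helper95.RC.Coef
import Pool.Agent.Helper40.NR.Err

/-!
# SHARP, zone I, the NS piece: coordinates `p, r, s` of the rows, and the sum of the row errors (Minkowski)
-/

set_option autoImplicit false

open MeasureTheory Set Filter Topology

namespace Pool.Agent.Helper30.SH

open Helper49.LT hiding sg
open Helper49.RC (om)
open Helper95.RC (c1 c2 kq)
open Pool.Agent.Helper61.RC (GA GB NSB NSB_grad)
open Pool.Agent.Helper40.NR (EE evE evE_nonneg evE_del evE_allzero coE delE)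

/-- the rows in the coordinates `s, p, r` -/
noncomputable def rS (G H : ℤ → ℂ) (l : ℤ) : ℂ :=
  2 * (om ^ (l + 1) * (starRingEnd ℂ) (G (l + 1)) - om ^ (2 * (l + 1)) * H (l + 1))
noncomputable def rP (G H : ℤ → ℂ) (l : ℤ) : ℂ :=
  2 * (om ^ (l + 2) * (starRingEnd ℂ) (G (l + 1)) + om ^ (2 * (l + 2)) * H (l + 1))
noncomputable def rR (G H : ℤ → ℂ) (l : ℤ) : ℂ :=
  2 * ((starRingEnd ℂ) (kq 2) * om ^ (l + 1) * (starRingEnd ℂ) (G (l + 1)) + kq 2 * om ^ (2 * (l + 1)) * H (l + 1))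

theorem om_ne : om ≠ 0 := by
  unfold om
  have := norm_ee (Real.pi / 3)
  intro h
  rw [h, norm_zero] at this
  exact zero_ne_one this

theorem om_conj_zpow (k : ℤ) : (starRingEnd ℂ) (om ^ k) = om ^ (-k) := by
  unfold om
  rw [← ee_int_mul, ← ee_int_mul, ← ee_neg]
  congr 1
  push_cast
  ring

theorem ee1 (m : ℤ) : ee (-(m : ℝ) * (Real.pi / 3)) = om ^ (-m) := by
  unfold om
  rw [← ee_int_mul]
  congr 1
  push_cast
  ring

theorem ee2 (m : ℤ) : ee (-(m : ℝ) * (2 * Real.pi / 3)) = om ^ (-(2 * m)) := by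
  unfold om
  rw [← ee_int_mul]
  congr 1
  push_cast
  ring

/-- one row -/
theorem row_prs (G H : ℤ → ℂ) (p r s : ℤ → ℂ) (m : ℤ) :
    2 * ((c1 2 (fun _ => 0) p r s m * G m).re + ((starRingEnd ℂ) (c2 2 (fun _ => 0) p r s m) * H m).re) =
      ((starRingEnd ℂ) (rS G H (m - 1)) * s (m - 1)).re + ((starRingEnd ℂ) (rP G H (m - 1)) * p (m - 1)).re
        + ((starRingEnd ℂ) (rR G H (m - 1)) * r (m - 1)).re := by
  have h1 : c1 2 (fun _ => 0) p r s m = om ^ (-m) *
      ((starRingEnd ℂ) om * p (m - 1) + kq 2 * r (m - 1) + s (m - 1)) := by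
    unfold c1
    rw [ee1]
    ring
  have h2 : c2 2 (fun _ => 0) p r s m = om ^ (-(2 * m)) *
      ((starRingEnd ℂ) om ^ 2 * p (m - 1) + (starRingEnd ℂ) (kq 2) * r (m - 1) - s (m - 1)) := by
    unfold c2
    rw [ee2]
    ring
  have e1 : (starRingEnd ℂ) om = om ^ (-1 : ℤ) := by
    have := om_conj_zpow 1
    rwa [zpow_one] at this
  have hne := om_ne
  have z1 : om ^ (m - 1 + 2) = om ^ m * om := by
    rw [← zpow_add_one₀ hne]; congr 1; ring
  have z2 : om ^ (2 * (m - 1 + 2)) = om ^ (2 * m) * om ^ 2 := by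
    rw [← zpow_natCast om 2, ← zpow_add₀ hne]; congr 1; push_cast; ring
  have cm : (starRingEnd ℂ) (om ^ m) = om ^ (-m) := om_conj_zpow m
  have c2m : (starRingEnd ℂ) (om ^ (2 * m)) = om ^ (-(2 * m)) := om_conj_zpow (2 * m)
  rw [← cm] at h1
  rw [← c2m] at h2
  rw [h1, h2]
  unfold rS rP rR
  rw [sub_add_cancel, z1, z2]
  obtain ⟨x, hx⟩ : ∃ x, x = om ^ m := ⟨_, rfl⟩
  obtain ⟨y, hy⟩ : ∃ y, y = om ^ (2 * m) := ⟨_, rfl⟩
  obtain ⟨o, ho⟩ : ∃ o, o = om := ⟨_, rfl⟩
  rw [← hx, ← hy, ← ho]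
  have key : ∀ u : ℂ, ((starRingEnd ℂ) u).re = u.re := fun u => Complex.conj_re u
  have e2 : ((starRingEnd ℂ) ((starRingEnd ℂ) y * ((starRingEnd ℂ) o ^ 2 * p (m - 1)
      + (starRingEnd ℂ) (kq 2) * r (m - 1) - s (m - 1))) * H m).re =
      ((starRingEnd ℂ) y * ((starRingEnd ℂ) o ^ 2 * p (m - 1)
      + (starRingEnd ℂ) (kq 2) * r (m - 1) - s (m - 1)) * (starRingEnd ℂ) (H m)).re := by
    rw [← key, map_mul, Complex.conj_conj]
  rw [e2]
  simp only [map_mul, map_add, map_sub, map_ofNat, Complex.conj_conj, map_pow]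
  simp only [← Complex.add_re]
  have e3 : ∀ u : ℂ, 2 * u.re = (2 * u).re := fun u => by simp
  rw [e3]
  congr 1
  ring

/-- **the coordinates**: `2 NSB` of the base and the rest `p, r, s` -/
theorem NSB_prs (d k ph : ℝ) (S : Finset ℤ) (h0 : (0 : ℤ) ∈ S) (a b p r s : ℤ → ℂ) :
    2 * NSB d k ph S a b (c1 2 (fun _ => 0) p r s) (c2 2 (fun _ => 0) p r s) =
      ∑ m ∈ S, (((starRingEnd ℂ) (rS (GA d k ph S a b) (GB d k ph S a b) (m - 1)) * s (m - 1)).re
        + ((starRingEnd ℂ) (rP (GA d k ph S a b) (GB d k ph S a b) (m - 1)) * p (m - 1)).re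
        + ((starRingEnd ℂ) (rR (GA d k ph S a b) (GB d k ph S a b) (m - 1)) * r (m - 1)).re) := by
  rw [NSB_grad d k ph S h0, ← Finset.sum_add_distrib, Finset.mul_sum]
  exact Finset.sum_congr rfl fun m _ => row_prs _ _ p r s m

/-! ### sum of the row errors -/

theorem mink_list_real {α : Type*} (x y : α → ℝ) : ∀ L : List α,
    Real.sqrt ((L.map fun e => (x e + y e) ^ 2).sum) ≤
      Real.sqrt ((L.map fun e => x e ^ 2).sum) + Real.sqrt ((L.map fun e => y e ^ 2).sum)
  | [] => by simp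
  | e :: L => by
    have ih := mink_list_real x y L
    have n1 : 0 ≤ (L.map fun e => x e ^ 2).sum := List.sum_nonneg (by simp; intros; positivity)
    have n2 : 0 ≤ (L.map fun e => y e ^ 2).sum := List.sum_nonneg (by simp; intros; positivity)
    have n3 : 0 ≤ (L.map fun e => (x e + y e) ^ 2).sum := List.sum_nonneg (by simp; intros; positivity)
    simp only [List.map_cons, List.sum_cons]
    set P := Real.sqrt ((L.map fun e => x e ^ 2).sum) with hP
    set Q := Real.sqrt ((L.map fun e => y e ^ 2).sum) with hQ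
    set R := Real.sqrt ((L.map fun e => (x e + y e) ^ 2).sum) with hR
    have p2 : (L.map fun e => x e ^ 2).sum = P ^ 2 := (Real.sq_sqrt n1).symm
    have q2 : (L.map fun e => y e ^ 2).sum = Q ^ 2 := (Real.sq_sqrt n2).symm
    have r2 : (L.map fun e => (x e + y e) ^ 2).sum = R ^ 2 := (Real.sq_sqrt n3).symm
    rw [p2, q2, r2]
    have hR0 : 0 ≤ R := Real.sqrt_nonneg _
    have h1 : Real.sqrt ((x e + y e) ^ 2 + R ^ 2) ≤ Real.sqrt ((x e + y e) ^ 2 + (P + Q) ^ 2) := by
      apply Real.sqrt_le_sqrt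
      have : R ^ 2 ≤ (P + Q) ^ 2 := pow_le_pow_left₀ hR0 ih 2
      linarith
    refine h1.trans ?_
    have key : ∀ u v : ℝ, Real.sqrt (u ^ 2 + v ^ 2) = ‖(⟨u, v⟩ : ℂ)‖ := by
      intro u v
      rw [Complex.norm_def, Complex.normSq_mk]
      congr 1
      ring
    rw [key, key, key]
    exact norm_add_le (⟨x e, P⟩ : ℂ) ⟨y e, Q⟩

/-- boolean check: for every monomial of `ms` the sum of the squares of the coefficients is at most the square of the
coefficient of `f`; no other monomials occur -/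
def mink : List (ℕ × ℕ) → List EE → EE → Bool
  | [], es, _ => es.all fun e => e.all fun x => x.2 == 0
  | m :: ms, es, f => decide ((es.map fun e => coE m e ^ 2).sum ≤ coE m f ^ 2) &&
      mink ms (es.map (delE m)) (delE m f)

theorem mink_list {A β : ℝ} (hA : 0 ≤ A) (hβ : 0 ≤ β) : ∀ (ms : List (ℕ × ℕ)) (es : List EE) (f : EE),
    mink ms es f = true → Real.sqrt ((es.map fun e => evE A β e ^ 2).sum) ≤ evE A β f
  | [], es, f, h => by
    have h1 : (es.map fun e => evE A β e ^ 2) = es.map fun _ => (0 : ℝ) := by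
      refine List.map_congr_left fun e he => ?_
      simp only [mink, List.all_eq_true] at h
      rw [evE_allzero A β e (by simpa using h e he)]
      norm_num
    rw [h1]
    simp only [List.map_const', List.sum_replicate, smul_zero, Real.sqrt_zero]
    exact evE_nonneg hA hβ f
  | m :: ms, es, f, h => by
    simp only [mink, Bool.and_eq_true, decide_eq_true_eq] at h
    have ih := mink_list hA hβ ms _ _ h.2
    rw [List.map_map] at ih
    obtain ⟨M, hM⟩ : ∃ M, M = A ^ m.1 * β ^ m.2 := ⟨_, rfl⟩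
    have hM0 : 0 ≤ M := by rw [hM]; positivity
    have e1 : (es.map fun e => evE A β e ^ 2) =
        es.map fun e => ((coE m e : ℝ) / 1000000 * M + evE A β (delE m e)) ^ 2 := by
      refine List.map_congr_left fun e _ => ?_
      rw [evE_del A β m e, hM]
    rw [e1, evE_del A β m f, ← hM]
    refine (mink_list_real _ _ es).trans (add_le_add ?_ ih)
    have e2 : (es.map fun e => ((coE m e : ℝ) / 1000000 * M) ^ 2).sum =
        (((es.map fun e => coE m e ^ 2).sum : ℕ) : ℝ) * (M / 1000000) ^ 2 := by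
      clear e1 ih h
      induction es with
      | nil => simp
      | cons e es ih =>
        simp only [List.map_cons, List.sum_cons]
        rw [ih]
        push_cast
        ring
    rw [e2]
    have h3 : (((es.map fun e => coE m e ^ 2).sum : ℕ) : ℝ) ≤ (coE m f : ℝ) ^ 2 := by exact_mod_cast h.1
    have h4 : (((es.map fun e => coE m e ^ 2).sum : ℕ) : ℝ) * (M / 1000000) ^ 2 ≤
        ((coE m f : ℝ) / 1000000 * M) ^ 2 := by
      have : ((coE m f : ℝ) / 1000000 * M) ^ 2 = (coE m f : ℝ) ^ 2 * (M / 1000000) ^ 2 := by ring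
      rw [this]
      exact mul_le_mul_of_nonneg_right h3 (by positivity)
    exact Real.sqrt_le_iff.2 ⟨by positivity, h4⟩

theorem sum_le_list {α : Type*} [DecidableEq α] (f : α → ℝ) (hf : ∀ a, 0 ≤ f a) : ∀ (ls : List α) (T : Finset α),
    (∀ l ∈ T, l ∈ ls) → ∑ l ∈ T, f l ≤ (ls.map f).sum
  | [], T, h => by
    have : T = ∅ := Finset.eq_empty_of_forall_notMem fun l hl => by simpa using h l hl
    rw [this]; simp
  | a :: ls, T, h => by
    have ih := sum_le_list f hf ls (T.erase a) fun l hl => by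
      have h1 := h l (Finset.mem_of_mem_erase hl)
      rcases List.mem_cons.1 h1 with h2 | h2
      · exact absurd h2 (Finset.ne_of_mem_erase hl)
      · exact h2
    simp only [List.map_cons, List.sum_cons]
    by_cases ha : a ∈ T
    · rw [← Finset.add_sum_erase T f ha]
      linarith
    · rw [Finset.erase_eq_of_notMem ha] at ih
      linarith [hf a]

/-- **Minkowski** -/
theorem mink_le {A β : ℝ} (hA : 0 ≤ A) (hβ : 0 ≤ β) (T : Finset ℤ) (E : ℤ → EE) (tot : EE) (ms : List (ℕ × ℕ))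
    (ls : List ℤ) (hT : ∀ l ∈ T, l ∈ ls) (h : mink ms (ls.map E) tot = true) :
    Real.sqrt (∑ l ∈ T, evE A β (E l) ^ 2) ≤ evE A β tot := by
  refine le_trans (Real.sqrt_le_sqrt ?_) (mink_list hA hβ ms (ls.map E) tot h)
  have := sum_le_list (fun l => evE A β (E l) ^ 2) (fun l => sq_nonneg _) ls T hT
  rw [List.map_map]
  exact this

/-- **the error of the rows** -/
theorem rows_err (T : Finset ℤ) (row low s : ℤ → ℂ) (e : ℤ → ℝ) (h : ∀ l ∈ T, ‖row l - low l‖ ≤ e l) :
    |∑ l ∈ T, ((starRingEnd ℂ) (row l) * s l).re - ∑ l ∈ T, ((starRingEnd ℂ) (low l) * s l).re| ≤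
      Real.sqrt (∑ l ∈ T, e l ^ 2) * Real.sqrt (∑ l ∈ T, ‖s l‖ ^ 2) := by
  rw [← Finset.sum_sub_distrib]
  have h1 : ∀ l ∈ T, |((starRingEnd ℂ) (row l) * s l).re - ((starRingEnd ℂ) (low l) * s l).re| ≤ e l * ‖s l‖ := by
    intro l hl
    have e1 : ((starRingEnd ℂ) (row l) * s l).re - ((starRingEnd ℂ) (low l) * s l).re =
        ((starRingEnd ℂ) (row l - low l) * s l).re := by
      rw [map_sub, sub_mul, Complex.sub_re]
    rw [e1]
    refine (Complex.abs_re_le_norm _).trans ?_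
    rw [norm_mul, Complex.norm_conj]
    exact mul_le_mul_of_nonneg_right (h l hl) (norm_nonneg _)
  calc _ ≤ ∑ l ∈ T, |((starRingEnd ℂ) (row l) * s l).re - ((starRingEnd ℂ) (low l) * s l).re| :=
        Finset.abs_sum_le_sum_abs _ _
    _ ≤ ∑ l ∈ T, e l * ‖s l‖ := Finset.sum_le_sum h1
    _ ≤ _ := Real.sum_mul_le_sqrt_mul_sqrt T e fun l => ‖s l‖

end Pool.Agent.Helper30.SH
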