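import Pool.Agent.Helper54.RC.UnitF
import Pool.Agent.Helper95.RC.Coef

/-!
# Project RC, SHARP: certificates of sums, conjugates, constants and of the tangent factors

Everything in helper54's fast format. `addP, subP, cjP`; constants with a rational value (`cstP`) and the constants
`om, om², conj om, (conj om)², kq 2, conj (kq 2)` from one integer `h` near `2 ^ s √3/2`; `zfP`: the factor
`(1 - lam) u + (1/3) eta e(2t) u³ - conj eta e(-2t) conj u` from a certificate of the unit function `u`.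
-/

set_option autoImplicit false

namespace Helper30.SH

open Helper49.LT hiding sg
open Helper49.RC (om)
open Helper95.RC (kq)
open Helper54.RC.Fast

section

variable {b s r : ℕ}

/-! ## Sums and conjugates -/

def addP (b : ℕ) (p q : PF) : PF := ⟨addF b p.z q.z, Nat.add p.er q.er⟩
def subP (b : ℕ) (p q : PF) : PF := ⟨subF b p.z q.z, Nat.add p.er q.er⟩
def cjP (b : ℕ) (p : PF) : PF := ⟨cjF b p.z, p.er⟩

theorem addP_sound (hr : r ≤ b + 1) {p q : PF} {f g : ℝ → ℂ} (hp : AP b s p f) (hq : AP b s q g)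
    (h : oka b r p.z q.z = true) : AP b s (addP b p q) (fun t => f t + g t) := by
  obtain ⟨w, v⟩ := addF_sound b r hr p.z q.z hp.1 hq.1 h
  refine ⟨w, fun t => ?_⟩
  have e1 : (addP b p q).z = addF b p.z q.z := rfl
  have e2 : (addP b p q).er = p.er + q.er := rfl
  rw [e1, e2, v t]
  have e : V b p.z t + V b q.z t - (2 ^ s : ℂ) * (f t + g t) =
      (V b p.z t - (2 ^ s : ℂ) * f t) + (V b q.z t - (2 ^ s : ℂ) * g t) := by ring
  rw [e, Nat.cast_add]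
  exact (norm_add_le _ _).trans (add_le_add (hp.2 t) (hq.2 t))

theorem subP_sound (hr : r ≤ b + 1) {p q : PF} {f g : ℝ → ℂ} (hp : AP b s p f) (hq : AP b s q g)
    (h : oka b r p.z q.z = true) : AP b s (subP b p q) (fun t => f t - g t) := by
  obtain ⟨w, v⟩ := subF_sound b r hr p.z q.z hp.1 hq.1 h
  refine ⟨w, fun t => ?_⟩
  have e1 : (subP b p q).z = subF b p.z q.z := rfl
  have e2 : (subP b p q).er = p.er + q.er := rfl
  rw [e1, e2, v t]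
  have e : V b p.z t - V b q.z t - (2 ^ s : ℂ) * (f t - g t) =
      (V b p.z t - (2 ^ s : ℂ) * f t) - (V b q.z t - (2 ^ s : ℂ) * g t) := by ring
  rw [e, Nat.cast_add]
  exact (norm_sub_le _ _).trans (add_le_add (hp.2 t) (hq.2 t))

theorem cjP_sound (hr : r ≤ b + 1) {p : PF} {f : ℝ → ℂ} (hp : AP b s p f) (h : okn b r p.z = true) :
    AP b s (cjP b p) (fun t => (starRingEnd ℂ) (f t)) := by
  obtain ⟨w, v⟩ := cjF_sound b r hr p.z h
  refine ⟨w, fun t => ?_⟩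
  have e1 : (cjP b p).z = cjF b p.z := rfl
  have e2 : (cjP b p).er = p.er := rfl
  rw [e1, e2, v t]
  have e : (starRingEnd ℂ) (V b p.z t) - (2 ^ s : ℂ) * (starRingEnd ℂ) (f t) =
      (starRingEnd ℂ) (V b p.z t - (2 ^ s : ℂ) * f t) := by
    rw [map_sub, map_mul, map_pow, Complex.conj_ofNat]
  rw [e, RCLike.norm_conj]
  exact hp.2 t

theorem AP_congr {p : PF} {f g : ℝ → ℂ} (h : AP b s p f) (e : ∀ t, g t = f t) : AP b s p g :=
  ⟨h.1, fun t => by rw [e t]; exact h.2 t⟩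

/-! ## Monomials and constants -/

/-- a monomial with an error -/
theorem moP (N k p q p' q' e : ℕ) (hk : k ≤ 2 * N) (hp : p < 2 ^ b) (hq : q < 2 ^ b) (hp' : p' < 2 ^ b)
    (hq' : q' < 2 ^ b) (c : ℂ) (hc : ‖(((p : ℂ) - q) + Complex.I * ((p' : ℂ) - q')) - (2 ^ s : ℂ) * c‖ ≤ e) :
    AP b s ⟨moF b N k p q p' q', e⟩ (fun t => c * ee (((k : ℝ) - N) * t)) := by
  obtain ⟨w, v⟩ := moF_sound b N k p q p' q' hk hp hq hp' hq'
  refine ⟨w, fun t => ?_⟩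
  show ‖V b (moF b N k p q p' q') t - _‖ ≤ (e : ℝ)
  rw [v t]
  have e1 : (((p : ℂ) - q) + Complex.I * ((p' : ℂ) - q')) * ee (((k : ℝ) - N) * t) -
      (2 ^ s : ℂ) * (c * ee (((k : ℝ) - N) * t)) =
      ((((p : ℂ) - q) + Complex.I * ((p' : ℂ) - q')) - (2 ^ s : ℂ) * c) * ee (((k : ℝ) - N) * t) := by ring
  rw [e1, norm_mul, norm_ee, mul_one]
  exact hc

/-- `floor (2 ^ s a / D)` -/
def fr (s a D : ℕ) : ℕ := Nat.div (Nat.mul (Nat.pow 2 s) a) D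

theorem fr_le (s a D : ℕ) (hD : 0 < D) : |(fr s a D : ℝ) - 2 ^ s * (a / D)| ≤ 1 := by
  have e : fr s a D = 2 ^ s * a / D := rfl
  have h1 := Nat.div_add_mod (2 ^ s * a) D
  have h2 : 2 ^ s * a % D < D := Nat.mod_lt _ hD
  have hD' : (0 : ℝ) < D := by exact_mod_cast hD
  have h3 : (D : ℝ) * ((2 ^ s * a / D : ℕ) : ℝ) + ((2 ^ s * a % D : ℕ) : ℝ) = 2 ^ s * a := by exact_mod_cast h1
  have h4 : ((2 ^ s * a % D : ℕ) : ℝ) < D := by exact_mod_cast h2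
  have h5 : (0 : ℝ) ≤ ((2 ^ s * a % D : ℕ) : ℝ) := Nat.cast_nonneg _
  have h6 : (2 : ℝ) ^ s * (a / D) = (D * ((2 ^ s * a / D : ℕ) : ℝ) + ((2 ^ s * a % D : ℕ) : ℝ)) / D := by
    rw [h3]; ring
  have h7 : (2 : ℝ) ^ s * (a / D) = ((2 ^ s * a / D : ℕ) : ℝ) + ((2 ^ s * a % D : ℕ) : ℝ) / D := by
    rw [h6]; field_simp
  rw [e, h7, abs_le]
  have h8 : ((2 ^ s * a % D : ℕ) : ℝ) / D ≤ 1 := by rw [div_le_one hD']; exact h4.le
  have h9 : 0 ≤ ((2 ^ s * a % D : ℕ) : ℝ) / D := by positivity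
  constructor <;> linarith

theorem fr_int (s : ℕ) (a : ℤ) (D : ℕ) (hD : 0 < D) :
    |((fr s a.toNat D : ℝ) - (fr s (-a).toNat D : ℝ)) - 2 ^ s * ((a : ℝ) / D)| ≤ 1 := by
  have z : fr s 0 D = 0 := by
    show 2 ^ s * 0 / D = 0
    rw [Nat.mul_zero, Nat.zero_div]
  rcases le_total 0 a with h | h
  · have e : (-a).toNat = 0 := by omega
    have e2 : ((a.toNat : ℕ) : ℝ) = (a : ℝ) := by
      have : ((a.toNat : ℕ) : ℤ) = a := Int.toNat_of_nonneg h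
      exact_mod_cast this
    have := fr_le s a.toNat D hD
    rw [e, z, Nat.cast_zero, sub_zero, ← e2]
    exact this
  · have e : a.toNat = 0 := by omega
    have e2 : (((-a).toNat : ℕ) : ℝ) = -(a : ℝ) := by
      have : (((-a).toNat : ℕ) : ℤ) = -a := Int.toNat_of_nonneg (by omega)
      exact_mod_cast this
    have := fr_le s (-a).toNat D hD
    rw [e, z, Nat.cast_zero, zero_sub]
    rw [e2] at this
    rw [abs_le] at this ⊢
    have e3 : (2 : ℝ) ^ s * (-(a : ℝ) / D) = -(2 ^ s * ((a : ℝ) / D)) := by ring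
    rw [e3] at this
    constructor <;> linarith [this.1, this.2]

/-- the monomial `((a + i a') / D) ee ((k - N) t)` -/
def cstP (b s N k : ℕ) (a a' : ℤ) (D : ℕ) : PF :=
  ⟨moF b N k (fr s (Int.toNat a) D) (fr s (Int.toNat (-a)) D) (fr s (Int.toNat a') D) (fr s (Int.toNat (-a')) D), 2⟩

/-- no overflow and `0 < D` -/
def okc (b s : ℕ) (a a' : ℤ) (D : ℕ) : Bool :=
  bif Nat.ble 1 D then
  bif Nat.ble (Nat.succ (fr s (Int.toNat a) D)) (Nat.pow 2 b) then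
  bif Nat.ble (Nat.succ (fr s (Int.toNat (-a)) D)) (Nat.pow 2 b) then
  bif Nat.ble (Nat.succ (fr s (Int.toNat a') D)) (Nat.pow 2 b) then
    Nat.ble (Nat.succ (fr s (Int.toNat (-a')) D)) (Nat.pow 2 b)
  else false else false else false else false

theorem cstP_sound {N k : ℕ} (hk : k ≤ 2 * N) (a a' : ℤ) (D : ℕ) (h : okc b s a a' D = true) :
    AP b s (cstP b s N k a a' D) (fun t => (((a : ℂ) + Complex.I * a') / D) * ee (((k : ℝ) - N) * t)) := by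
  unfold okc at h
  simp only [bif_true] at h
  obtain ⟨h0, h1, h2, h3, h4⟩ := h
  have hD : 0 < D := Nat.le_of_ble_eq_true h0
  refine moP N k _ _ _ _ 2 hk (Nat.le_of_ble_eq_true h1) (Nat.le_of_ble_eq_true h2) (Nat.le_of_ble_eq_true h3)
    (Nat.le_of_ble_eq_true h4) _ ?_
  have k1 := fr_int s a D hD
  have k2 := fr_int s a' D hD
  set x : ℝ := ((fr s a.toNat D : ℝ) - (fr s (-a).toNat D : ℝ)) - 2 ^ s * ((a : ℝ) / D)
  set y : ℝ := ((fr s a'.toNat D : ℝ) - (fr s (-a').toNat D : ℝ)) - 2 ^ s * ((a' : ℝ) / D)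
  have e : (((fr s a.toNat D : ℂ) - (fr s (-a).toNat D : ℂ)) + Complex.I * ((fr s a'.toNat D : ℂ) - (fr s (-a').toNat D : ℂ)))
      - (2 ^ s : ℂ) * (((a : ℂ) + Complex.I * a') / D) = (x : ℂ) + Complex.I * (y : ℂ) := by
    simp only [x, y]
    push_cast
    ring
  rw [e]
  refine (norm_add_le _ _).trans ?_
  rw [norm_mul, Complex.norm_I, one_mul, Complex.norm_real, Complex.norm_real, Real.norm_eq_abs, Real.norm_eq_abs]
  push_cast
  linarith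

/-! ## The constants with `√3` -/

/-- `h ≤ 2 ^ s √3/2 < h + 1`, `1 ≤ s` -/
def okh (b s h : ℕ) : Bool :=
  bif Nat.ble 1 s then
  bif Nat.ble (Nat.mul 4 (Nat.mul h h)) (Nat.mul 3 (Nat.pow 2 (Nat.add s s))) then
  bif Nat.ble (Nat.mul 3 (Nat.pow 2 (Nat.add s s))) (Nat.mul 4 (Nat.mul (Nat.succ h) (Nat.succ h))) then
    Nat.ble (Nat.succ (Nat.add s 2)) b
  else false else false else false

theorem okh_sound {h : ℕ} (hh : okh b s h = true) : 1 ≤ s ∧ |(h : ℝ) - 2 ^ s * (Real.sqrt 3 / 2)| ≤ 1 ∧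
    s + 2 < b ∧ 2 * h < 2 ^ b := by
  unfold okh at hh
  simp only [bif_true] at hh
  obtain ⟨h0, h1, h2, h3⟩ := hh
  have h0 : 1 ≤ s := Nat.le_of_ble_eq_true h0
  have h1 : 4 * (h * h) ≤ 3 * 2 ^ (s + s) := Nat.le_of_ble_eq_true h1
  have h2 : 3 * 2 ^ (s + s) ≤ 4 * ((h + 1) * (h + 1)) := Nat.le_of_ble_eq_true h2
  have h3 : s + 2 + 1 ≤ b := Nat.le_of_ble_eq_true h3
  have hp : (0 : ℝ) < 2 ^ s := by positivity
  have g1 : (4 * ((h : ℝ) * h) : ℝ) ≤ 3 * (2 ^ s) ^ 2 := by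
    have : ((4 * (h * h) : ℕ) : ℝ) ≤ ((3 * 2 ^ (s + s) : ℕ) : ℝ) := by exact_mod_cast h1
    push_cast at this
    rw [pow_add] at this
    rw [sq]
    exact this
  have g2 : (3 * (2 ^ s) ^ 2 : ℝ) ≤ 4 * (((h : ℝ) + 1) * (h + 1)) := by
    have : ((3 * 2 ^ (s + s) : ℕ) : ℝ) ≤ ((4 * ((h + 1) * (h + 1)) : ℕ) : ℝ) := by exact_mod_cast h2
    push_cast at this
    rw [pow_add] at this
    rw [sq]
    exact this
  have hs3 : Real.sqrt 3 ^ 2 = 3 := Real.sq_sqrt (by norm_num)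
  have hs0 : 0 < Real.sqrt 3 := Real.sqrt_pos.2 (by norm_num)
  set q : ℝ := 2 ^ s * (Real.sqrt 3 / 2) with hq
  have hq0 : 0 < q := by positivity
  have hq2 : 4 * q ^ 2 = 3 * (2 ^ s) ^ 2 := by
    rw [hq, mul_pow, div_pow, hs3]; ring
  have hh0 : (0 : ℝ) ≤ h := Nat.cast_nonneg _
  have g3 : (h : ℝ) ≤ q := abs_le_of_sq_le_sq' (by nlinarith) hq0.le |>.2
  have g4 : q ≤ (h : ℝ) + 1 := abs_le_of_sq_le_sq' (by nlinarith) (by positivity) |>.2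
  refine ⟨h0, by rw [abs_le]; constructor <;> linarith, by omega, ?_⟩
  have g5 : h ≤ 2 ^ s := by
    have : h * h ≤ 2 ^ s * 2 ^ s := by
      have : 2 ^ (s + s) = 2 ^ s * 2 ^ s := pow_add 2 s s
      rw [this] at h1
      nlinarith
    exact Nat.mul_self_le_mul_self_iff.1 this
  have g6 : 2 ^ (s + 2) ≤ 2 ^ b := Nat.pow_le_pow_right (by norm_num) (by omega)
  have g7 : 2 ^ (s + 2) = 4 * 2 ^ s := by rw [pow_add]; ring
  have g8 : 0 < 2 ^ s := by positivity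
  omega

def hf (s : ℕ) : ℕ := Nat.pow 2 (Nat.sub s 1)
def qf (s : ℕ) : ℕ := Nat.div (Nat.pow 2 s) 4

def omP (b s h : ℕ) : PF := ⟨moF b 0 0 (hf s) 0 h 0, 2⟩
def om2P (b s h : ℕ) : PF := ⟨moF b 0 0 0 (hf s) h 0, 2⟩
def ocP (b s h : ℕ) : PF := ⟨moF b 0 0 (hf s) 0 0 h, 2⟩
def oc2P (b s h : ℕ) : PF := ⟨moF b 0 0 0 (hf s) 0 h, 2⟩
def kqP (b s h : ℕ) : PF := ⟨moF b 0 0 (Nat.mul 2 h) 0 (qf s) 0, 3⟩
def kcP (b s h : ℕ) : PF := ⟨moF b 0 0 (Nat.mul 2 h) 0 0 (qf s), 3⟩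

theorem hf_eq (hs : 1 ≤ s) : ((hf s : ℕ) : ℝ) = 2 ^ s * (1 / 2) := by
  obtain ⟨m, rfl⟩ : ∃ m, s = m + 1 := ⟨s - 1, by omega⟩
  have : hf (m + 1) = 2 ^ m := rfl
  rw [this]
  push_cast
  ring

theorem qf_le (s : ℕ) : |((qf s : ℕ) : ℝ) - 2 ^ s * (1 / 4)| ≤ 1 := by
  have h1 := fr_le s 1 4 (by norm_num)
  have e : fr s 1 4 = qf s := by
    show 2 ^ s * 1 / 4 = 2 ^ s / 4
    rw [Nat.mul_one]
  rw [e] at h1
  push_cast at h1
  exact h1

theorem two_err {x y X Y : ℝ} {c : ℂ} {e : ℝ} {a : ℝ} (hx : |x - a * X| + |y - a * Y| ≤ e) (hc : c = (X : ℂ) + Complex.I * Y) :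
    ‖((x : ℂ) + Complex.I * (y : ℂ)) - (a : ℂ) * c‖ ≤ e := by
  have e1 : ((x : ℂ) + Complex.I * (y : ℂ)) - (a : ℂ) * c = ((x - a * X : ℝ) : ℂ) + Complex.I * ((y - a * Y : ℝ) : ℂ) := by
    rw [hc]; push_cast; ring
  rw [e1]
  refine (norm_add_le _ _).trans ?_
  rw [norm_mul, Complex.norm_I, one_mul, Complex.norm_real, Complex.norm_real, Real.norm_eq_abs, Real.norm_eq_abs]
  exact hx

theorem om_c : om = ((1 / 2 : ℝ) : ℂ) + Complex.I * ((Real.sqrt 3 / 2 : ℝ) : ℂ) := by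
  rw [Helper95.RC.om_val]; push_cast; ring
theorem om2_c : om ^ 2 = ((-(1 / 2) : ℝ) : ℂ) + Complex.I * ((Real.sqrt 3 / 2 : ℝ) : ℂ) := by
  rw [Helper95.RC.om_sq]; push_cast; ring
theorem oc_c : (starRingEnd ℂ) om = ((1 / 2 : ℝ) : ℂ) + Complex.I * ((-(Real.sqrt 3 / 2) : ℝ) : ℂ) := by
  rw [Helper95.RC.om_conj]; push_cast; ring
theorem oc2_c : (starRingEnd ℂ) om ^ 2 = ((-(1 / 2) : ℝ) : ℂ) + Complex.I * ((-(Real.sqrt 3 / 2) : ℝ) : ℂ) := by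
  rw [Helper95.RC.om_conj_sq]; push_cast; ring
theorem kq_c : kq 2 = ((Real.sqrt 3 : ℝ) : ℂ) + Complex.I * ((1 / 4 : ℝ) : ℂ) := by
  unfold kq
  push_cast
  ring
theorem kc_c : (starRingEnd ℂ) (kq 2) = ((Real.sqrt 3 : ℝ) : ℂ) + Complex.I * ((-(1 / 4) : ℝ) : ℂ) := by
  rw [kq_c, map_add, map_mul, Complex.conj_ofReal, Complex.conj_ofReal, Complex.conj_I]
  push_cast
  ring

/-- a constant function from natural numbers -/
theorem c0P (p q p' q' e : ℕ) (hp : p < 2 ^ b) (hq : q < 2 ^ b) (hp' : p' < 2 ^ b)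
    (hq' : q' < 2 ^ b) {X Y : ℝ} {c : ℂ} (hc : c = (X : ℂ) + Complex.I * Y)
    (he : |((p : ℝ) - q) - 2 ^ s * X| + |((p' : ℝ) - q') - 2 ^ s * Y| ≤ e) :
    AP b s ⟨moF b 0 0 p q p' q', e⟩ (fun _ => c) := by
  have h1 := moP (b := b) (s := s) 0 0 p q p' q' e (by norm_num) hp hq hp' hq' c (by
    have := two_err (x := (p : ℝ) - q) (y := (p' : ℝ) - q') (a := 2 ^ s) he hc
    push_cast at this
    exact this)
  refine AP_congr h1 fun t => ?_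
  have : ((((0 : ℕ) : ℝ)) - ((0 : ℕ) : ℝ)) * t = 0 := by simp
  rw [this, ee_zero, mul_one]

theorem consts {h : ℕ} (hh : okh b s h = true) :
    AP b s (omP b s h) (fun _ => om) ∧ AP b s (om2P b s h) (fun _ => om ^ 2) ∧
    AP b s (ocP b s h) (fun _ => (starRingEnd ℂ) om) ∧ AP b s (oc2P b s h) (fun _ => (starRingEnd ℂ) om ^ 2) ∧
    AP b s (kqP b s h) (fun _ => kq 2) ∧ AP b s (kcP b s h) (fun _ => (starRingEnd ℂ) (kq 2)) := by
  obtain ⟨h1, h2, h3, h4⟩ := okh_sound hh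
  have hb : 0 < 2 ^ b := by positivity
  have hhb : h < 2 ^ b := by omega
  have hhf : hf s < 2 ^ b := by
    have : hf s = 2 ^ (s - 1) := rfl
    rw [this]
    exact Nat.pow_lt_pow_right (by norm_num) (by omega)
  have hqf : qf s < 2 ^ b := by
    have e : qf s = 2 ^ s / 4 := rfl
    have a1 : 2 ^ s / 4 ≤ 2 ^ s := Nat.div_le_self _ _
    have a2 : 2 ^ s < 2 ^ b := Nat.pow_lt_pow_right (by norm_num) (by omega)
    omega
  have e1 := hf_eq (s := s) h1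
  have e2 := qf_le s
  have z1 : |(((hf s : ℕ) : ℝ) - ((0 : ℕ) : ℝ)) - 2 ^ s * (1 / 2)| = 0 := by
    rw [e1]; simp
  have z2 : |(((0 : ℕ) : ℝ) - ((hf s : ℕ) : ℝ)) - 2 ^ s * (-(1 / 2))| = 0 := by
    rw [e1]; simp
  have z3 : |((h : ℝ) - ((0 : ℕ) : ℝ)) - 2 ^ s * (Real.sqrt 3 / 2)| ≤ 1 := by
    rw [Nat.cast_zero, sub_zero]; exact h2
  have z4 : |(((0 : ℕ) : ℝ) - (h : ℝ)) - 2 ^ s * (-(Real.sqrt 3 / 2))| ≤ 1 := by
    rw [Nat.cast_zero, zero_sub]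
    have : -(h : ℝ) - 2 ^ s * (-(Real.sqrt 3 / 2)) = -((h : ℝ) - 2 ^ s * (Real.sqrt 3 / 2)) := by ring
    rw [this, abs_neg]
    exact h2
  have z5 : |(((Nat.mul 2 h : ℕ) : ℝ) - ((0 : ℕ) : ℝ)) - 2 ^ s * Real.sqrt 3| ≤ 2 := by
    have e3 : ((Nat.mul 2 h : ℕ) : ℝ) = 2 * h := by
      show ((2 * h : ℕ) : ℝ) = 2 * h
      push_cast; ring
    rw [e3, Nat.cast_zero, sub_zero]
    have : 2 * (h : ℝ) - 2 ^ s * Real.sqrt 3 = 2 * ((h : ℝ) - 2 ^ s * (Real.sqrt 3 / 2)) := by ring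
    rw [this, abs_mul, abs_of_pos (by norm_num : (0 : ℝ) < 2)]
    linarith
  have z6 : |(((qf s : ℕ) : ℝ) - ((0 : ℕ) : ℝ)) - 2 ^ s * (1 / 4)| ≤ 1 := by
    rw [Nat.cast_zero, sub_zero]; exact e2
  have z7 : |(((0 : ℕ) : ℝ) - ((qf s : ℕ) : ℝ)) - 2 ^ s * (-(1 / 4))| ≤ 1 := by
    rw [Nat.cast_zero, zero_sub]
    have : -((qf s : ℕ) : ℝ) - 2 ^ s * (-(1 / 4)) = -(((qf s : ℕ) : ℝ) - 2 ^ s * (1 / 4)) := by ring
    rw [this, abs_neg]
    exact e2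
  have h2h : Nat.mul 2 h < 2 ^ b := h4
  refine ⟨c0P _ _ _ _ 2 hhf hb hhb hb om_c ?_, c0P _ _ _ _ 2 hb hhf hhb hb om2_c ?_,
    c0P _ _ _ _ 2 hhf hb hb hhb oc_c ?_, c0P _ _ _ _ 2 hb hhf hb hhb oc2_c ?_,
    c0P _ _ _ _ 3 h2h hb hqf hb kq_c ?_, c0P _ _ _ _ 3 h2h hb hb hqf kc_c ?_⟩
  · rw [z1]; push_cast; linarith
  · rw [z2]; push_cast; linarith
  · rw [z1]; push_cast at z4 ⊢; linarith
  · rw [z2]; push_cast at z4 ⊢; linarith
  · push_cast at z5 z6 ⊢; linarith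
  · push_cast at z5 z7 ⊢; linarith

end

end Helper30.SH
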