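import Pool.Agent.Helper30.SH.ZRow3
import Pool.Agent.Helper64.SH.Row

/-!
# Project RC, SHARP: the row of the local part in helper95's coordinates

`ZL_LR`: the linear part of `LA` as ONE real row `LR (nt K L) (2 ^ s)` whose integers are the digits of the certificates
`rS, rP, rR, rC` (`ZRow3`). `coef_nat`: every coefficient of a certificate. `far_sq`: coefficients outside a window.
-/

open MeasureTheory Set Filter Topology

set_option autoImplicit false

namespace Helper30.SH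

open Helper49.LT hiding sg
open Helper95.RC (Sup)
open Helper95.SH (pV rV sV nt LR)
open Helper49.Sharp (Par)
open Helper87.RC (BM)
open Helper56.RC (fc)
open Helper54.RC.Fast
open Pool.Agent.Helper64.SH (row3 iRow LR_row ci ci_re)

/-! ## Digits -/

/-- real and imaginary part of the coefficient of the frequency `n` -/
def dRe (b : ℕ) (z : FP) (n : ℤ) : ℤ :=
  if -(z.N : ℤ) ≤ n ∧ n ≤ (z.N : ℤ) then (dg b (n + z.N).toNat z.x : ℤ) - 2 ^ b else 0
def dIm (b : ℕ) (z : FP) (n : ℤ) : ℤ :=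
  if -(z.N : ℤ) ≤ n ∧ n ≤ (z.N : ℤ) then (dg b (n + z.N).toNat z.y : ℤ) - 2 ^ b else 0

theorem cf_ci (b : ℕ) (z : FP) (n : ℤ) : cf b z n = ci (dRe b z n) (dIm b z n) := by
  unfold cf dRe dIm ci
  by_cases h : -(z.N : ℤ) ≤ n ∧ n ≤ (z.N : ℤ)
  · rw [if_pos (Finset.mem_Icc.2 h), if_pos h, if_pos h]
    unfold Helper54.RC.Fast.cc
    push_cast
    rfl
  · rw [if_neg (fun hc => h (Finset.mem_Icc.1 hc)), if_neg h, if_neg h]
    simp

/-- **every coefficient of a certificate** -/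
theorem coef_nat {b s : ℕ} {p : PF} {f : ℝ → ℂ} {C : ℝ} (hf : BM f C) (h : AP b s p f) (n : ℤ) :
    ‖((2 ^ s : ℝ) : ℂ) * fc f n - ci (dRe b p.z n) (dIm b p.z n)‖ ≤ p.er := by
  have h1 := coef_le hf h n
  have hs : (0 : ℝ) < 2 ^ s := by positivity
  rw [← cf_ci]
  have e : ((2 ^ s : ℝ) : ℂ) * fc f n - cf b p.z n = ((2 ^ s : ℝ) : ℂ) * (fc f n - cf b p.z n / 2 ^ s) := by
    have : (2 ^ s : ℂ) ≠ 0 := pow_ne_zero _ two_ne_zero
    push_cast
    field_simp
  rw [e, norm_mul, Complex.norm_real, Real.norm_eq_abs, abs_of_pos hs]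
  rw [le_div_iff₀ hs] at h1
  linarith

/-- the window of a certificate -/
theorem win_AP {b s r : ℕ} (hr : r ≤ b + 1) {p : PF} {f : ℝ → ℂ} (h : AP b s p f) {M : ℕ} (hM : M ≤ p.z.N) :
    AP b s ⟨winF b M p.z, p.er + tlF b r M p.z⟩ f := by
  obtain ⟨w, v⟩ := winF_sound b r M hr p.z hM
  refine ⟨w, fun t => ?_⟩
  show ‖V b (winF b M p.z) t - (2 ^ s : ℂ) * f t‖ ≤ ((p.er + tlF b r M p.z : ℕ) : ℝ)
  have e : V b (winF b M p.z) t - (2 ^ s : ℂ) * f t =
      (V b p.z t - (2 ^ s : ℂ) * f t) - (V b p.z t - V b (winF b M p.z) t) := by ring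
  rw [e, Nat.cast_add]
  exact (norm_sub_le _ _).trans (add_le_add (h.2 t) (v t))

/-- **coefficients outside the window `M`** -/
theorem far_sq {b s r : ℕ} (hr : r ≤ b + 1) {p : PF} {f : ℝ → ℂ} {C : ℝ} (hf : BM f C) (h : AP b s p f) {M : ℕ}
    (hM : M ≤ p.z.N) (F : Finset ℤ) (hF : ∀ n ∈ F, n ∉ Finset.Icc (-(M : ℤ)) M) :
    ∑ n ∈ F, ‖fc f n‖ ^ 2 ≤ (((p.er + tlF b r M p.z : ℕ) : ℝ) / 2 ^ s) ^ 2 := by
  have h1 := coef_sq hf (win_AP hr h hM) F
  refine le_trans (le_of_eq (Finset.sum_congr rfl fun n hn => ?_)) h1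
  have e : cf b (winF b M p.z) n = 0 := cf_sup b (winF b M p.z) n (hF n hn)
  show ‖fc f n‖ ^ 2 = ‖fc f n - cf b (winF b M p.z) n / 2 ^ s‖ ^ 2
  rw [e, zero_div, sub_zero]

/-- a certificate which is stored as a literal -/
def eqP (p q : PF) : Bool :=
  bif Nat.beq p.z.N q.z.N then bif Nat.beq p.z.x q.z.x then bif Nat.beq p.z.y q.z.y then Nat.ble p.er q.er
  else false else false else false

theorem eqP_sound {b s : ℕ} {p q : PF} {f : ℝ → ℂ} (h : AP b s p f) (e : eqP p q = true) : AP b s q f := by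
  unfold eqP at e
  simp only [bif_true] at e
  obtain ⟨e1, e2, e3, e4⟩ := e
  have hz : q.z = p.z := by
    have a1 := Nat.eq_of_beq_eq_true e1
    have a2 := Nat.eq_of_beq_eq_true e2
    have a3 := Nat.eq_of_beq_eq_true e3
    rcases p with ⟨⟨pn, px, py⟩, pe⟩
    rcases q with ⟨⟨qn, qx, qy⟩, qe⟩
    simp only at a1 a2 a3 ⊢
    rw [a1, a2, a3]
  have h4 : p.er ≤ q.er := Nat.le_of_ble_eq_true e4
  refine ⟨by rw [hz]; exact h.1, fun t => ?_⟩
  rw [hz]
  exact (h.2 t).trans (by exact_mod_cast h4)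

/-! ## The row -/

/-- the integer row of the local part -/
def zRow (b K L : ℕ) (pS pP pR pC : PF) : ℕ → ℤ :=
  iRow K L (dRe b pC.z 0) (dRe b pS.z) (dIm b pS.z) (dRe b pP.z) (dIm b pP.z) (dRe b pR.z) (dIm b pR.z)

/-- the errors are at most `e` -/
def okE (e : ℕ) (pS pP pR pC : PF) : Bool :=
  bif Nat.ble pS.er (Nat.mul 2 e) then bif Nat.ble pP.er e then bif Nat.ble pR.er e then Nat.ble pC.er (Nat.mul 2 e)
  else false else false else false

theorem ZL_row3 (P : Par) (N : ℕ) (p r s : ℤ → ℂ) :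
    ZL P N p r s = row3 N (fc (fC P) 0).re (fc (fS P)) (fc (fP P)) (fc (fR P)) p r s := by
  unfold ZL lin row3
  rw [Finset.sum_add_distrib, Finset.sum_add_distrib, Complex.add_re, Complex.add_re]

/-- **the linear part of `LA` as one real row** -/
theorem ZL_LR {P : Par} (hr : P.Reg) (h0 : P.a0 = fun _ => 0) {b s K L N : ℕ} (hK : ¬ Even K) (hL : Even L)
    (hKN : K ≤ N) (hLN : L ≤ N) {pS pP pR pC : PF} (h1 : AP b s pS (fS P)) (h2 : AP b s pP (fP P))
    (h3 : AP b s pR (fR P)) (h4 : AP b s pC (fC P)) {e : ℕ} (he : okE e pS pP pR pC = true) :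
    LR (nt K L) (2 ^ s) (fun v => ZL P N (pV K L v) (rV K L v) (sV K v)) (zRow b K L pS pP pR pC) (2 * (e : ℝ)) := by
  unfold okE at he
  simp only [bif_true] at he
  obtain ⟨e1, e2, e3, e4⟩ := he
  have e1 : pS.er ≤ 2 * e := Nat.le_of_ble_eq_true e1
  have e2 : pP.er ≤ e := Nat.le_of_ble_eq_true e2
  have e3 : pR.er ≤ e := Nat.le_of_ble_eq_true e3
  have e4 : pC.er ≤ 2 * e := Nat.le_of_ble_eq_true e4
  have r1 : (pS.er : ℝ) ≤ 2 * e := by exact_mod_cast e1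
  have r2 : (pP.er : ℝ) ≤ e := by exact_mod_cast e2
  have r3 : (pR.er : ℝ) ≤ e := by exact_mod_cast e3
  have r4 : (pC.er : ℝ) ≤ 2 * e := by exact_mod_cast e4
  obtain ⟨C1, b1⟩ := fS_bm hr h0
  obtain ⟨C2, b2⟩ := fP_bm hr h0
  obtain ⟨C3, b3⟩ := fR_bm hr h0
  obtain ⟨C4, b4⟩ := fC_bm hr h0
  have k := LR_row (K := K) (L := L) (N := N) hK hL hKN hLN (q := 2 ^ s) (e := (e : ℝ)) (c0 := (fc (fC P) 0).re)
    (S := fc (fS P)) (P := fc (fP P)) (R := fc (fR P)) (c := dRe b pC.z 0) (SR := dRe b pS.z) (SI := dIm b pS.z)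
    (PR := dRe b pP.z) (PI := dIm b pP.z) (RR := dRe b pR.z) (RI := dIm b pR.z) (Nat.cast_nonneg _) (by
      have h5 := (Complex.abs_re_le_norm _).trans (coef_nat b4 h4 0)
      rw [Complex.sub_re, ci_re, Complex.re_ofReal_mul] at h5
      exact h5.trans r4)
    (fun n _ => (coef_nat b1 h1 n).trans r1) (fun n _ => (coef_nat b2 h2 n).trans r2)
    (fun n _ => (coef_nat b3 h3 n).trans r3)
  have e5 : (fun v => ZL P N (pV K L v) (rV K L v) (sV K v)) =
      fun v => row3 N (fc (fC P) 0).re (fc (fS P)) (fc (fP P)) (fc (fR P)) (pV K L v) (rV K L v) (sV K v) :=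
    funext fun v => ZL_row3 P N _ _ _
  rw [e5]
  exact k

end Helper30.SH
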